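import Mathlib

/-!
Definitions: outerplane Laman graphs (triangulated polygons) on a finite point set of the
Euclidean plane, their weight, the minimum-weight decision problem, and the Hamiltonian path
problem on grid graphs.
-/

namespace Pool.Agent.Lib.MP_17cbde_lc

open Classical

/-- The Euclidean plane. -/
abbrev Plane : Type := EuclideanSpace ℝ (Fin 2)

/-- The closed straight segment drawn for the edge `e` (the convex hull of its endpoints). -/
def seg (e : Sym2 Plane) : Set Plane := convexHull ℝ (e : Set Plane)

/-- The Euclidean length of the edge `e`. -/
noncomputable def len (e : Sym2 Plane) : ℝ :=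
  Sym2.lift ⟨fun a b => dist a b, fun a b => dist_comm a b⟩ e

/-- The weight of a drawing: the sum of the Euclidean lengths of its edges. -/
noncomputable def weight (E : Finset (Sym2 Plane)) : ℝ := ∑ e ∈ E, len e

/-- The edges `l₀l₁, l₁l₂, …, l₍ₙ₋₁₎l₀` of the closed polygon with vertex list `l`. -/
noncomputable def polygonEdges (l : List Plane) : List (Sym2 Plane) :=
  List.zipWith (fun a b => s(a, b)) l (l.rotate 1)

/-- `l` lists, in cyclic order, the vertices of a simple polygon: there are at least three
vertices, they are distinct, and two different edges meet only in common endpoints. -/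
structure IsSimplePolygon (l : List Plane) : Prop where
  three_le : 3 ≤ l.length
  nodup : l.Nodup
  simple : (polygonEdges l).Pairwise fun e f => ∀ x ∈ seg e ∩ seg f, x ∈ e ∧ x ∈ f

/-- The sides of a triangle `t`: the unordered pairs of distinct vertices of `t`. -/
noncomputable def sides {P : Type*} (t : Finset P) : Finset (Sym2 P) :=
  t.sym2.filter fun e => ¬ e.IsDiag

/-- The closed region of a triangle. -/
def region (t : Finset Plane) : Set Plane := convexHull ℝ (t : Set Plane)

/-- `T` is a triangulation of the polygon with vertex list `l`, without additional vertices: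
the members of `T` are non-degenerate triangles with vertices among those of `l`, their interiors
are pairwise disjoint, every edge of the polygon is a side of exactly one triangle of `T`, and
every other segment is a side of no triangle or of exactly two triangles of `T`. -/
structure IsTriangulation (l : List Plane) (T : Finset (Finset Plane)) : Prop where
  vertices : ∀ t ∈ T, t ⊆ l.toFinset ∧ t.card = 3
  nondegenerate : ∀ t ∈ T, (interior (region t)).Nonempty
  disjoint : ∀ t ∈ T, ∀ t' ∈ T, t ≠ t' → Disjoint (interior (region t)) (interior (region t'))
  boundary : ∀ e ∈ polygonEdges l, (T.filter fun t => e ∈ sides t).card = 1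
  inner : ∀ e, e ∉ polygonEdges l →
    (T.filter fun t => e ∈ sides t).card = 0 ∨ (T.filter fun t => e ∈ sides t).card = 2

/-- `E` is the edge set of an outerplane Laman graph on the finite point set `S`: it has
`2|S| - 3` edges and consists of the sides of the triangles of a triangulated simple polygon whose
vertex set is `S` (that is, of the polygon's edges and of the diagonals triangulating its
interior). -/
def IsOuterplaneLaman (S : Finset Plane) (E : Finset (Sym2 Plane)) : Prop :=
  E.card = 2 * S.card - 3 ∧
    ∃ (l : List Plane) (T : Finset (Finset Plane)),
      l.toFinset = S ∧ IsSimplePolygon l ∧ IsTriangulation l T ∧ E = T.biUnion sides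

/-- The point of the plane with natural coordinates `p`. -/
noncomputable def toPlane (p : ℕ × ℕ) : Plane := !₂[(p.1 : ℝ), (p.2 : ℝ)]

/-- Decision version of the minimum-weight outerplane Laman graph problem, for a point set given
as a list of distinct points with natural coordinates and for a natural number `W`. -/
def MWOL (S : List (ℕ × ℕ)) (W : ℕ) : Prop :=
  S.Nodup ∧ ∃ E, IsOuterplaneLaman (S.toFinset.image toPlane) E ∧ weight E ≤ W

/-- Adjacency in the grid: the two lattice points are at distance one. -/
def GridAdj (p q : ℕ × ℕ) : Prop :=
  (p.1 = q.1 ∧ (p.2 + 1 = q.2 ∨ q.2 + 1 = p.2)) ∨ (p.2 = q.2 ∧ (p.1 + 1 = q.1 ∨ q.1 + 1 = p.1))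

/-- Hamiltonian path problem for grid graphs: `V` is a list of at least two distinct lattice
points, and the grid graph on these points has a Hamiltonian path, i.e. the points can be ordered
so that consecutive ones are adjacent. -/
def GridHamPath (V : List (ℕ × ℕ)) : Prop :=
  2 ≤ V.length ∧ V.Nodup ∧ ∃ P : List (ℕ × ℕ), P.Perm V ∧ P.IsChain GridAdj

end Pool.Agent.Lib.MP_17cbde_lc
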