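import Mathlib
import Pool.Agent.Lib.MP_17cbde_lc.Defs

namespace Pool.Agent.Lib.MP_17cbde_lc

open MeasureTheory

section hull

variable {E : Type*} [AddCommGroup E] [Module ℝ E]

theorem mem_hull3 {a b c x : E} :
    x ∈ convexHull ℝ ({a, b, c} : Set E) ↔
      ∃ α β γ : ℝ, 0 ≤ α ∧ 0 ≤ β ∧ 0 ≤ γ ∧ α + β + γ = 1 ∧ α • a + β • b + γ • c = x := by
  constructor
  · intro hx
    have hconv : Convex ℝ {x : E | ∃ α β γ : ℝ, 0 ≤ α ∧ 0 ≤ β ∧ 0 ≤ γ ∧ α + β + γ = 1 ∧
        α • a + β • b + γ • c = x} := by
      rintro x ⟨α, β, γ, h1, h2, h3, h4, rfl⟩ y ⟨α', β', γ', h1', h2', h3', h4', rfl⟩ s t hs ht hst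
      refine ⟨s * α + t * α', s * β + t * β', s * γ + t * γ', by positivity, by positivity,
        by positivity, ?_, ?_⟩
      · calc s * α + t * α' + (s * β + t * β') + (s * γ + t * γ')
            = s * (α + β + γ) + t * (α' + β' + γ') := by ring
          _ = 1 := by rw [h4, h4']; linarith
      · simp only [smul_add, add_smul, mul_smul]
        abel
    have hsub : ({a, b, c} : Set E) ⊆ {x : E | ∃ α β γ : ℝ, 0 ≤ α ∧ 0 ≤ β ∧ 0 ≤ γ ∧
        α + β + γ = 1 ∧ α • a + β • b + γ • c = x} := by
      intro y hy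
      simp only [Set.mem_insert_iff, Set.mem_singleton_iff] at hy
      rcases hy with rfl | rfl | rfl
      · exact ⟨1, 0, 0, by norm_num, by norm_num, by norm_num, by norm_num, by simp⟩
      · exact ⟨0, 1, 0, by norm_num, by norm_num, by norm_num, by norm_num, by simp⟩
      · exact ⟨0, 0, 1, by norm_num, by norm_num, by norm_num, by norm_num, by simp⟩
    exact convexHull_min hsub hconv hx
  · rintro ⟨α, β, γ, h1, h2, h3, h4, rfl⟩
    have := (convex_convexHull ℝ ({a, b, c} : Set E)).sum_mem (t := Finset.univ)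
      (w := ![α, β, γ]) (z := ![a, b, c])
      (by intro i _; fin_cases i <;> simpa) (by simp [Fin.sum_univ_three, h4])
      (by
        intro i _
        apply subset_convexHull
        fin_cases i <;> simp)
    simpa [Fin.sum_univ_three] using this

/-- A triangle is covered by the three triangles obtained from an inner point. -/
theorem hull3_cover {a b c d : E} {α β γ : ℝ} (hα : 0 < α) (hβ : 0 < β) (hγ : 0 < γ)
    (hs : α + β + γ = 1) (hd : d = α • a + β • b + γ • c) :
    convexHull ℝ ({a, b, c} : Set E) ⊆ convexHull ℝ ({a, b, d} : Set E) ∪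
      (convexHull ℝ ({d, c, a} : Set E) ∪ convexHull ℝ ({d, c, b} : Set E)) := by
  intro x hx
  obtain ⟨x1, x2, x3, h1, h2, h3, h4, rfl⟩ := mem_hull3.1 hx
  -- choose the smallest ratio
  rcases le_total (x1 / α) (x2 / β) with h12 | h12 <;>
  rcases le_total (x1 / α) (x3 / γ) with h13 | h13 <;>
  rcases le_total (x2 / β) (x3 / γ) with h23 | h23
  all_goals
    first
    | -- minimal x1 / α : triangle d c b
      (have m2 : 0 ≤ x2 - (x1 / α) * β := by
        have : (x1 / α) * β ≤ (x2 / β) * β := by nlinarith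
        rw [div_mul_cancel₀ _ hβ.ne'] at this
        linarith
       have m3 : 0 ≤ x3 - (x1 / α) * γ := by
        have : (x1 / α) * γ ≤ (x3 / γ) * γ := by nlinarith
        rw [div_mul_cancel₀ _ hγ.ne'] at this
        linarith
       right; right
       refine mem_hull3.2 ⟨x1 / α, x3 - (x1 / α) * γ, x2 - (x1 / α) * β, by positivity, m3, m2,
         ?_, ?_⟩
       · have : x1 / α * α = x1 := div_mul_cancel₀ _ hα.ne'
         have : x1 / α = x1 / α * (α + β + γ) := by rw [hs, mul_one]
         nlinarith
       · rw [hd]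
         have e : x1 / α * α = x1 := div_mul_cancel₀ _ hα.ne'
         rw [smul_add, smul_add, smul_smul, smul_smul, smul_smul, e, sub_smul, sub_smul]
         abel)
    | -- minimal x2 / β : triangle d c a
      (have m1 : 0 ≤ x1 - (x2 / β) * α := by
        have : (x2 / β) * α ≤ (x1 / α) * α := by nlinarith
        rw [div_mul_cancel₀ _ hα.ne'] at this
        linarith
       have m3 : 0 ≤ x3 - (x2 / β) * γ := by
        have : (x2 / β) * γ ≤ (x3 / γ) * γ := by nlinarith
        rw [div_mul_cancel₀ _ hγ.ne'] at this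
        linarith
       right; left
       refine mem_hull3.2 ⟨x2 / β, x3 - (x2 / β) * γ, x1 - (x2 / β) * α, by positivity, m3, m1,
         ?_, ?_⟩
       · have : x2 / β * β = x2 := div_mul_cancel₀ _ hβ.ne'
         have : x2 / β = x2 / β * (α + β + γ) := by rw [hs, mul_one]
         nlinarith
       · rw [hd]
         have e : x2 / β * β = x2 := div_mul_cancel₀ _ hβ.ne'
         rw [smul_add, smul_add, smul_smul, smul_smul, smul_smul, e, sub_smul, sub_smul]
         abel)
    | -- minimal x3 / γ : triangle a b d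
      (have m1 : 0 ≤ x1 - (x3 / γ) * α := by
        have : (x3 / γ) * α ≤ (x1 / α) * α := by nlinarith
        rw [div_mul_cancel₀ _ hα.ne'] at this
        linarith
       have m2 : 0 ≤ x2 - (x3 / γ) * β := by
        have : (x3 / γ) * β ≤ (x2 / β) * β := by nlinarith
        rw [div_mul_cancel₀ _ hβ.ne'] at this
        linarith
       left
       refine mem_hull3.2 ⟨x1 - (x3 / γ) * α, x2 - (x3 / γ) * β, x3 / γ, m1, m2, by positivity,
         ?_, ?_⟩
       · have : x3 / γ * γ = x3 := div_mul_cancel₀ _ hγ.ne'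
         have : x3 / γ = x3 / γ * (α + β + γ) := by rw [hs, mul_one]
         nlinarith
       · rw [hd]
         have e : x3 / γ * γ = x3 := div_mul_cancel₀ _ hγ.ne'
         rw [smul_add, smul_add, smul_smul, smul_smul, smul_smul, e, sub_smul, sub_smul]
         abel)

end hull

theorem pos_mem_interior {a b c d : Plane}
    (hne : (interior (convexHull ℝ ({a, b, c} : Set Plane))).Nonempty) {α β γ : ℝ}
    (hα : 0 < α) (hβ : 0 < β) (hγ : 0 < γ)
    (hs : α + β + γ = 1) (hd : d = α • a + β • b + γ • c) :
    d ∈ interior (convexHull ℝ ({a, b, c} : Set Plane)) := by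
  obtain ⟨z, hz⟩ := hne
  obtain ⟨x1, x2, x3, h1, h2, h3, h4, hz'⟩ := mem_hull3.1 (interior_subset hz)
  set ε : ℝ := min α (min β γ) with hε
  have hε0 : 0 < ε := lt_min hα (lt_min hβ hγ)
  have e1 : ε ≤ α := min_le_left _ _
  have e2 : ε ≤ β := (min_le_right _ _).trans (min_le_left _ _)
  have e3 : ε ≤ γ := (min_le_right _ _).trans (min_le_right _ _)
  have hy : (1 + ε) • d - ε • z ∈ convexHull ℝ ({a, b, c} : Set Plane) := by
    refine mem_hull3.2 ⟨(1 + ε) * α - ε * x1, (1 + ε) * β - ε * x2, (1 + ε) * γ - ε * x3,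
      by nlinarith, by nlinarith, by nlinarith, ?_, ?_⟩
    · calc (1 + ε) * α - ε * x1 + ((1 + ε) * β - ε * x2) + ((1 + ε) * γ - ε * x3)
          = (1 + ε) * (α + β + γ) - ε * (x1 + x2 + x3) := by ring
        _ = 1 := by rw [hs, h4]; ring
    · rw [hd, ← hz']
      simp only [sub_smul, mul_smul, smul_add]
      abel
  have hd2 : d = (ε / (1 + ε)) • z + (1 / (1 + ε)) • ((1 + ε) • d - ε • z) := by
    rw [smul_sub, smul_smul, smul_smul]
    have : 1 / (1 + ε) * (1 + ε) = 1 := by field_simp
    rw [this, one_smul]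
    have : 1 / (1 + ε) * ε = ε / (1 + ε) := by ring
    rw [this]
    abel
  rw [hd2]
  apply (convex_convexHull ℝ _).combo_interior_self_mem_interior hz hy (by positivity)
    (by positivity)
  field_simp
  ring

/-- A vertex of a triangle `τ` cannot be an interior point of the union of other triangles whose
interiors are disjoint from that of `τ`. -/
theorem cover_contra {F : Finset (Finset Plane)} {τ : Finset Plane} {b : Plane} (hb : b ∈ τ)
    (hdisj : ∀ t ∈ F, Disjoint (interior (region τ)) (interior (region t)))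
    (hnd : (interior (region τ)).Nonempty) {U : Set Plane} (hU : IsOpen U) (hbU : b ∈ U)
    (hcov : ∀ x ∈ U, ∃ t ∈ F, x ∈ region t) : False := by
  have hbr : b ∈ region τ := subset_convexHull ℝ _ (by exact_mod_cast hb)
  have hconv : Convex ℝ (region τ) := convex_convexHull ℝ _
  have hcl : b ∈ closure (interior (region τ)) := by
    rw [hconv.closure_interior_eq_closure_of_nonempty_interior hnd]
    exact subset_closure hbr
  have hne : (U ∩ interior (region τ)).Nonempty := mem_closure_iff.1 hcl U hU hbU
  have hopen : IsOpen (U ∩ interior (region τ)) := hU.inter isOpen_interior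
  have hpos : 0 < volume (U ∩ interior (region τ)) := hopen.measure_pos volume hne
  have hsub : U ∩ interior (region τ) ⊆ ⋃ t ∈ F, frontier (region t) := by
    rintro x ⟨hxU, hxi⟩
    obtain ⟨t, ht, hxt⟩ := hcov x hxU
    refine Set.mem_iUnion₂.2 ⟨t, ht, subset_closure hxt, ?_⟩
    intro hxi2
    exact Set.disjoint_left.1 (hdisj t ht) hxi hxi2
  have hzero : volume (⋃ t ∈ F, frontier (region t)) = 0 := by
    refine (measure_biUnion_null_iff (F.countable_toSet)).2 ?_
    intro t _
    exact (convex_convexHull ℝ _).addHaar_frontier volume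
  have := measure_mono hsub (μ := volume)
  rw [hzero] at this
  exact absurd (le_antisymm this bot_le) hpos.ne'

end Pool.Agent.Lib.MP_17cbde_lc
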