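import Mathlib

namespace Pool.Agent.Lib.MP_17cbde_lc

/-- A finite connected graph in which every vertex has at most two neighbours has a
Hamiltonian path. -/
theorem exists_ham_list {α : Type*} [Fintype α] [DecidableEq α] (G : SimpleGraph α)
    (hc : G.Connected)
    (hd : ∀ (v : α) (s : Finset α), (∀ w ∈ s, G.Adj v w) → s.card ≤ 2) :
    ∃ l : List α, l.Nodup ∧ l.IsChain G.Adj ∧ ∀ x, x ∈ l := by
  classical
  -- a longest chain
  let P : ℕ → Prop := fun k => ∃ l : List α, l.Nodup ∧ l.IsChain G.Adj ∧ l.length = k
  have hP0 : P 0 := ⟨[], by simp, by simp, rfl⟩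
  have hbound : ∀ k, P k → k ≤ Fintype.card α := by
    rintro k ⟨l, hn, -, rfl⟩
    exact hn.length_le_card
  obtain ⟨l, hn, hch, hlen⟩ : P (Nat.findGreatest P (Fintype.card α)) :=
    Nat.findGreatest_spec (Nat.zero_le _) hP0
  have hmax : ∀ l' : List α, l'.Nodup → l'.IsChain G.Adj → l'.length ≤ l.length := by
    intro l' hn' hch'
    rw [hlen]
    exact Nat.le_findGreatest (hbound _ ⟨l', hn', hch', rfl⟩) ⟨l', hn', hch', rfl⟩
  refine ⟨l, hn, hch, ?_⟩
  by_contra hcon
  push Not at hcon
  obtain ⟨y, hy⟩ := hcon
  -- l is nonempty
  have hne : l ≠ [] := by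
    rintro rfl
    have := hmax [y] (by simp) (by simp)
    simp at this
  obtain ⟨x0, hx0⟩ := List.exists_mem_of_ne_nil l hne
  obtain ⟨p⟩ := hc.preconnected x0 y
  obtain ⟨d, -, hd1, hd2⟩ := p.exists_boundary_dart {z | z ∈ l} hx0 hy
  have hadj : G.Adj d.fst d.snd := d.adj
  set x := d.fst with hx
  set z := d.snd with hz
  have hxl : x ∈ l := hd1
  have hzl : z ∉ l := hd2
  obtain ⟨l1, l2, rfl⟩ := List.append_of_mem hxl
  rcases l1.eq_nil_or_concat with rfl | ⟨l1', a, rfl⟩
  · have h1 := hmax (z :: x :: l2) (by simpa using ⟨by simpa using hzl, by simpa using hn⟩)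
      (by
        simp only [List.nil_append] at hch
        rw [List.isChain_cons_cons]
        exact ⟨hadj.symm, hch⟩)
    simp at h1
  · rcases l2 with _ | ⟨b, l2'⟩
    · have h1 := hmax ((l1'.concat a ++ [x]) ++ [z])
        (by
          rw [List.nodup_append]
          refine ⟨hn, by simp, ?_⟩
          intro u hu v hv huv
          simp only [List.mem_singleton] at hv
          subst hv
          subst huv
          exact hzl hu)
        (by
          rw [List.isChain_append]
          refine ⟨hch, by simp, ?_⟩
          intro u hu v hv
          simp at hu hv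
          subst hu; subst hv
          exact hadj)
      simp at h1
    · have hc1 : G.Adj a x := by
        rw [List.isChain_append] at hch
        exact hch.2.2 a (by simp) x (by simp)
      have hc2 : G.Adj x b := by
        rw [List.isChain_append] at hch
        have := hch.2.1
        rw [List.isChain_cons_cons] at this
        exact this.1
      have hab : a ≠ b := by
        rintro rfl
        rw [List.nodup_append] at hn
        exact hn.2.2 a (by simp) a (by simp) rfl
      have hza : z ≠ a := by
        rintro rfl
        apply hzl; simp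
      have hzb : z ≠ b := by
        rintro rfl
        apply hzl; simp
      have := hd x {z, a, b} (by
        intro w hw
        simp only [Finset.mem_insert, Finset.mem_singleton] at hw
        rcases hw with rfl | rfl | rfl
        · exact hadj
        · exact hc1.symm
        · exact hc2)
      rw [Finset.card_insert_of_notMem (by simp [hza, hzb]), Finset.card_pair hab] at this
      omega

end Pool.Agent.Lib.MP_17cbde_lc
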