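import Mathlib
import Pool.Agent.Lib.MP_17cbde_lc.Defs
import Pool.Agent.Lib.MP_17cbde_lc.GraphLemma

namespace Pool.Agent.Lib.MP_17cbde_lc

open Classical

theorem mem_sides {P : Type*} {t : Finset P} {a b : P} :
    s(a, b) ∈ sides t ↔ a ∈ t ∧ b ∈ t ∧ a ≠ b := by
  simp [sides, and_assoc]

/-- the abstract combinatorial data -/
structure CombData (P ι : Type*) [DecidableEq P] [DecidableEq ι] where
  V : Finset ι
  q : ι → Bool → P
  own : P → ι
  Adj : ι → ι → Prop
  T : Finset (Finset P)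
  hn : 1 ≤ V.card
  own_q : ∀ v ∈ V, ∀ s, own (q v s) = v
  q_ne : ∀ v ∈ V, q v false ≠ q v true
  symm : ∀ v w, Adj v w → Adj w v
  noTri : ∀ u v w, Adj u v → Adj v w → Adj u w → False
  vert : ∀ t ∈ T, ∀ p ∈ t, ∃ v ∈ V, ∃ s, p = q v s
  card3 : ∀ t ∈ T, t.card = 3
  Ecard : (T.biUnion sides).card + 3 = 4 * V.card
  Tcard : T.card + 2 = 2 * V.card
  mult : ∀ e, (T.filter fun t => e ∈ sides t).card ≤ 2
  pair : ∀ v ∈ V, s(q v false, q v true) ∈ T.biUnion sides
  link : ∀ p p', s(p, p') ∈ T.biUnion sides → own p ≠ own p' → Adj (own p) (own p')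
  geo : ∀ v ∈ V, ∀ w ∈ V, Adj v w →
    (∃ s : Bool, ({q v false, q v true, q w (!s)} : Finset P) ∉ T ∧
      ¬ (({q v false, q v true, q w s} : Finset P) ∈ T ∧
        ({q w false, q w true, q v false} : Finset P) ∈ T ∧
        ({q w false, q w true, q v true} : Finset P) ∈ T)) ∨
    (∃ s : Bool, ({q w false, q w true, q v (!s)} : Finset P) ∉ T ∧
      ¬ (({q w false, q w true, q v s} : Finset P) ∈ T ∧
        ({q v false, q v true, q w false} : Finset P) ∈ T ∧
        ({q v false, q v true, q w true} : Finset P) ∈ T))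
  conn : ∀ v ∈ V, ∀ w ∈ V, Relation.ReflTransGen
    (fun v w => v ≠ w ∧ ∃ p p', s(p, p') ∈ T.biUnion sides ∧ own p = v ∧ own p' = w) v w

namespace CombData

variable {P ι : Type*} [DecidableEq P] [DecidableEq ι] (D : CombData P ι)

/-- the triangle with base `v` and apex `(w,s)` -/
noncomputable def tri (v w : ι) (s : Bool) : Finset P := {D.q v false, D.q v true, D.q w s}

theorem q_inj {v w : ι} {s s' : Bool} (hv : v ∈ D.V) (hw : w ∈ D.V)
    (h : D.q v s = D.q w s') : v = w ∧ s = s' := by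
  have h1 : v = w := by
    rw [← D.own_q v hv s, h, D.own_q w hw s']
  subst h1
  refine ⟨rfl, ?_⟩
  have := D.q_ne v hv
  cases s <;> cases s' <;> simp_all

/-- structure of the triangles -/
theorem exists_tri {t : Finset P} (ht : t ∈ D.T) :
    ∃ v ∈ D.V, ∃ w ∈ D.V, ∃ s, v ≠ w ∧ D.Adj v w ∧ t = D.tri v w s := by
  obtain ⟨a, b, c, hab, hac, hbc, rfl⟩ := Finset.card_eq_three.1 (D.card3 t ht)
  obtain ⟨va, hva, sa, rfl⟩ := D.vert _ ht a (by simp)
  obtain ⟨vb, hvb, sb, rfl⟩ := D.vert _ ht b (by simp)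
  obtain ⟨vc, hvc, sc, rfl⟩ := D.vert _ ht c (by simp)
  have eab : s(D.q va sa, D.q vb sb) ∈ D.T.biUnion sides :=
    Finset.mem_biUnion.2 ⟨_, ht, mem_sides.2 ⟨by simp, by simp, hab⟩⟩
  have eac : s(D.q va sa, D.q vc sc) ∈ D.T.biUnion sides :=
    Finset.mem_biUnion.2 ⟨_, ht, mem_sides.2 ⟨by simp, by simp, hac⟩⟩
  have ebc : s(D.q vb sb, D.q vc sc) ∈ D.T.biUnion sides :=
    Finset.mem_biUnion.2 ⟨_, ht, mem_sides.2 ⟨by simp, by simp, hbc⟩⟩
  have lab := D.link _ _ eab
  have lac := D.link _ _ eac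
  have lbc := D.link _ _ ebc
  rw [D.own_q va hva, D.own_q vb hvb] at lab
  rw [D.own_q va hva, D.own_q vc hvc] at lac
  rw [D.own_q vb hvb, D.own_q vc hvc] at lbc
  by_cases h1 : va = vb
  · subst h1
    have hs : sa ≠ sb := fun h => hab (by rw [h])
    by_cases h2 : va = vc
    · subst h2
      have hs2 : sa ≠ sc := fun h => hac (by rw [h])
      have hs3 : sb ≠ sc := fun h => hbc (by rw [h])
      cases sa <;> cases sb <;> cases sc <;> simp_all
    · refine ⟨va, hva, vc, hvc, sc, h2, lac h2, ?_⟩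
      cases sa <;> cases sb <;> simp_all [tri, Finset.insert_comm]
  · by_cases h2 : va = vc
    · subst h2
      have hs : sa ≠ sc := fun h => hac (by rw [h])
      refine ⟨va, hva, vb, hvb, sb, h1, lab h1, ?_⟩
      cases sa <;> cases sc <;> simp_all [tri]
      · ext x; simp; tauto
      · ext x; simp; tauto
    · by_cases h3 : vb = vc
      · subst h3
        have hs : sb ≠ sc := fun h => hbc (by rw [h])
        refine ⟨vb, hvb, va, hva, sa, Ne.symm h1, D.symm _ _ (lab h1), ?_⟩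
        cases sb <;> cases sc <;> simp_all [tri]
        · ext x; simp; tauto
        · ext x; simp; tauto
      · exact (D.noTri _ _ _ (lab h1) (lbc h3) (lac h2)).elim

theorem tri_image {v w : ι} {s : Bool} (hv : v ∈ D.V) (hw : w ∈ D.V) :
    (D.tri v w s).image D.own = {v, w} := by
  simp [tri, Finset.image_insert, D.own_q v hv, D.own_q w hw]


/-- the set of edges with owners `ℓ` -/
noncomputable def El (ℓ : Finset ι) : Finset (Sym2 P) :=
  (D.T.biUnion sides).filter fun e => e.toFinset.image D.own = ℓ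

noncomputable def Tl (ℓ : Finset ι) : Finset (Finset P) :=
  D.T.filter fun t => t.image D.own = ℓ

noncomputable def keys : Finset (Finset ι) := D.T.image fun t => t.image D.own

theorem sides_tri_mem {v w : ι} {s : Bool} (hv : v ∈ D.V) (hw : w ∈ D.V) (hvw : v ≠ w)
    (ht : D.tri v w s ∈ D.T) (i : Bool) : s(D.q v i, D.q w s) ∈ D.El {v, w} := by
  have hne : D.q v i ≠ D.q w s := fun h => hvw (D.q_inj hv hw h).1
  refine Finset.mem_filter.2 ⟨Finset.mem_biUnion.2 ⟨_, ht, mem_sides.2 ⟨?_, ?_, hne⟩⟩, ?_⟩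
  · cases i <;> simp [tri]
  · simp [tri]
  · rw [Sym2.toFinset_mk_eq]
    simp [Finset.image_insert, D.own_q v hv, D.own_q w hw]


theorem Lmap_inj {v w : ι} (hv : v ∈ D.V) (hw : w ∈ D.V) (hvw : v ≠ w) :
    Function.Injective (fun x : Bool × Bool => s(D.q v x.1, D.q w x.2)) := by
  rintro ⟨i, j⟩ ⟨i', j'⟩ h
  simp only [Sym2.eq_iff] at h
  rcases h with ⟨h1, h2⟩ | ⟨h1, h2⟩
  · have := (D.q_inj hv hv h1).2
    have := (D.q_inj hw hw h2).2
    simp_all
  · exact absurd (D.q_inj hv hw h1).1 hvw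

/-- members of `Tl {v,w}` -/
theorem mem_Tl {v w : ι} (hvw : v ≠ w) {t : Finset P}
    (ht : t ∈ D.Tl {v, w}) : ∃ s, t = D.tri v w s ∨ t = D.tri w v s := by
  obtain ⟨ht1, ht2⟩ := Finset.mem_filter.1 ht
  obtain ⟨v', hv', w', hw', s, hne, -, rfl⟩ := D.exists_tri ht1
  rw [D.tri_image hv' hw'] at ht2
  refine ⟨s, ?_⟩
  have h1 : v' ∈ ({v, w} : Finset ι) := by rw [← ht2]; simp
  have h2 : w' ∈ ({v, w} : Finset ι) := by rw [← ht2]; simp
  simp only [Finset.mem_insert, Finset.mem_singleton] at h1 h2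
  rcases h1 with rfl | rfl <;> rcases h2 with rfl | rfl
  · exact absurd rfl hne
  · left; rfl
  · right; rfl
  · exact absurd rfl hne

theorem card_El_ge {v w : ι} (hv : v ∈ D.V) (hw : w ∈ D.V) (hvw : v ≠ w) :
    (Finset.univ.filter fun x : Bool × Bool =>
      D.tri v w x.2 ∈ D.T ∨ D.tri w v x.1 ∈ D.T).card ≤ (D.El {v, w}).card := by
  rw [← Finset.card_image_of_injective _ (D.Lmap_inj hv hw hvw)]
  apply Finset.card_le_card
  intro e he
  obtain ⟨⟨i, j⟩, hx, rfl⟩ := Finset.mem_image.1 he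
  obtain ⟨-, hx⟩ := Finset.mem_filter.1 hx
  rcases hx with hx | hx
  · exact D.sides_tri_mem hv hw hvw hx i
  · have := D.sides_tri_mem hw hv hvw.symm hx j
    rw [Finset.pair_comm v w, Sym2.eq_swap]
    exact this

theorem card_Tl_le {v w : ι} (hvw : v ≠ w) :
    (D.Tl {v, w}).card ≤ ((Finset.univ : Finset Bool).filter fun s => D.tri v w s ∈ D.T).card
      + ((Finset.univ : Finset Bool).filter fun s => D.tri w v s ∈ D.T).card := by
  have : D.Tl {v, w} ⊆
      ((Finset.univ : Finset Bool).filter fun s => D.tri v w s ∈ D.T).image (D.tri v w) ∪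
      ((Finset.univ : Finset Bool).filter fun s => D.tri w v s ∈ D.T).image (D.tri w v) := by
    intro t ht
    have htT : t ∈ D.T := (Finset.mem_filter.1 ht).1
    obtain ⟨s, rfl | rfl⟩ := D.mem_Tl hvw ht
    · apply Finset.mem_union_left
      exact Finset.mem_image_of_mem _ (by simpa using htT)
    · apply Finset.mem_union_right
      exact Finset.mem_image_of_mem _ (by simpa using htT)
  exact (Finset.card_le_card this).trans ((Finset.card_union_le _ _).trans
    (Nat.add_le_add Finset.card_image_le Finset.card_image_le))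

theorem bool_count_aux : ∀ α β : Bool → Bool,
    ((Finset.univ : Finset Bool).filter fun s => α s = true).card +
      ((Finset.univ : Finset Bool).filter fun s => β s = true).card ≤ 0 ∨
    min 2 (((Finset.univ : Finset Bool).filter fun s => α s = true).card +
      ((Finset.univ : Finset Bool).filter fun s => β s = true).card) + 1 ≤
    (Finset.univ.filter fun x : Bool × Bool => α x.2 = true ∨ β x.1 = true).card := by
  decide

theorem bool_count (a b : Bool → Prop) [DecidablePred a] [DecidablePred b] :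
    ((Finset.univ : Finset Bool).filter a).card + ((Finset.univ : Finset Bool).filter b).card ≤ 0 ∨
    min 2 (((Finset.univ : Finset Bool).filter a).card +
      ((Finset.univ : Finset Bool).filter b).card) + 1 ≤
    (Finset.univ.filter fun x : Bool × Bool => a x.2 ∨ b x.1).card := by
  have h := bool_count_aux (fun s => decide (a s)) (fun s => decide (b s))
  simpa only [decide_eq_true_eq] using h


theorem keys_form {ℓ : Finset ι} (hℓ : ℓ ∈ D.keys) :
    ∃ v ∈ D.V, ∃ w ∈ D.V, ∃ s, v ≠ w ∧ D.Adj v w ∧ ℓ = {v, w} ∧ D.tri v w s ∈ D.T := by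
  obtain ⟨t, ht, rfl⟩ := Finset.mem_image.1 hℓ
  obtain ⟨v, hv, w, hw, s, hne, hadj, rfl⟩ := D.exists_tri ht
  exact ⟨v, hv, w, hw, s, hne, hadj, D.tri_image hv hw, ht⟩

theorem bool_count2 (a b : Bool → Prop) [DecidablePred a] [DecidablePred b] (s : Bool)
    (h1 : ¬ a (!s)) (h2 : ¬ (a s ∧ b false ∧ b true)) :
    ((Finset.univ : Finset Bool).filter a).card +
      ((Finset.univ : Finset Bool).filter b).card ≤ 2 := by
  have key : ∀ (α β : Bool → Bool) (s : Bool), ¬ (α (!s) = true) →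
      ¬ (α s = true ∧ β false = true ∧ β true = true) →
      ((Finset.univ : Finset Bool).filter fun s => α s = true).card +
      ((Finset.univ : Finset Bool).filter fun s => β s = true).card ≤ 2 := by decide
  have h := key (fun s => decide (a s)) (fun s => decide (b s)) s (by simpa using h1)
    (by simpa using h2)
  simpa only [decide_eq_true_eq] using h

theorem local_le {ℓ : Finset ι} (hℓ : ℓ ∈ D.keys) :
    (D.Tl ℓ).card ≤ 2 ∧ (D.Tl ℓ).card + 1 ≤ (D.El ℓ).card := by
  obtain ⟨v, hv, w, hw, s, hne, hadj, rfl, hs⟩ := D.keys_form hℓ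
  have hgeo : (D.Tl {v, w}).card ≤ 2 := by
    refine (D.card_Tl_le (v := v) (w := w) hne).trans ?_
    rcases D.geo v hv w hw hadj with ⟨s, h1, h2⟩ | ⟨s, h1, h2⟩
    · exact bool_count2 (fun s => D.tri v w s ∈ D.T) (fun s => D.tri w v s ∈ D.T) s h1 h2
    · rw [add_comm]
      exact bool_count2 (fun s => D.tri w v s ∈ D.T) (fun s => D.tri v w s ∈ D.T) s h1 h2
  refine ⟨hgeo, ?_⟩
  have h1 := D.card_El_ge hv hw hne
  have h2 := D.card_Tl_le (v := v) (w := w) hne
  have h3 := bool_count (fun s => D.tri v w s ∈ D.T) (fun s => D.tri w v s ∈ D.T)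
  beta_reduce at h3
  have h4 : 1 ≤ ((Finset.univ : Finset Bool).filter fun s => D.tri v w s ∈ D.T).card :=
    Finset.card_pos.2 ⟨s, by simpa using hs⟩
  rcases h3 with h3 | h3
  · omega
  · omega

theorem sum_Tl : ∑ ℓ ∈ D.keys, (D.Tl ℓ).card = D.T.card := by
  rw [Finset.card_eq_sum_card_image (fun t => t.image D.own) D.T]
  rfl

theorem sum_El : ∑ ℓ ∈ D.keys, (D.El ℓ).card + D.V.card ≤ (D.T.biUnion sides).card := by
  have h1 : (D.V.image fun v => s(D.q v false, D.q v true)).card = D.V.card := by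
    apply Finset.card_image_of_injOn
    intro v hv w hw h
    simp only [Sym2.eq_iff] at h
    rcases h with ⟨h1, -⟩ | ⟨h1, -⟩
    · exact (D.q_inj hv hw h1).1
    · exact (D.q_inj hv hw h1).1
  have h2 : (D.keys.biUnion D.El).card = ∑ ℓ ∈ D.keys, (D.El ℓ).card := by
    apply Finset.card_biUnion
    intro ℓ _ ℓ' _ hne
    rw [Function.onFun, Finset.disjoint_left]
    intro e he he'
    apply hne
    rw [← (Finset.mem_filter.1 he).2, ← (Finset.mem_filter.1 he').2]
  rw [← h1, ← h2, ← Finset.card_union_of_disjoint]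
  · apply Finset.card_le_card
    intro e he
    rcases Finset.mem_union.1 he with he | he
    · obtain ⟨ℓ, -, he⟩ := Finset.mem_biUnion.1 he
      exact (Finset.mem_filter.1 he).1
    · obtain ⟨v, hv, rfl⟩ := Finset.mem_image.1 he
      exact D.pair v hv
  · rw [Finset.disjoint_left]
    intro e he he'
    obtain ⟨ℓ, hℓ, he⟩ := Finset.mem_biUnion.1 he
    obtain ⟨u, hu, rfl⟩ := Finset.mem_image.1 he'
    obtain ⟨v, hv, w, hw, s, hne, -, rfl, -⟩ := D.keys_form hℓ
    have := (Finset.mem_filter.1 he).2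
    rw [Sym2.toFinset_mk_eq] at this
    simp only [Finset.image_insert, Finset.image_singleton, D.own_q u hu] at this
    have h3 : ({u, u} : Finset ι).card = ({v, w} : Finset ι).card := by rw [this]
    rw [Finset.card_pair hne] at h3
    simp at h3

theorem counts {ℓ : Finset ι} (hℓ : ℓ ∈ D.keys) : (D.Tl ℓ).card = 2 ∧ (D.El ℓ).card = 3 := by
  have h1 := D.sum_Tl
  have h2 := D.sum_El
  have h3 := D.Ecard
  have h4 := D.Tcard
  have h5 : ∑ ℓ ∈ D.keys, (D.Tl ℓ).card ≤ ∑ ℓ ∈ D.keys, 2 :=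
    Finset.sum_le_sum fun ℓ hℓ => (D.local_le hℓ).1
  have h6 : ∑ ℓ ∈ D.keys, ((D.Tl ℓ).card + 1) ≤ ∑ ℓ ∈ D.keys, (D.El ℓ).card :=
    Finset.sum_le_sum fun ℓ hℓ => (D.local_le hℓ).2
  have h5' := h5
  have h6' := h6
  rw [Finset.sum_add_distrib] at h6'
  simp only [Finset.sum_const, smul_eq_mul, mul_one] at h5' h6'
  have e1 : ∑ ℓ ∈ D.keys, (D.Tl ℓ).card = ∑ ℓ ∈ D.keys, 2 := by
    simp only [Finset.sum_const, smul_eq_mul]
    omega
  have e2 : ∑ ℓ ∈ D.keys, ((D.Tl ℓ).card + 1) = ∑ ℓ ∈ D.keys, (D.El ℓ).card := by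
    rw [Finset.sum_add_distrib]
    simp only [Finset.sum_const, smul_eq_mul, mul_one]
    omega
  have f1 := (Finset.sum_eq_sum_iff_of_le fun ℓ hℓ => (D.local_le hℓ).1).1 e1 ℓ hℓ
  have f2 := (Finset.sum_eq_sum_iff_of_le fun ℓ hℓ => (D.local_le hℓ).2).1 e2 ℓ hℓ
  omega


theorem two_sided {v w : ι} (hv : v ∈ D.V) (hw : w ∈ D.V) (hvw : v ≠ w)
    (hk : {v, w} ∈ D.keys) : ∃ s, D.tri v w s ∈ D.T := by
  by_contra hcon
  push Not at hcon
  obtain ⟨h1, h2⟩ := D.counts hk
  have h3 := D.card_Tl_le (v := v) (w := w) hvw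
  have h4 : ((Finset.univ : Finset Bool).filter fun s => D.tri v w s ∈ D.T).card = 0 := by
    rw [Finset.card_eq_zero, Finset.filter_eq_empty_iff]
    intro s _
    exact hcon s
  have h5 : (Finset.univ : Finset Bool).card ≤
      ((Finset.univ : Finset Bool).filter fun s => D.tri w v s ∈ D.T).card := by
    simp only [Finset.card_univ, Fintype.card_bool]
    omega
  have h6 := Finset.eq_of_subset_of_card_le (Finset.filter_subset _ _) h5
  have h7 : ∀ s, D.tri w v s ∈ D.T := by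
    intro s
    have : s ∈ ((Finset.univ : Finset Bool).filter fun s => D.tri w v s ∈ D.T) := by
      rw [h6]; simp
    exact (Finset.mem_filter.1 this).2
  have h8 := D.card_El_ge hv hw hvw
  have h9 : (Finset.univ.filter fun x : Bool × Bool =>
      D.tri v w x.2 ∈ D.T ∨ D.tri w v x.1 ∈ D.T) = Finset.univ := by
    apply Finset.filter_true_of_mem
    intro x _
    right
    exact h7 _
  rw [h9] at h8
  simp at h8
  omega

theorem deg_le {v : ι} (hv : v ∈ D.V) (A : Finset ι)
    (hA : ∀ w ∈ A, w ∈ D.V ∧ v ≠ w ∧ {v, w} ∈ D.keys) : A.card ≤ 2 := by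
  have hch : ∀ w : ι, ∃ s, w ∈ A → D.tri v w s ∈ D.T := by
    intro w
    by_cases hw : w ∈ A
    · obtain ⟨h1, h2, h3⟩ := hA w hw
      obtain ⟨s, hs⟩ := D.two_sided hv h1 h2 h3
      exact ⟨s, fun _ => hs⟩
    · exact ⟨false, fun h => absurd h hw⟩
  choose g hg using hch
  refine le_trans ?_ (D.mult s(D.q v false, D.q v true))
  rw [← Finset.card_image_of_injOn (s := A) (f := fun w => D.tri v w (g w))]
  · apply Finset.card_le_card
    intro t ht
    obtain ⟨w, hw, rfl⟩ := Finset.mem_image.1 ht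
    refine Finset.mem_filter.2 ⟨hg w hw, mem_sides.2 ⟨by simp [tri], by simp [tri], D.q_ne v hv⟩⟩
  · intro w hw w' hw' h
    obtain ⟨h1, h2, -⟩ := hA w hw
    obtain ⟨h1', h2', -⟩ := hA w' hw'
    have h3 : (D.tri v w (g w)).image D.own = (D.tri v w' (g w')).image D.own := by
      rw [show D.tri v w (g w) = D.tri v w' (g w') from h]
    rw [D.tri_image hv h1, D.tri_image hv h1'] at h3
    have h4 : w ∈ ({v, w'} : Finset ι) := by rw [← h3]; simp
    simp only [Finset.mem_insert, Finset.mem_singleton] at h4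
    rcases h4 with h4 | h4
    · exact absurd h4.symm h2
    · exact h4

theorem key_of_edge {p p' : P} (h : s(p, p') ∈ D.T.biUnion sides) (hne : D.own p ≠ D.own p') :
    {D.own p, D.own p'} ∈ D.keys ∧ D.own p ∈ D.V ∧ D.own p' ∈ D.V := by
  obtain ⟨t, ht, he⟩ := Finset.mem_biUnion.1 h
  obtain ⟨h1, h2, -⟩ := mem_sides.1 he
  obtain ⟨v, hv, w, hw, s, hvw, -, rfl⟩ := D.exists_tri ht
  have i1 : D.own p ∈ ({v, w} : Finset ι) := by
    rw [← D.tri_image hv hw (s := s)]; exact Finset.mem_image_of_mem _ h1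
  have i2 : D.own p' ∈ ({v, w} : Finset ι) := by
    rw [← D.tri_image hv hw (s := s)]; exact Finset.mem_image_of_mem _ h2
  have hk : ({v, w} : Finset ι) ∈ D.keys :=
    Finset.mem_image.2 ⟨_, ht, D.tri_image hv hw⟩
  simp only [Finset.mem_insert, Finset.mem_singleton] at i1 i2
  rcases i1 with i1 | i1 <;> rcases i2 with i2 | i2
  · exact absurd (i1.trans i2.symm) hne
  · rw [i1, i2]; exact ⟨hk, hv, hw⟩
  · rw [i1, i2, Finset.pair_comm]; exact ⟨hk, hw, hv⟩
  · exact absurd (i1.trans i2.symm) hne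

/-- the graph on the owners -/
def H : SimpleGraph {x // x ∈ D.V} where
  Adj a b := a ≠ b ∧ ({a.1, b.1} : Finset ι) ∈ D.keys
  symm := ⟨fun a b h => ⟨h.1.symm, by rw [Finset.pair_comm]; exact h.2⟩⟩
  loopless := ⟨fun a h => h.1 rfl⟩

theorem H_connected : D.H.Connected := by
  have hne : Nonempty {x // x ∈ D.V} := by
    obtain ⟨x, hx⟩ := Finset.card_pos.1 (by have := D.hn; omega : 0 < D.V.card)
    exact ⟨⟨x, hx⟩⟩
  have key : ∀ v w, Relation.ReflTransGen
      (fun v w => v ≠ w ∧ ∃ p p', s(p, p') ∈ D.T.biUnion sides ∧ D.own p = v ∧ D.own p' = w) v w →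
      ∀ hv : v ∈ D.V, ∃ hw : w ∈ D.V, D.H.Reachable ⟨v, hv⟩ ⟨w, hw⟩ := by
    intro v w h hv
    induction h with
    | refl => exact ⟨hv, SimpleGraph.Reachable.refl _⟩
    | tail _ h2 ih =>
      obtain ⟨hb, hr⟩ := ih
      obtain ⟨hne, p, p', he, rfl, rfl⟩ := h2
      obtain ⟨k1, k2, k3⟩ := D.key_of_edge he hne
      refine ⟨k3, hr.trans (SimpleGraph.Adj.reachable ⟨?_, k1⟩)⟩
      intro h
      exact hne (congrArg Subtype.val h)
  refine { preconnected := ?_, nonempty := hne }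
  rintro ⟨v, hv⟩ ⟨w, hw⟩
  obtain ⟨_, hreach⟩ := key v w (D.conn v hv w hw) hv
  exact hreach

theorem exists_ham : ∃ l : List ι, l.Nodup ∧ (∀ x, x ∈ l ↔ x ∈ D.V) ∧ l.IsChain D.Adj := by
  obtain ⟨l, h1, h2, h3⟩ := exists_ham_list D.H D.H_connected (by
    rintro ⟨v, hv⟩ s hs
    rw [← Finset.card_map (Function.Embedding.subtype _)]
    apply D.deg_le hv
    intro w hw
    obtain ⟨w', hw', rfl⟩ := Finset.mem_map.1 hw
    obtain ⟨k1, k2⟩ := hs w' hw'
    exact ⟨w'.2, fun h => k1 (Subtype.ext h), k2⟩)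
  refine ⟨l.map Subtype.val, h1.map Subtype.val_injective, ?_, ?_⟩
  · intro x
    constructor
    · intro hx
      obtain ⟨y, -, rfl⟩ := List.mem_map.1 hx
      exact y.2
    · intro hx
      exact List.mem_map.2 ⟨⟨x, hx⟩, h3 _, rfl⟩
  · rw [List.isChain_map]
    refine h2.imp ?_
    rintro ⟨a, ha⟩ ⟨b, hb⟩ ⟨hab, hk⟩
    obtain ⟨v, hv, w, hw, s, hne, hadj, heq, -⟩ := D.keys_form hk
    have i1 : v ∈ ({a, b} : Finset ι) := by
      show v ∈ ({a, b} : Finset ι)
      have : ({a, b} : Finset ι) = {v, w} := heq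
      rw [this]; simp
    have i2 : w ∈ ({a, b} : Finset ι) := by
      have : ({a, b} : Finset ι) = {v, w} := heq
      rw [this]; simp
    simp only [Finset.mem_insert, Finset.mem_singleton] at i1 i2
    rcases i1 with rfl | rfl <;> rcases i2 with rfl | rfl
    · exact absurd rfl hne
    · exact hadj
    · exact D.symm _ _ hadj
    · exact absurd rfl hne

end CombData

end Pool.Agent.Lib.MP_17cbde_lc
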