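import Mathlib
import Pool.Agent.Lib.MP_17cbde_lc.Defs
import Pool.Agent.Lib.MP_17cbde_lc.Comb

namespace Pool.Agent.Lib.MP_17cbde_lc

open Classical

theorem length_polygonEdges (l : List Plane) : (polygonEdges l).length = l.length := by
  simp [polygonEdges]

theorem getElem_polygonEdges (l : List Plane) (i : ℕ) (h : i < (polygonEdges l).length) :
    (polygonEdges l)[i] = s(l[i]'(by simpa [length_polygonEdges] using h),
      l[(i + 1) % l.length]'(Nat.mod_lt _ (by
        have := h; simp [length_polygonEdges] at this; omega))) := by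
  simp [polygonEdges, List.getElem_zipWith, List.getElem_rotate]

theorem mem_polygonEdges {l : List Plane} {e : Sym2 Plane} :
    e ∈ polygonEdges l ↔ ∃ i, ∃ h : i < l.length,
      e = s(l[i], l[(i + 1) % l.length]'(Nat.mod_lt _ (by omega))) := by
  rw [List.mem_iff_getElem]
  constructor
  · rintro ⟨i, h, rfl⟩
    have h' : i < l.length := by simpa [length_polygonEdges] using h
    exact ⟨i, h', getElem_polygonEdges l i h⟩
  · rintro ⟨i, h, rfl⟩
    exact ⟨i, by simpa [length_polygonEdges] using h, getElem_polygonEdges l i _⟩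

theorem polygonEdges_ne {l : List Plane} (hl : 2 ≤ l.length) (hn : l.Nodup) {e : Sym2 Plane}
    (he : e ∈ polygonEdges l) : ∃ a b, a ∈ l ∧ b ∈ l ∧ a ≠ b ∧ e = s(a, b) := by
  obtain ⟨i, h, rfl⟩ := mem_polygonEdges.1 he
  refine ⟨_, _, List.getElem_mem _, List.getElem_mem _, ?_, rfl⟩
  intro heq
  have := (List.Nodup.getElem_inj_iff hn).1 heq
  by_cases h1 : i + 1 < l.length
  · rw [Nat.mod_eq_of_lt h1] at this; omega
  · have h2 : i + 1 = l.length := by omega
    rw [h2, Nat.mod_self] at this
    omega

theorem exists_polygonEdge {l : List Plane} {b : Plane} (hb : b ∈ l) :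
    ∃ z, s(b, z) ∈ polygonEdges l := by
  obtain ⟨i, h, rfl⟩ := List.mem_iff_getElem.1 hb
  exact ⟨_, mem_polygonEdges.2 ⟨i, h, rfl⟩⟩

theorem seg_mk (a b : Plane) : seg s(a, b) = segment ℝ a b := by
  have : ((s(a, b) : Sym2 Plane) : Set Plane) = {a, b} := by
    ext x; simp
  rw [seg, this, convexHull_pair]

theorem IsSimplePolygon.edges_nodup {l : List Plane} (h : IsSimplePolygon l) :
    (polygonEdges l).Nodup := by
  refine List.Pairwise.imp_of_mem ?_ h.simple
  rintro e f he hf hef rfl
  obtain ⟨a, b, ha, hb, hab, rfl⟩ := polygonEdges_ne (by have := h.three_le; omega) h.nodup he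
  have hm : midpoint ℝ a b ∈ seg s(a, b) := by rw [seg_mk]; exact midpoint_mem_segment a b
  obtain ⟨h1, -⟩ := hef _ ⟨hm, hm⟩
  rw [Sym2.mem_iff] at h1
  rcases h1 with h1 | h1
  · exact hab ((midpoint_eq_left_iff ℝ).1 h1)
  · exact hab ((midpoint_eq_right_iff ℝ).1 h1)

theorem card_sides {t : Finset Plane} (ht : t.card = 3) : (sides t).card = 3 := by
  obtain ⟨a, b, c, hab, hac, hbc, rfl⟩ := Finset.card_eq_three.1 ht
  have : sides {a, b, c} = {s(a, b), s(a, c), s(b, c)} := by
    ext e
    induction e using Sym2.ind with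
    | _ x y =>
      rw [mem_sides]
      simp only [Finset.mem_insert, Finset.mem_singleton, Sym2.eq_iff]
      constructor
      · rintro ⟨rfl | rfl | rfl, rfl | rfl | rfl, h⟩ <;> simp_all
      · rintro ((⟨rfl, rfl⟩ | ⟨rfl, rfl⟩) | (⟨rfl, rfl⟩ | ⟨rfl, rfl⟩) | (⟨rfl, rfl⟩ | ⟨rfl, rfl⟩)) <;>
          simp_all [Ne.symm]
  rw [this, Finset.card_insert_of_notMem, Finset.card_pair]
  · simp [Sym2.eq_iff]; tauto
  · simp [Sym2.eq_iff]; tauto

theorem IsTriangulation.count {l : List Plane} {T : Finset (Finset Plane)}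
    (hl : IsSimplePolygon l) (hT : IsTriangulation l T) :
    3 * T.card + l.length = 2 * (T.biUnion sides).card := by
  set E := T.biUnion sides with hE
  have h1 : ∑ t ∈ T, (sides t).card = ∑ e ∈ E, (T.filter fun t => e ∈ sides t).card := by
    have := Finset.sum_card_bipartiteAbove_eq_sum_card_bipartiteBelow (s := T) (t := E)
      (fun t e => e ∈ sides t)
    rw [show ∑ e ∈ E, (T.filter fun t => e ∈ sides t).card = _ from this.symm]
    apply Finset.sum_congr rfl
    intro t ht
    congr 1
    ext e
    simp only [Finset.mem_bipartiteAbove]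
    constructor
    · intro he
      exact ⟨Finset.mem_biUnion.2 ⟨t, ht, he⟩, he⟩
    · exact fun he => he.2
  have h2 : ∑ t ∈ T, (sides t).card = 3 * T.card := by
    rw [Finset.sum_congr rfl fun t ht => card_sides (hT.vertices t ht).2]
    simp [mul_comm]
  have hsub : (polygonEdges l).toFinset ⊆ E := by
    intro e he
    have h := hT.boundary e (List.mem_toFinset.1 he)
    obtain ⟨t, ht⟩ := Finset.card_pos.1 (by omega : 0 < (T.filter fun t => e ∈ sides t).card)
    obtain ⟨ht1, ht2⟩ := Finset.mem_filter.1 ht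
    exact Finset.mem_biUnion.2 ⟨t, ht1, ht2⟩
  have h3 : ∑ e ∈ E, (T.filter fun t => e ∈ sides t).card =
      ∑ e ∈ (polygonEdges l).toFinset, (T.filter fun t => e ∈ sides t).card +
      ∑ e ∈ E \ (polygonEdges l).toFinset, (T.filter fun t => e ∈ sides t).card := by
    rw [add_comm, Finset.sum_sdiff hsub]
  have h4 : ∑ e ∈ (polygonEdges l).toFinset, (T.filter fun t => e ∈ sides t).card = l.length := by
    rw [Finset.sum_congr rfl fun e he => hT.boundary e (List.mem_toFinset.1 he)]
    simp [List.toFinset_card_of_nodup hl.edges_nodup, length_polygonEdges]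
  have h5 : ∑ e ∈ E \ (polygonEdges l).toFinset, (T.filter fun t => e ∈ sides t).card =
      2 * (E \ (polygonEdges l).toFinset).card := by
    rw [Finset.sum_congr rfl (g := fun _ => 2)]
    · simp [mul_comm]
    · intro e he
      obtain ⟨he1, he2⟩ := Finset.mem_sdiff.1 he
      rcases hT.inner e (fun h => he2 (List.mem_toFinset.2 h)) with h | h
      · exfalso
        obtain ⟨t, ht, het⟩ := Finset.mem_biUnion.1 he1
        rw [Finset.card_eq_zero] at h
        have : t ∈ (∅ : Finset (Finset Plane)) := by
          rw [← h]; exact Finset.mem_filter.2 ⟨ht, het⟩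
        simp at this
      · exact h
  have h6 : (E \ (polygonEdges l).toFinset).card + l.length = E.card := by
    rw [Finset.card_sdiff_of_subset hsub, List.toFinset_card_of_nodup hl.edges_nodup,
      length_polygonEdges]
    have := Finset.card_le_card hsub
    rw [List.toFinset_card_of_nodup hl.edges_nodup, length_polygonEdges] at this
    omega
  omega

end Pool.Agent.Lib.MP_17cbde_lc
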