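import Mathlib
import Pool.Agent.Lib.MP_17cbde_lc.Geo
import Pool.Agent.Lib.MP_17cbde_lc.Poly

namespace Pool.Agent.Lib.MP_17cbde_lc

open Classical

theorem exists_triangle_of_vertex {l : List Plane} {T : Finset (Finset Plane)}
    (hT : IsTriangulation l T) {b : Plane} (hb : b ∈ l) :
    ∃ z, ∃ τ ∈ T, s(b, z) ∈ sides τ ∧ ∀ τ' ∈ T, s(b, z) ∈ sides τ' → τ' = τ := by
  obtain ⟨z, hz⟩ := exists_polygonEdge hb
  have h := hT.boundary _ hz
  rw [Finset.card_eq_one] at h
  obtain ⟨τ, hτ⟩ := h
  have h1 : τ ∈ T.filter fun t => s(b, z) ∈ sides t := by rw [hτ]; simp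
  obtain ⟨h2, h3⟩ := Finset.mem_filter.1 h1
  refine ⟨z, τ, h2, h3, ?_⟩
  intro τ' h4 h5
  have : τ' ∈ T.filter fun t => s(b, z) ∈ sides t := Finset.mem_filter.2 ⟨h4, h5⟩
  rw [hτ] at this
  simpa using this

theorem region_triple (a b c : Plane) :
    region ({a, b, c} : Finset Plane) = convexHull ℝ ({a, b, c} : Set Plane) := by
  simp [region]

theorem geo_far {l : List Plane} {T : Finset (Finset Plane)}
    (hT : IsTriangulation l T) {a a' b b' : Plane} (hb : b ∈ l)
    (hba : b ≠ a) (hba' : b ≠ a') (hbb' : b ≠ b')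
    {α β γ : ℝ} (hα : 0 < α) (hβ : 0 < β) (hγ : 0 < γ)
    (hs : α + β + γ = 1) (hd : b = α • a + β • a' + γ • b') :
    ({a, a', b'} : Finset Plane) ∉ T := by
  intro hmem
  obtain ⟨z, τ, hτ, he, -⟩ := exists_triangle_of_vertex hT hb
  have hbτ : b ∈ τ := (mem_sides.1 he).1
  have hne : τ ≠ {a, a', b'} := by
    rintro rfl
    simp [hba, hba', hbb'] at hbτ
  refine cover_contra (F := {({a, a', b'} : Finset Plane)}) hbτ ?_ (hT.nondegenerate τ hτ)
    (U := interior (region {a, a', b'})) isOpen_interior ?_ ?_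
  · intro t ht
    rw [Finset.mem_singleton] at ht
    subst ht
    exact hT.disjoint τ hτ _ hmem hne
  · have := hT.nondegenerate _ hmem
    rw [region_triple] at this ⊢
    exact pos_mem_interior this hα hβ hγ hs hd
  · intro x hx
    exact ⟨_, Finset.mem_singleton_self _, interior_subset hx⟩

theorem geo_near {l : List Plane} {T : Finset (Finset Plane)}
    (hT : IsTriangulation l T) {a a' b b' : Plane} (hb : b ∈ l)
    (haa' : a ≠ a') (hba : b ≠ a) (hba' : b ≠ a') (hbb' : b ≠ b')
    (hb'a : b' ≠ a) (hb'a' : b' ≠ a')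
    {α β γ : ℝ} (hα : 0 < α) (hβ : 0 < β) (hγ : 0 < γ)
    (hs : α + β + γ = 1) (hd : b = α • a + β • a' + γ • b')
    (h1 : ({a, a', b} : Finset Plane) ∈ T) (h2 : ({b, b', a} : Finset Plane) ∈ T)
    (h3 : ({b, b', a'} : Finset Plane) ∈ T) : False := by
  obtain ⟨z, τ, hτ, he, huniq⟩ := exists_triangle_of_vertex hT hb
  obtain ⟨hbτ, hzτ, hbz⟩ := mem_sides.1 he
  have h12 : ({a, a', b} : Finset Plane) ≠ {b, b', a} := by
    intro h
    have : a' ∈ ({b, b', a} : Finset Plane) := by rw [← h]; simp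
    simp [haa'.symm, hba'.symm, hb'a'.symm] at this
  have h13 : ({a, a', b} : Finset Plane) ≠ {b, b', a'} := by
    intro h
    have : a ∈ ({b, b', a'} : Finset Plane) := by rw [← h]; simp
    simp [haa', hba.symm, hb'a.symm] at this
  have h23 : ({b, b', a} : Finset Plane) ≠ {b, b', a'} := by
    intro h
    have : a ∈ ({b, b', a'} : Finset Plane) := by rw [← h]; simp
    simp [haa', hba.symm, hb'a.symm] at this
  have n1 : τ ≠ {a, a', b} := by
    rintro rfl
    simp only [Finset.mem_insert, Finset.mem_singleton] at hzτ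
    rcases hzτ with rfl | rfl | rfl
    · exact h12 (huniq _ h2 (mem_sides.2 ⟨by simp, by simp, hbz⟩)).symm
    · exact h13 (huniq _ h3 (mem_sides.2 ⟨by simp, by simp, hbz⟩)).symm
    · exact hbz rfl
  have n2 : τ ≠ {b, b', a} := by
    rintro rfl
    simp only [Finset.mem_insert, Finset.mem_singleton] at hzτ
    rcases hzτ with rfl | rfl | rfl
    · exact hbz rfl
    · exact h23 (huniq _ h3 (mem_sides.2 ⟨by simp, by simp, hbz⟩)).symm
    · exact h12 (huniq _ h1 (mem_sides.2 ⟨by simp, by simp, hbz⟩))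
  have n3 : τ ≠ {b, b', a'} := by
    rintro rfl
    simp only [Finset.mem_insert, Finset.mem_singleton] at hzτ
    rcases hzτ with rfl | rfl | rfl
    · exact hbz rfl
    · exact h23 (huniq _ h2 (mem_sides.2 ⟨by simp, by simp, hbz⟩))
    · exact h13 (huniq _ h1 (mem_sides.2 ⟨by simp, by simp, hbz⟩))
  have hbhull : b ∈ convexHull ℝ ({a, a', b'} : Set Plane) :=
    mem_hull3.2 ⟨α, β, γ, hα.le, hβ.le, hγ.le, hs, hd.symm⟩
  have hsub : region ({a, a', b} : Finset Plane) ⊆ convexHull ℝ ({a, a', b'} : Set Plane) := by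
    rw [region_triple]
    apply convexHull_min _ (convex_convexHull ℝ _)
    intro y hy
    simp only [Set.mem_insert_iff, Set.mem_singleton_iff] at hy
    rcases hy with rfl | rfl | rfl
    · exact subset_convexHull ℝ _ (by simp)
    · exact subset_convexHull ℝ _ (by simp)
    · exact hbhull
  have hne : (interior (convexHull ℝ ({a, a', b'} : Set Plane))).Nonempty :=
    (hT.nondegenerate _ h1).mono (interior_mono hsub)
  refine cover_contra (F := {({a, a', b} : Finset Plane), {b, b', a}, {b, b', a'}}) hbτ ?_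
    (hT.nondegenerate τ hτ)
    (U := interior (convexHull ℝ ({a, a', b'} : Set Plane))) isOpen_interior
    (pos_mem_interior hne hα hβ hγ hs hd) ?_
  · intro t ht
    simp only [Finset.mem_insert, Finset.mem_singleton] at ht
    rcases ht with rfl | rfl | rfl
    · exact hT.disjoint τ hτ _ h1 n1
    · exact hT.disjoint τ hτ _ h2 n2
    · exact hT.disjoint τ hτ _ h3 n3
  · intro x hx
    have := hull3_cover hα hβ hγ hs hd (interior_subset hx)
    rcases this with h | h | h
    · exact ⟨{a, a', b}, by simp, by rw [region_triple]; exact h⟩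
    · exact ⟨{b, b', a}, by simp, by rw [region_triple]; exact h⟩
    · exact ⟨{b, b', a'}, by simp, by rw [region_triple]; exact h⟩

end Pool.Agent.Lib.MP_17cbde_lc
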