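import Mathlib
import Pool.Agent.Lib.MP_17cbde_lc.Defs

namespace Pool.Agent.Lib.MP_17cbde_lc

/-- The two points of the pair replacing the grid point `v`. -/
def pt (M : ℕ) (v : ℕ × ℕ) (s : Bool) : ℕ × ℕ :=
  if (v.1 + v.2) % 2 = 0 then (M * v.1 + 1, M * v.2 + cond s 2 0)
  else (M * v.1 + cond s 2 0, M * v.2 + 1)

noncomputable def q (M : ℕ) (v : ℕ × ℕ) (s : Bool) : Plane := toPlane (pt M v s)

@[simp] theorem toPlane_zero (p : ℕ × ℕ) : toPlane p 0 = p.1 := rfl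

@[simp] theorem toPlane_one (p : ℕ × ℕ) : toPlane p 1 = p.2 := rfl

theorem toPlane_injective : Function.Injective toPlane := by
  intro p p' h
  have h0 := congrArg (fun x : Plane => x 0) h
  have h1 := congrArg (fun x : Plane => x 1) h
  simp only [toPlane_zero, toPlane_one, Nat.cast_inj] at h0 h1
  exact Prod.ext h0 h1

theorem dist_sq (x y : Plane) : dist x y ^ 2 = (x 0 - y 0) ^ 2 + (x 1 - y 1) ^ 2 := by
  rw [EuclideanSpace.dist_eq, Real.sq_sqrt (by positivity)]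
  simp [Fin.sum_univ_two, Real.dist_eq, sq_abs]

theorem pt_form (M : ℕ) (v : ℕ × ℕ) (s : Bool) :
    ∃ a b : ℕ, a ≤ 2 ∧ b ≤ 2 ∧ pt M v s = (M * v.1 + a, M * v.2 + b) := by
  unfold pt
  split_ifs
  · exact ⟨1, cond s 2 0, by omega, by cases s <;> simp, rfl⟩
  · exact ⟨cond s 2 0, 1, by cases s <;> simp, by omega, rfl⟩

theorem coord_far {M x x' a a' k : ℕ} (ha : a ≤ 2) (ha' : a' ≤ 2) (h : x + k ≤ x') :
    (k : ℝ) * M - 2 ≤ |((M * x + a : ℕ) : ℝ) - ((M * x' + a' : ℕ) : ℝ)| := by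
  have h1 : (x : ℝ) + k ≤ x' := by exact_mod_cast h
  have h2 : (a : ℝ) ≤ 2 := by exact_mod_cast ha
  have h3 : (0 : ℝ) ≤ a' := by positivity
  have h4 : (M : ℝ) * (x + k) ≤ M * x' := mul_le_mul_of_nonneg_left h1 (by positivity)
  rw [abs_sub_comm]
  refine le_trans ?_ (le_abs_self _)
  push_cast
  nlinarith

theorem coord_far' {M x x' a a' k : ℕ} (ha : a ≤ 2) (ha' : a' ≤ 2)
    (h : x + k ≤ x' ∨ x' + k ≤ x) :
    (k : ℝ) * M - 2 ≤ |((M * x + a : ℕ) : ℝ) - ((M * x' + a' : ℕ) : ℝ)| := by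
  rcases h with h | h
  · exact coord_far ha ha' h
  · rw [abs_sub_comm]
    exact coord_far ha' ha h

theorem abs_le_dist0 (x y : Plane) : |x 0 - y 0| ≤ dist x y := by
  apply abs_le_of_sq_le_sq _ dist_nonneg
  rw [dist_sq]
  nlinarith [sq_nonneg (x 1 - y 1)]

theorem abs_le_dist1 (x y : Plane) : |x 1 - y 1| ≤ dist x y := by
  apply abs_le_of_sq_le_sq _ dist_nonneg
  rw [dist_sq]
  nlinarith [sq_nonneg (x 0 - y 0)]

theorem dist_ge_of_ne {M : ℕ} {v w : ℕ × ℕ} (h : v ≠ w) (s s' : Bool) :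
    (M : ℝ) - 2 ≤ dist (q M v s) (q M w s') := by
  obtain ⟨a, b, ha, hb, hv⟩ := pt_form M v s
  obtain ⟨a', b', ha', hb', hw⟩ := pt_form M w s'
  have h' : v.1 ≠ w.1 ∨ v.2 ≠ w.2 := by
    by_contra hc
    push Not at hc
    exact h (Prod.ext hc.1 hc.2)
  unfold q
  rw [hv, hw]
  rcases h' with h' | h'
  · refine le_trans ?_ (abs_le_dist0 _ _)
    have := coord_far' (M := M) (k := 1) ha ha' (x := v.1) (x' := w.1) (by omega)
    simpa using this
  · refine le_trans ?_ (abs_le_dist1 _ _)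
    have := coord_far' (M := M) (k := 1) hb hb' (x := v.2) (x' := w.2) (by omega)
    simpa using this

theorem dist_ge_of_not_adj {M : ℕ} (hM : 2 ≤ M) {v w : ℕ × ℕ} (h : v ≠ w) (h2 : ¬ GridAdj v w)
    (s s' : Bool) : 1.4 * (M : ℝ) - 3 ≤ dist (q M v s) (q M w s') := by
  obtain ⟨a, b, ha, hb, hv⟩ := pt_form M v s
  obtain ⟨a', b', ha', hb', hw⟩ := pt_form M w s'
  have hM' : (2 : ℝ) ≤ M := by exact_mod_cast hM
  unfold GridAdj at h2
  have h' : v.1 ≠ w.1 ∨ v.2 ≠ w.2 := by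
    by_contra hc
    push Not at hc
    exact h (Prod.ext hc.1 hc.2)
  unfold q
  rw [hv, hw]
  by_cases hx : v.1 + 2 ≤ w.1 ∨ w.1 + 2 ≤ v.1
  · refine le_trans ?_ (abs_le_dist0 _ _)
    have := coord_far' (M := M) (k := 2) ha ha' hx
    simp only [toPlane_zero]
    refine le_trans ?_ this
    push_cast; linarith
  by_cases hy : v.2 + 2 ≤ w.2 ∨ w.2 + 2 ≤ v.2
  · refine le_trans ?_ (abs_le_dist1 _ _)
    have := coord_far' (M := M) (k := 2) hb hb' hy
    simp only [toPlane_one]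
    refine le_trans ?_ this
    push_cast; linarith
  · have hx1 : v.1 + 1 ≤ w.1 ∨ w.1 + 1 ≤ v.1 := by omega
    have hy1 : v.2 + 1 ≤ w.2 ∨ w.2 + 1 ≤ v.2 := by omega
    have e1 := coord_far' (M := M) (k := 1) ha ha' hx1
    have e2 := coord_far' (M := M) (k := 1) hb hb' hy1
    have hd := dist_sq (toPlane (M * v.1 + a, M * v.2 + b)) (toPlane (M * w.1 + a', M * w.2 + b'))
    simp only [toPlane_zero, toPlane_one] at hd
    have e1' : ((M : ℝ) - 2) ^ 2 ≤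
        (((M * v.1 + a : ℕ) : ℝ) - ((M * w.1 + a' : ℕ) : ℝ)) ^ 2 := by
      rw [← sq_abs (((M * v.1 + a : ℕ) : ℝ) - ((M * w.1 + a' : ℕ) : ℝ))]
      apply pow_le_pow_left₀ (by linarith)
      simpa using e1
    have e2' : ((M : ℝ) - 2) ^ 2 ≤
        (((M * v.2 + b : ℕ) : ℝ) - ((M * w.2 + b' : ℕ) : ℝ)) ^ 2 := by
      rw [← sq_abs (((M * v.2 + b : ℕ) : ℝ) - ((M * w.2 + b' : ℕ) : ℝ))]
      apply pow_le_pow_left₀ (by linarith)
      simpa using e2
    have h3 : 1.4 * ((M : ℝ) - 2) ≤ dist (toPlane (M * v.1 + a, M * v.2 + b))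
        (toPlane (M * w.1 + a', M * w.2 + b')) := by
      apply le_of_sq_le_sq _ dist_nonneg
      rw [hd]
      nlinarith
    linarith

end Pool.Agent.Lib.MP_17cbde_lc
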