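import Mathlib
import Pool.Agent.Lib.MP_17cbde_lc.Dist

namespace Pool.Agent.Lib.MP_17cbde_lc

theorem plane_ext {x y : Plane} (h0 : x 0 = y 0) (h1 : x 1 = y 1) : x = y := by
  ext i
  fin_cases i
  · exact h0
  · exact h1

theorem GridAdj.symm {v w : ℕ × ℕ} (h : GridAdj v w) : GridAdj w v := by
  unfold GridAdj at *
  omega

theorem GridAdj.parity {v w : ℕ × ℕ} (h : GridAdj v w) :
    (v.1 + v.2) % 2 ≠ (w.1 + w.2) % 2 := by
  unfold GridAdj at *
  omega

theorem GridAdj.ne {v w : ℕ × ℕ} (h : GridAdj v w) : v ≠ w := by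
  rintro rfl
  exact h.parity rfl

theorem no_triangle (u v w : ℕ × ℕ) (h1 : GridAdj u v) (h2 : GridAdj v w) (h3 : GridAdj u w) :
    False := by
  have := h1.parity
  have := h2.parity
  have := h3.parity
  omega

theorem q_inj {M : ℕ} (hM : 3 ≤ M) {v w : ℕ × ℕ} {s s' : Bool} (h : q M v s = q M w s') :
    v = w ∧ s = s' := by
  have hM' : (3 : ℝ) ≤ M := by exact_mod_cast hM
  have hvw : v = w := by
    by_contra hne
    have := dist_ge_of_ne (M := M) hne s s'
    rw [h, dist_self] at this
    linarith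
  subst hvw
  refine ⟨rfl, ?_⟩
  have h1 : pt M v s = pt M v s' := toPlane_injective h
  unfold pt at h1
  split_ifs at h1 <;> cases s <;> cases s' <;> simp_all

theorem q_even {M : ℕ} {v : ℕ × ℕ} (h : (v.1 + v.2) % 2 = 0) (s : Bool) :
    (q M v s) 0 = M * v.1 + 1 ∧ (q M v s) 1 = M * v.2 + cond s 2 0 := by
  unfold q pt
  rw [if_pos h]
  simp only [toPlane_zero, toPlane_one]
  cases s <;> simp

theorem q_odd {M : ℕ} {v : ℕ × ℕ} (h : (v.1 + v.2) % 2 ≠ 0) (s : Bool) :
    (q M v s) 0 = M * v.1 + cond s 2 0 ∧ (q M v s) 1 = M * v.2 + 1 := by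
  unfold q pt
  rw [if_neg h]
  simp only [toPlane_zero, toPlane_one]
  cases s <;> simp

/-- `Near M v w`: a point of the pair of `w` lies strictly inside the triangle formed by the pair
of `v` and the other point of the pair of `w`. -/
def Near (M : ℕ) (v w : ℕ × ℕ) : Prop :=
  ∃ (s : Bool) (α β γ : ℝ), 0 < α ∧ 0 < β ∧ 0 < γ ∧ α + β + γ = 1 ∧
    q M w s = α • q M v false + β • q M v true + γ • q M w (!s)

theorem near_even {M : ℕ} (hM : 3 ≤ M) {v w : ℕ × ℕ} (h : GridAdj v w)
    (hv : (v.1 + v.2) % 2 = 0) : Near M v w ∨ Near M w v := by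
  have hw : (w.1 + w.2) % 2 ≠ 0 := by
    have := h.parity; omega
  have hM' : (3 : ℝ) ≤ M := by exact_mod_cast hM
  have hp : (0 : ℝ) < (M : ℝ) + 1 := by linarith
  have key : 0 < 1 / ((M : ℝ) + 1) ∧ 0 < ((M : ℝ) - 1) / (M + 1) ∧
      1 / ((M : ℝ) + 1) + 1 / ((M : ℝ) + 1) + ((M : ℝ) - 1) / (M + 1) = 1 := by
    refine ⟨by positivity, div_pos (by linarith) hp, ?_⟩
    field_simp
    ring
  obtain ⟨k1, k2, k3⟩ := key
  rcases h with ⟨h1, h2⟩ | ⟨h1, h2⟩
  · -- vertical link: `v` is aligned
    right
    have h1' : (v.1 : ℝ) = w.1 := by exact_mod_cast h1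
    rcases h2 with h2 | h2
    · refine ⟨true, _, _, _, k1, k1, k2, k3, ?_⟩
      have h2' : (v.2 : ℝ) + 1 = w.2 := by exact_mod_cast h2
      apply plane_ext
      · simp only [PiLp.add_apply, PiLp.smul_apply, smul_eq_mul, (q_even hv _).1, (q_odd hw _).1,
          Bool.not_true, cond_true, cond_false, ← h1']
        field_simp
        ring
      · simp only [PiLp.add_apply, PiLp.smul_apply, smul_eq_mul, (q_even hv _).2, (q_odd hw _).2,
          Bool.not_true, cond_true, cond_false, ← h2']
        field_simp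
        ring
    · refine ⟨false, _, _, _, k1, k1, k2, k3, ?_⟩
      have h2' : (w.2 : ℝ) + 1 = v.2 := by exact_mod_cast h2
      apply plane_ext
      · simp only [PiLp.add_apply, PiLp.smul_apply, smul_eq_mul, (q_even hv _).1, (q_odd hw _).1,
          Bool.not_false, cond_true, cond_false, ← h1']
        field_simp
        ring
      · simp only [PiLp.add_apply, PiLp.smul_apply, smul_eq_mul, (q_even hv _).2, (q_odd hw _).2,
          Bool.not_false, cond_true, cond_false, ← h2']
        field_simp
        ring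
  · -- horizontal link: `w` is aligned
    left
    have h1' : (v.2 : ℝ) = w.2 := by exact_mod_cast h1
    rcases h2 with h2 | h2
    · refine ⟨false, _, _, _, k1, k1, k2, k3, ?_⟩
      have h2' : (v.1 : ℝ) + 1 = w.1 := by exact_mod_cast h2
      apply plane_ext
      · simp only [PiLp.add_apply, PiLp.smul_apply, smul_eq_mul, (q_even hv _).1, (q_odd hw _).1,
          Bool.not_false, cond_true, cond_false, ← h2']
        field_simp
        ring
      · simp only [PiLp.add_apply, PiLp.smul_apply, smul_eq_mul, (q_even hv _).2, (q_odd hw _).2,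
          Bool.not_false, cond_true, cond_false, ← h1']
        field_simp
        ring
    · refine ⟨true, _, _, _, k1, k1, k2, k3, ?_⟩
      have h2' : (w.1 : ℝ) + 1 = v.1 := by exact_mod_cast h2
      apply plane_ext
      · simp only [PiLp.add_apply, PiLp.smul_apply, smul_eq_mul, (q_even hv _).1, (q_odd hw _).1,
          Bool.not_true, cond_true, cond_false, ← h2']
        field_simp
        ring
      · simp only [PiLp.add_apply, PiLp.smul_apply, smul_eq_mul, (q_even hv _).2, (q_odd hw _).2,
          Bool.not_true, cond_true, cond_false, ← h1']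
        field_simp
        ring

theorem near_of_adj {M : ℕ} (hM : 3 ≤ M) {v w : ℕ × ℕ} (h : GridAdj v w) :
    Near M v w ∨ Near M w v := by
  by_cases hv : (v.1 + v.2) % 2 = 0
  · exact near_even hM h hv
  · have hw : (w.1 + w.2) % 2 = 0 := by
      have := h.parity; omega
    exact (near_even hM h.symm hw).symm

end Pool.Agent.Lib.MP_17cbde_lc
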