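import Mathlib
import Pool.Agent.Lib.MP_17cbde_lc.Near

namespace Pool.Agent.Lib.MP_17cbde_lc

open Classical

theorem len_mk (a b : Plane) : len s(a, b) = dist a b := rfl

theorem len_nonneg (e : Sym2 Plane) : 0 ≤ len e := by
  induction e using Sym2.ind with
  | _ a b => rw [len_mk]; exact dist_nonneg

/-- the segment joining the two points of a pair -/
noncomputable def pairEdge (M : ℕ) (v : ℕ × ℕ) : Sym2 Plane := s(q M v false, q M v true)

theorem len_link {M : ℕ} (V : Finset (ℕ × ℕ)) {e : Sym2 Plane}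
    (he : ∃ v ∈ V, ∃ w ∈ V, ∃ s s', e = s(q M v s, q M w s') ∧ (v, s) ≠ (w, s'))
    (hp : e ∉ V.image (pairEdge M)) : (M : ℝ) - 2 ≤ len e := by
  obtain ⟨v, hv, w, hw, s, s', rfl, hne⟩ := he
  rw [len_mk]
  by_cases h : v = w
  · subst h
    exfalso
    apply hp
    refine Finset.mem_image.2 ⟨v, hv, ?_⟩
    unfold pairEdge
    cases s <;> cases s' <;> simp_all [Sym2.eq_swap]
  · exact dist_ge_of_ne h s s'

theorem sum_len_ge {M : ℕ} (A : Finset (Sym2 Plane)) (h : ∀ e ∈ A, (M : ℝ) - 2 ≤ len e) :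
    (A.card : ℝ) * ((M : ℝ) - 2) ≤ ∑ e ∈ A, len e := by
  have := Finset.card_nsmul_le_sum A (fun e => len e) ((M : ℝ) - 2) h
  simpa [nsmul_eq_mul] using this

theorem weight_struct {M n : ℕ} (V : Finset (ℕ × ℕ)) (hn : V.card = n) (hn1 : 1 ≤ n)
    (hM : 64 * n ≤ M) (E : Finset (Sym2 Plane)) (hE : E.card + 3 = 4 * n)
    (hmem : ∀ e ∈ E, ∃ v ∈ V, ∃ w ∈ V, ∃ s s', e = s(q M v s, q M w s') ∧ (v, s) ≠ (w, s'))
    (hw : weight E ≤ 3 * ((n : ℝ) - 1) * M + M / 4) :
    (∀ v ∈ V, pairEdge M v ∈ E) ∧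
    (∀ v ∈ V, ∀ w ∈ V, ∀ s s', s(q M v s, q M w s') ∈ E → v ≠ w → GridAdj v w) := by
  have hn' : (1 : ℝ) ≤ n := by exact_mod_cast hn1
  have hM' : (64 : ℝ) * n ≤ M := by exact_mod_cast hM
  have hM3 : 3 ≤ M := by omega
  have hcardp : (V.image (pairEdge M)).card ≤ n := hn ▸ Finset.card_image_le
  have hlink : ∀ e ∈ E \ V.image (pairEdge M), (M : ℝ) - 2 ≤ len e := by
    intro e he
    obtain ⟨h1, h2⟩ := Finset.mem_sdiff.1 he
    exact len_link V (hmem e h1) h2
  have hsub : ∑ e ∈ E \ V.image (pairEdge M), len e ≤ weight E :=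
    Finset.sum_le_sum_of_subset_of_nonneg Finset.sdiff_subset fun e _ _ => len_nonneg e
  refine ⟨?_, ?_⟩
  · intro v0 hv0
    by_contra hcon
    have h1 : (E ∩ V.image (pairEdge M)).card ≤ n - 1 := by
      have h2 : E ∩ V.image (pairEdge M) ⊆ (V.erase v0).image (pairEdge M) := by
        intro e he
        obtain ⟨h3, h4⟩ := Finset.mem_inter.1 he
        obtain ⟨v, hv, rfl⟩ := Finset.mem_image.1 h4
        refine Finset.mem_image.2 ⟨v, Finset.mem_erase.2 ⟨?_, hv⟩, rfl⟩
        rintro rfl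
        exact hcon h3
      refine (Finset.card_le_card h2).trans (Finset.card_image_le.trans ?_)
      rw [Finset.card_erase_of_mem hv0, hn]
    have h2 : (E \ V.image (pairEdge M)).card + (E ∩ V.image (pairEdge M)).card = E.card :=
      Finset.card_sdiff_add_card_inter _ _
    have h3 : 3 * n ≤ (E \ V.image (pairEdge M)).card + 2 := by omega
    have h4 := sum_len_ge _ hlink
    have h5 : (3 * (n : ℝ)) ≤ ((E \ V.image (pairEdge M)).card : ℝ) + 2 := by exact_mod_cast h3
    nlinarith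
  · intro v hv w hw' s s' he hne
    by_contra hcon
    have hl := dist_ge_of_not_adj (by omega : 2 ≤ M) hne hcon s s'
    rw [← len_mk] at hl
    have h0 : s(q M v s, q M w s') ∉ V.image (pairEdge M) := by
      intro h
      obtain ⟨u, hu, h1⟩ := Finset.mem_image.1 h
      unfold pairEdge at h1
      rw [Sym2.eq_iff] at h1
      rcases h1 with ⟨h1, h2⟩ | ⟨h1, h2⟩
      · exact hne ((q_inj hM3 h1).1.symm.trans (q_inj hM3 h2).1)
      · exact hne ((q_inj hM3 h2).1.symm.trans (q_inj hM3 h1).1)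
    have hin : s(q M v s, q M w s') ∈ E \ V.image (pairEdge M) := Finset.mem_sdiff.2 ⟨he, h0⟩
    have h2 : (E \ V.image (pairEdge M)).card + (E ∩ V.image (pairEdge M)).card = E.card :=
      Finset.card_sdiff_add_card_inter _ _
    have h2' : (E ∩ V.image (pairEdge M)).card ≤ n :=
      (Finset.card_le_card Finset.inter_subset_right).trans hcardp
    have h3 : 3 * n ≤ ((E \ V.image (pairEdge M)).erase s(q M v s, q M w s')).card + 4 := by
      rw [Finset.card_erase_of_mem hin]
      omega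
    have h4 := sum_len_ge ((E \ V.image (pairEdge M)).erase s(q M v s, q M w s'))
      (fun e he => hlink e (Finset.mem_of_mem_erase he))
    have h5 : (3 * (n : ℝ)) ≤
        (((E \ V.image (pairEdge M)).erase s(q M v s, q M w s')).card : ℝ) + 4 := by
      exact_mod_cast h3
    have h6 := Finset.add_sum_erase _ (fun e => len e) hin
    nlinarith

end Pool.Agent.Lib.MP_17cbde_lc
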