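import Mathlib
import Pool.Agent.Lib.MP_17cbde_lc.GeoTri
import Pool.Agent.Lib.MP_17cbde_lc.WeightStruct

namespace Pool.Agent.Lib.MP_17cbde_lc

open Classical

/-- the point list produced from the vertex list `V` with scaling factor `M` -/
def blow (M : ℕ) (V : List (ℕ × ℕ)) : List (ℕ × ℕ) :=
  V.flatMap fun v => [pt M v false, pt M v true]

theorem mem_blow {M : ℕ} {V : List (ℕ × ℕ)} {p : ℕ × ℕ} :
    p ∈ blow M V ↔ ∃ v ∈ V, ∃ s, p = pt M v s := by
  unfold blow
  simp [List.mem_flatMap, Bool.exists_bool]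

theorem mem_image_blow {M : ℕ} {V : List (ℕ × ℕ)} {p : Plane} :
    p ∈ (blow M V).toFinset.image toPlane ↔ ∃ v ∈ V, ∃ s, p = q M v s := by
  simp only [Finset.mem_image, List.mem_toFinset, mem_blow]
  constructor
  · rintro ⟨_, ⟨v, hv, s, rfl⟩, rfl⟩
    exact ⟨v, hv, s, rfl⟩
  · rintro ⟨v, hv, s, rfl⟩
    exact ⟨_, ⟨v, hv, s, rfl⟩, rfl⟩

theorem card_image_blow {M : ℕ} (hM : 3 ≤ M) {V : List (ℕ × ℕ)} (hV : V.Nodup) :
    ((blow M V).toFinset.image toPlane).card = 2 * V.length := by
  have : (blow M V).toFinset.image toPlane =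
      (V.toFinset ×ˢ (Finset.univ : Finset Bool)).image fun x => q M x.1 x.2 := by
    ext p
    rw [mem_image_blow]
    simp only [Finset.mem_image, Finset.mem_product, List.mem_toFinset, Finset.mem_univ, and_true,
      Prod.exists]
    constructor
    · rintro ⟨v, s', hv, s, h⟩
      exact ⟨v, s', s, hv, h.symm⟩
    · rintro ⟨x, y, s, hv, rfl⟩
      exact ⟨x, y, hv, s, rfl⟩
  rw [this, Finset.card_image_of_injOn, Finset.card_product, List.toFinset_card_of_nodup hV]
  · simp [mul_comm]
  · rintro ⟨v, s⟩ - ⟨w, s'⟩ - h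
    obtain ⟨h1, h2⟩ := q_inj hM h
    exact Prod.ext h1 h2

/-- the owner of a point -/
noncomputable def own (M : ℕ) (V : List (ℕ × ℕ)) (p : Plane) : ℕ × ℕ :=
  if h : ∃ v ∈ V, ∃ s, p = q M v s then h.choose else (0, 0)

theorem own_q {M : ℕ} (hM : 3 ≤ M) {V : List (ℕ × ℕ)} {v : ℕ × ℕ} (hv : v ∈ V) (s : Bool) :
    own M V (q M v s) = v := by
  have h : ∃ w ∈ V, ∃ s', q M v s = q M w s' := ⟨v, hv, s, rfl⟩
  unfold own
  rw [dif_pos h]
  obtain ⟨-, s', h2⟩ := h.choose_spec
  exact (q_inj hM h2).1.symm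

theorem edges_conn {l : List Plane} {T : Finset (Finset Plane)} (hT : IsTriangulation l T)
    (f : Plane → ℕ × ℕ) (i : ℕ) (hi : i < l.length) :
    Relation.ReflTransGen (fun v w => v ≠ w ∧ ∃ p p', s(p, p') ∈ T.biUnion sides ∧ f p = v ∧
      f p' = w) (f (l[0]'(by omega))) (f l[i]) := by
  induction i with
  | zero => exact Relation.ReflTransGen.refl
  | succ i ih =>
    have h1 := ih (by omega)
    have h2 : s(l[i], l[i + 1]) ∈ polygonEdges l :=
      mem_polygonEdges.2 ⟨i, by omega, by
        congr 2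
        simp [Nat.mod_eq_of_lt hi]⟩
    have h3 : s(l[i], l[i + 1]) ∈ T.biUnion sides := by
      have h := hT.boundary _ h2
      obtain ⟨t, ht⟩ := Finset.card_pos.1
        (by omega : 0 < (T.filter fun t => s(l[i], l[i + 1]) ∈ sides t).card)
      obtain ⟨ht1, ht2⟩ := Finset.mem_filter.1 ht
      exact Finset.mem_biUnion.2 ⟨t, ht1, ht2⟩
    by_cases h : f l[i] = f l[i + 1]
    · rw [← h]; exact h1
    · exact h1.tail ⟨h, _, _, h3, rfl, rfl⟩

set_option maxHeartbeats 1000000 in
theorem backward {M : ℕ} (V : List (ℕ × ℕ)) (hV : V.Nodup) (h1 : 1 ≤ V.length)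
    (hM : 64 * V.length ≤ M) (W : ℕ) (hW : (W : ℝ) ≤ 3 * ((V.length : ℝ) - 1) * M + M / 4)
    (h : MWOL (blow M V) W) : ∃ P : List (ℕ × ℕ), P.Perm V ∧ P.IsChain GridAdj := by
  obtain ⟨-, E, ⟨hEcard, l, T, hl, hsimple, hT, rfl⟩, hweight⟩ := h
  have hM3 : 3 ≤ M := by omega
  have hScard := card_image_blow hM3 hV
  have hmeml : ∀ p, p ∈ l ↔ ∃ v ∈ V, ∃ s, p = q M v s := by
    intro p
    rw [← mem_image_blow, ← hl, List.mem_toFinset]
  have hllen : l.length = 2 * V.length := by
    rw [← List.toFinset_card_of_nodup hsimple.nodup, hl, hScard]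
  have hE3 : (T.biUnion sides).card + 3 = 4 * V.length := by
    rw [hEcard, hScard]
    have := hsimple.three_le
    omega
  have hcount := hT.count hsimple
  have hVcard : V.toFinset.card = V.length := List.toFinset_card_of_nodup hV
  have hvert : ∀ t ∈ T, ∀ p ∈ t, ∃ v ∈ V.toFinset, ∃ s, p = q M v s := by
    intro t ht p hp
    have := (hT.vertices t ht).1 hp
    obtain ⟨v, hv, s, rfl⟩ := (hmeml p).1 (List.mem_toFinset.1 this)
    exact ⟨v, List.mem_toFinset.2 hv, s, rfl⟩
  have hmemE : ∀ e ∈ T.biUnion sides, ∃ v ∈ V.toFinset, ∃ w ∈ V.toFinset, ∃ s s',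
      e = s(q M v s, q M w s') ∧ (v, s) ≠ (w, s') := by
    intro e he
    obtain ⟨t, ht, het⟩ := Finset.mem_biUnion.1 he
    induction e using Sym2.ind with
    | _ a b =>
      obtain ⟨ha, hb, hab⟩ := mem_sides.1 het
      obtain ⟨v, hv, s, rfl⟩ := hvert t ht a ha
      obtain ⟨w, hw, s', rfl⟩ := hvert t ht b hb
      refine ⟨v, hv, w, hw, s, s', rfl, ?_⟩
      rintro h
      simp only [Prod.mk.injEq] at h
      exact hab (by rw [h.1, h.2])
  obtain ⟨hpair, hlink⟩ := weight_struct V.toFinset hVcard h1 hM (T.biUnion sides) hE3 hmemE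
    (hweight.trans hW)
  have hqmem : ∀ v ∈ V.toFinset, ∀ s, q M v s ∈ l := fun v hv s =>
    (hmeml _).2 ⟨v, List.mem_toFinset.1 hv, s, rfl⟩
  have hnear : ∀ v ∈ V.toFinset, ∀ w ∈ V.toFinset, v ≠ w → Near M v w →
      (∃ s : Bool, ({q M v false, q M v true, q M w (!s)} : Finset Plane) ∉ T ∧
      ¬ (({q M v false, q M v true, q M w s} : Finset Plane) ∈ T ∧
        ({q M w false, q M w true, q M v false} : Finset Plane) ∈ T ∧
        ({q M w false, q M w true, q M v true} : Finset Plane) ∈ T)) := by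
    rintro v hv w hw hvw ⟨s, α, β, γ, hα, hβ, hγ, hs, hd⟩
    have ne1 : ∀ s s', q M w s ≠ q M v s' := fun s s' h => hvw (q_inj hM3 h).1.symm
    have ne2 : q M v false ≠ q M v true := fun h => by simpa using (q_inj hM3 h).2
    have ne3 : q M w s ≠ q M w (!s) := fun h => by
      have := (q_inj hM3 h).2
      cases s <;> simp at this
    refine ⟨s, ?_, ?_⟩
    · exact geo_far hT (hqmem w hw s) (ne1 _ _) (ne1 _ _) ne3 hα hβ hγ hs hd
    · rintro ⟨h1, h2, h3⟩
      have hset : ∀ z : Plane, ({q M w false, q M w true, z} : Finset Plane) =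
          {q M w s, q M w (!s), z} := by
        intro z
        cases s
        · rfl
        · simp only [Bool.not_true]
          rw [Finset.insert_comm]
      rw [hset] at h2 h3
      exact geo_near hT (hqmem w hw s) ne2 (ne1 _ _) (ne1 _ _) ne3 (ne1 _ _) (ne1 _ _) hα hβ hγ hs
        hd h1 h2 h3
  let D : CombData Plane (ℕ × ℕ) :=
    { V := V.toFinset
      q := q M
      own := own M V
      Adj := GridAdj
      T := T
      hn := by rw [hVcard]; exact h1
      own_q := fun v hv s => own_q hM3 (List.mem_toFinset.1 hv) s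
      q_ne := fun v _ h => by simpa using (q_inj hM3 h).2
      symm := fun v w h => h.symm
      noTri := fun u v w h1 h2 h3 => no_triangle u v w h1 h2 h3
      vert := hvert
      card3 := fun t ht => (hT.vertices t ht).2
      Ecard := by rw [hVcard]; exact hE3
      Tcard := by rw [hVcard]; omega
      mult := by
        intro e
        by_cases he : e ∈ polygonEdges l
        · rw [hT.boundary e he]; norm_num
        · rcases hT.inner e he with h | h <;> rw [h] <;> norm_num
      pair := hpair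
      link := by
        intro p p' he hne
        obtain ⟨v, hv, w, hw, s, s', h1, -⟩ := hmemE _ he
        rw [Sym2.eq_iff] at h1
        rcases h1 with ⟨rfl, rfl⟩ | ⟨rfl, rfl⟩
        · rw [own_q hM3 (List.mem_toFinset.1 hv), own_q hM3 (List.mem_toFinset.1 hw)] at hne ⊢
          exact hlink v hv w hw s s' he hne
        · rw [own_q hM3 (List.mem_toFinset.1 hv), own_q hM3 (List.mem_toFinset.1 hw)] at hne ⊢
          exact hlink w hw v hv s' s he hne
      geo := by
        intro v hv w hw hadj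
        rcases near_of_adj hM3 hadj with h | h
        · left; exact hnear v hv w hw hadj.ne h
        · right; exact hnear w hw v hv hadj.ne.symm h
      conn := by
        intro v hv w hw
        have hsymm : ∀ a b : ℕ × ℕ, (a ≠ b ∧ ∃ p p', s(p, p') ∈ T.biUnion sides ∧
            own M V p = a ∧ own M V p' = b) → (b ≠ a ∧ ∃ p p', s(p, p') ∈ T.biUnion sides ∧
            own M V p = b ∧ own M V p' = a) := by
          rintro a b ⟨h1, p, p', h2, h3, h4⟩
          exact ⟨h1.symm, p', p, by rw [Sym2.eq_swap]; exact h2, h4, h3⟩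
        have key : ∀ v ∈ V.toFinset, Relation.ReflTransGen (fun v w => v ≠ w ∧ ∃ p p',
            s(p, p') ∈ T.biUnion sides ∧ own M V p = v ∧ own M V p' = w)
            (own M V (l[0]'(by have := hsimple.three_le; omega))) v := by
          intro v hv
          obtain ⟨i, hi, hq⟩ := List.mem_iff_getElem.1 (hqmem v hv false)
          have := edges_conn hT (own M V) i hi
          rw [hq, own_q hM3 (List.mem_toFinset.1 hv)] at this
          exact this
        have k1 := key v hv
        have k2 := key w hw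
        have hs' : Std.Symm (fun v w : ℕ × ℕ => v ≠ w ∧ ∃ p p',
            s(p, p') ∈ T.biUnion sides ∧ own M V p = v ∧ own M V p' = w) := ⟨hsymm⟩
        exact ((Relation.ReflTransGen.stdSymm (r := fun v w : ℕ × ℕ => v ≠ w ∧ ∃ p p',
            s(p, p') ∈ T.biUnion sides ∧ own M V p = v ∧ own M V p' = w)).symm _ _ k1).trans k2 }
  obtain ⟨P, hP1, hP2, hP3⟩ := D.exists_ham
  refine ⟨P, ?_, hP3⟩
  rw [List.perm_ext_iff_of_nodup hP1 hV]
  intro x
  rw [hP2]
  exact List.mem_toFinset

end Pool.Agent.Lib.MP_17cbde_lc
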