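import Mathlib
import Pool.Agent.Lib.MP_17cbde_lc.Geo
import Pool.Agent.Lib.MP_17cbde_lc.Poly
import Pool.Agent.Lib.MP_17cbde_lc.Near

namespace Pool.Agent.Lib.MP_17cbde_lc

open MeasureTheory

/-- twice the signed area of the triangle `a b c` -/
def area2 (a b c : Plane) : ℝ := (b 0 - a 0) * (c 1 - a 1) - (b 1 - a 1) * (c 0 - a 0)

theorem area2_swap (a b c : Plane) : area2 b a c = - area2 a b c := by
  unfold area2; ring

theorem area2_rot (a b c : Plane) : area2 b c a = area2 a b c := by
  unfold area2; ring

/-- two sides of a non-degenerate triangle meet only in their common endpoint -/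
theorem seg_inter {a b c x : Plane} (h : area2 a b c ≠ 0) (h1 : x ∈ segment ℝ a b)
    (h2 : x ∈ segment ℝ a c) : x = a := by
  obtain ⟨s, t, hs, ht, hst, rfl⟩ := h1
  obtain ⟨s', t', hs', ht', hst', h3⟩ := h2
  have e0 := congrArg (fun z : Plane => z 0) h3
  have e1 := congrArg (fun z : Plane => z 1) h3
  simp only [PiLp.add_apply, PiLp.smul_apply, smul_eq_mul] at e0 e1
  have hs1 : s = 1 - t := by linarith
  have hs2 : s' = 1 - t' := by linarith
  subst hs1; subst hs2
  -- t' (c - a) = t (b - a)
  have f0 : t' * (c 0 - a 0) = t * (b 0 - a 0) := by linarith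
  have f1 : t' * (c 1 - a 1) = t * (b 1 - a 1) := by linarith
  have g : t * area2 a b c = 0 := by
    unfold area2
    calc t * ((b 0 - a 0) * (c 1 - a 1) - (b 1 - a 1) * (c 0 - a 0))
        = (t * (b 0 - a 0)) * (c 1 - a 1) - (t * (b 1 - a 1)) * (c 0 - a 0) := by ring
      _ = (t' * (c 0 - a 0)) * (c 1 - a 1) - (t' * (c 1 - a 1)) * (c 0 - a 0) := by rw [f0, f1]
      _ = 0 := by ring
  have ht0 : t = 0 := by
    rcases mul_eq_zero.1 g with h' | h'
    · exact h'
    · exact absurd h' h
  subst ht0
  simp

theorem interior_hull_nonempty {a b c : Plane} (h : area2 a b c ≠ 0) :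
    (interior (convexHull ℝ ({a, b, c} : Set Plane))).Nonempty := by
  rw [interior_convexHull_nonempty_iff_affineSpan_eq_top]
  have hind : AffineIndependent ℝ ![a, b, c] := by
    rw [affineIndependent_iff_linearIndependent_vsub ℝ _ (0 : Fin 3)]
    have hli : LinearIndependent ℝ ![b - a, c - a] := by
      rw [LinearIndependent.pair_iff]
      intro s t hst
      have e0 := congrArg (fun z : Plane => z 0) hst
      have e1 := congrArg (fun z : Plane => z 1) hst
      simp only [PiLp.add_apply, PiLp.smul_apply, PiLp.sub_apply, smul_eq_mul,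
        PiLp.zero_apply] at e0 e1
      have g1 : s * area2 a b c = 0 := by
        unfold area2
        linear_combination (c 1 - a 1) * e0 - (c 0 - a 0) * e1
      have g2 : t * area2 a b c = 0 := by
        unfold area2
        linear_combination (b 0 - a 0) * e1 - (b 1 - a 1) * e0
      exact ⟨(mul_eq_zero.1 g1).resolve_right h, (mul_eq_zero.1 g2).resolve_right h⟩
    have : (fun i : {x : Fin 3 // x ≠ 0} => (![a, b, c] i -ᵥ ![a, b, c] 0 : Plane)) =
        ![b - a, c - a] ∘ (fun i : {x : Fin 3 // x ≠ 0} => (i.1.pred i.2 : Fin 2)) := by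
      funext i
      obtain ⟨i, hi⟩ := i
      fin_cases i
      · exact absurd rfl hi
      · rfl
      · rfl
    rw [this]
    apply hli.comp
    rintro ⟨i, hi⟩ ⟨j, hj⟩ hij
    simpa using hij
  have hspan := hind.affineSpan_eq_top_iff_card_eq_finrank_add_one.2 (by simp)
  have hr : Set.range ![a, b, c] = {a, b, c} := by
    ext x
    simp only [Set.mem_range, Fin.exists_fin_succ, Matrix.cons_val_zero, Matrix.cons_val_succ,
      Set.mem_insert_iff, Set.mem_singleton_iff, IsEmpty.exists_iff, or_false]
    constructor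
    · rintro (h | h | h)
      · exact Or.inl h.symm
      · exact Or.inr (Or.inl h.symm)
      · exact Or.inr (Or.inr h.symm)
    · rintro (h | h | h)
      · exact Or.inl h.symm
      · exact Or.inr (Or.inl h.symm)
      · exact Or.inr (Or.inr h.symm)
  rw [hr] at hspan
  exact hspan

theorem interior_segment_empty (a b : Plane) : interior (segment ℝ a b) = ∅ := by
  rw [← convexHull_pair]
  by_contra hne
  have hne' : (interior (convexHull ℝ ({a, b} : Set Plane))).Nonempty :=
    Set.nonempty_iff_ne_empty.2 hne
  rw [interior_convexHull_nonempty_iff_affineSpan_eq_top] at hne'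
  have h1 : Module.finrank ℝ (vectorSpan ℝ ({a, b} : Set Plane)) ≤ 1 := by
    have := collinear_pair ℝ a b
    rwa [collinear_iff_finrank_le_one] at this
  have h2 : vectorSpan ℝ ({a, b} : Set Plane) = ⊤ := by
    rw [← direction_affineSpan, hne', AffineSubspace.direction_top]
  rw [h2] at h1
  simp at h1

end Pool.Agent.Lib.MP_17cbde_lc
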