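import Mathlib
import Pool.Agent.Lib.MP_17cbde_lc.Near
import Pool.Agent.Lib.MP_17cbde_lc.Flat
import Pool.Agent.Lib.MP_17cbde_lc.GeoTri

namespace Pool.Agent.Lib.MP_17cbde_lc

/-- sign of a Boolean -/
def sg (b : Bool) : ℝ := if b then 1 else -1

@[simp] theorem sg_true : sg true = 1 := rfl
@[simp] theorem sg_false : sg false = -1 := rfl

theorem sg_sq (b : Bool) : sg b * sg b = 1 := by cases b <;> simp

theorem sg_not (b : Bool) : sg (!b) = - sg b := by cases b <;> simp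

theorem sg_cases (b : Bool) : sg b = 1 ∨ sg b = -1 := by cases b <;> simp

/-- affine functions on the plane -/
def IsAff (f : Plane → ℝ) : Prop := ∃ k0 k1 k2 : ℝ, ∀ p, f p = k0 * p 0 + k1 * p 1 + k2

theorem IsAff.comb {f g : Plane → ℝ} (hf : IsAff f) (hg : IsAff g) (α β : ℝ) :
    IsAff fun p => α * f p + β * g p := by
  obtain ⟨a0, a1, a2, ha⟩ := hf
  obtain ⟨b0, b1, b2, hb⟩ := hg
  refine ⟨α * a0 + β * b0, α * a1 + β * b1, α * a2 + β * b2, ?_⟩
  intro p
  simp only [ha, hb]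
  ring

theorem IsAff.smul {f : Plane → ℝ} (hf : IsAff f) (α : ℝ) : IsAff fun p => α * f p := by
  obtain ⟨a0, a1, a2, ha⟩ := hf
  refine ⟨α * a0, α * a1, α * a2, ?_⟩
  intro p
  simp only [ha]
  ring

theorem region_le {f : Plane → ℝ} (hf : IsAff f) {t : Finset Plane} {c : ℝ}
    (ht : ∀ p ∈ t, f p ≤ c) {x : Plane} (hx : x ∈ region t) : f x ≤ c := by
  obtain ⟨k0, k1, k2, hk⟩ := hf
  have hconv : Convex ℝ {x : Plane | f x ≤ c} := by
    intro x hx y hy s t hs ht' hst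
    simp only [Set.mem_ofPred_eq, hk, PiLp.add_apply, PiLp.smul_apply, smul_eq_mul] at *
    have : k0 * (s * x 0 + t * y 0) + k1 * (s * x 1 + t * y 1) + k2 =
        s * (k0 * x 0 + k1 * x 1 + k2) + t * (k0 * y 0 + k1 * y 1 + k2) := by
      have h3 : k2 = s * k2 + t * k2 := by rw [← add_mul, hst, one_mul]
      linear_combination h3
    rw [this]
    calc s * (k0 * x 0 + k1 * x 1 + k2) + t * (k0 * y 0 + k1 * y 1 + k2)
        ≤ s * c + t * c := add_le_add (mul_le_mul_of_nonneg_left hx hs)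
          (mul_le_mul_of_nonneg_left hy ht')
      _ = c := by rw [← add_mul, hst, one_mul]
  exact convexHull_min (s := (t : Set Plane)) (fun p hp => ht p (by exact_mod_cast hp)) hconv hx

/-- separation of a triangle from the rest by an affine function -/
theorem sep {f : Plane → ℝ} (hf : IsAff f) {t : Finset Plane} {a b v : Plane} {c : ℝ}
    (ht : ∀ p ∈ t, f p ≤ c) (ha : c ≤ f a) (hb : c ≤ f b) (hv : c < f v) :
    region t ∩ region {a, b, v} ⊆ segment ℝ a b := by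
  rintro x ⟨hx1, hx2⟩
  have h1 := region_le hf ht hx1
  rw [region_triple] at hx2
  obtain ⟨α, β, γ, hα, hβ, hγ, hs, rfl⟩ := mem_hull3.1 hx2
  obtain ⟨k0, k1, k2, hk⟩ := hf
  rw [hk] at h1 ha hb hv
  simp only [PiLp.add_apply, PiLp.smul_apply, smul_eq_mul] at h1
  have h2 : k0 * (α * a 0 + β * b 0 + γ * v 0) + k1 * (α * a 1 + β * b 1 + γ * v 1) + k2 =
      α * (k0 * a 0 + k1 * a 1 + k2) + β * (k0 * b 0 + k1 * b 1 + k2) +
      γ * (k0 * v 0 + k1 * v 1 + k2) := by
    have h3 : k2 = α * k2 + β * k2 + γ * k2 := by rw [← add_mul, ← add_mul, hs, one_mul]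
    linear_combination h3
  rw [h2] at h1
  have h3 : γ * ((k0 * v 0 + k1 * v 1 + k2) - c) ≤ 0 := by
    have e1 := mul_le_mul_of_nonneg_left ha hα
    have e2 := mul_le_mul_of_nonneg_left hb hβ
    have e3 : c = α * c + β * c + γ * c := by rw [← add_mul, ← add_mul, hs, one_mul]
    linarith
  have hγ0 : γ = 0 := by
    by_contra hne
    have : 0 < γ := lt_of_le_of_ne hγ (Ne.symm hne)
    have : 0 < γ * ((k0 * v 0 + k1 * v 1 + k2) - c) := mul_pos this (by linarith)
    linarith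
  subst hγ0
  exact ⟨α, β, hα, hβ, by linarith, by simp⟩

theorem area2_ne {f : Plane → ℝ} (hf : IsAff f) {a b v : Plane} (hab : a ≠ b)
    (h1 : f a = f b) (h2 : f v ≠ f a) : area2 a b v ≠ 0 := by
  intro h0
  obtain ⟨k0, k1, k2, hk⟩ := hf
  rw [hk, hk] at h1
  rw [hk, hk] at h2
  unfold area2 at h0
  apply h2
  by_cases hx : b 0 = a 0
  · have hy : b 1 ≠ a 1 := fun hy => hab (plane_ext hx.symm hy.symm)
    have hy' : b 1 - a 1 ≠ 0 := sub_ne_zero.2 hy
    have e : (b 1 - a 1) * ((k0 * v 0 + k1 * v 1 + k2) - (k0 * a 0 + k1 * a 1 + k2)) = 0 := by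
      linear_combination (-(v 1 - a 1)) * h1 - k0 * h0
    have := (mul_eq_zero.1 e).resolve_left hy'
    linarith
  · have hx' : b 0 - a 0 ≠ 0 := sub_ne_zero.2 hx
    have e : (b 0 - a 0) * ((k0 * v 0 + k1 * v 1 + k2) - (k0 * a 0 + k1 * a 1 + k2)) = 0 := by
      linear_combination (-(v 0 - a 0)) * h1 + k1 * h0
    have := (mul_eq_zero.1 e).resolve_left hx'
    linarith

/-- coordinate along the pair of `v`, centred at `v` -/
noncomputable def cA (M : ℕ) (v : ℕ × ℕ) (p : Plane) : ℝ :=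
  if (v.1 + v.2) % 2 = 0 then p 1 - (M * v.2 + 1) else p 0 - (M * v.1 + 1)

/-- coordinate perpendicular to the pair of `v`, centred at `v` -/
noncomputable def cB (M : ℕ) (v : ℕ × ℕ) (p : Plane) : ℝ :=
  if (v.1 + v.2) % 2 = 0 then p 0 - (M * v.1 + 1) else p 1 - (M * v.2 + 1)

theorem isAff_cA (M : ℕ) (v : ℕ × ℕ) : IsAff (cA M v) := by
  by_cases h : (v.1 + v.2) % 2 = 0
  · exact ⟨0, 1, -(M * v.2 + 1), fun p => by simp only [cA, if_pos h]; ring⟩
  · exact ⟨1, 0, -(M * v.1 + 1), fun p => by simp only [cA, if_neg h]; ring⟩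

theorem isAff_cB (M : ℕ) (v : ℕ × ℕ) : IsAff (cB M v) := by
  by_cases h : (v.1 + v.2) % 2 = 0
  · exact ⟨1, 0, -(M * v.1 + 1), fun p => by simp only [cB, if_pos h]; ring⟩
  · exact ⟨0, 1, -(M * v.2 + 1), fun p => by simp only [cB, if_neg h]; ring⟩

/-- `w` is the neighbour of `v` perpendicular to the pair of `v`, in direction `τ` -/
def Perp (v w : ℕ × ℕ) (τ : Bool) : Prop :=
  if (v.1 + v.2) % 2 = 0 then w.2 = v.2 ∧ cond τ (w.1 = v.1 + 1) (w.1 + 1 = v.1)
  else w.1 = v.1 ∧ cond τ (w.2 = v.2 + 1) (w.2 + 1 = v.2)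

/-- `w` is the neighbour of `v` along the pair of `v`, in direction `δ` -/
def Algn (v w : ℕ × ℕ) (δ : Bool) : Prop :=
  if (v.1 + v.2) % 2 = 0 then w.1 = v.1 ∧ cond δ (w.2 = v.2 + 1) (w.2 + 1 = v.2)
  else w.2 = v.2 ∧ cond δ (w.1 = v.1 + 1) (w.1 + 1 = v.1)

theorem cA_self (M : ℕ) (v : ℕ × ℕ) (s : Bool) : cA M v (q M v s) = sg s := by
  unfold cA
  by_cases h : (v.1 + v.2) % 2 = 0
  · rw [if_pos h, (q_even h s).2]; cases s <;> simp <;> ring
  · rw [if_neg h, (q_odd h s).1]; cases s <;> simp <;> ring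

theorem cB_self (M : ℕ) (v : ℕ × ℕ) (s : Bool) : cB M v (q M v s) = 0 := by
  unfold cB
  by_cases h : (v.1 + v.2) % 2 = 0
  · rw [if_pos h, (q_even h s).1]; ring
  · rw [if_neg h, (q_odd h s).2]; ring

theorem Perp.coords {M : ℕ} {v w : ℕ × ℕ} {τ : Bool} (h : Perp v w τ) (s : Bool) :
    cA M v (q M w s) = 0 ∧ cB M v (q M w s) = sg τ * M + sg s := by
  unfold Perp at h
  unfold cA cB
  by_cases hv : (v.1 + v.2) % 2 = 0
  · rw [if_pos hv] at h
    obtain ⟨h1, h2⟩ := h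
    rw [if_pos hv, if_pos hv]
    cases τ
    · have hw : (w.1 + w.2) % 2 ≠ 0 := by simp at h2; omega
      have h2' : (w.1 : ℝ) + 1 = v.1 := by exact_mod_cast h2
      rw [(q_odd hw s).1, (q_odd hw s).2, h1, ← h2']
      cases s <;> simp <;> ring
    · have hw : (w.1 + w.2) % 2 ≠ 0 := by simp at h2; omega
      have h2' : (w.1 : ℝ) = v.1 + 1 := by exact_mod_cast h2
      rw [(q_odd hw s).1, (q_odd hw s).2, h1, h2']
      cases s <;> simp <;> ring
  · rw [if_neg hv] at h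
    obtain ⟨h1, h2⟩ := h
    rw [if_neg hv, if_neg hv]
    cases τ
    · have hw : (w.1 + w.2) % 2 = 0 := by simp at h2; omega
      have h2' : (w.2 : ℝ) + 1 = v.2 := by exact_mod_cast h2
      rw [(q_even hw s).1, (q_even hw s).2, h1, ← h2']
      cases s <;> simp <;> ring
    · have hw : (w.1 + w.2) % 2 = 0 := by simp at h2; omega
      have h2' : (w.2 : ℝ) = v.2 + 1 := by exact_mod_cast h2
      rw [(q_even hw s).1, (q_even hw s).2, h1, h2']
      cases s <;> simp <;> ring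

theorem Algn.coords {M : ℕ} {v w : ℕ × ℕ} {δ : Bool} (h : Algn v w δ) (s : Bool) :
    cA M v (q M w s) = sg δ * M ∧ cB M v (q M w s) = sg s := by
  unfold Algn at h
  unfold cA cB
  by_cases hv : (v.1 + v.2) % 2 = 0
  · rw [if_pos hv] at h
    obtain ⟨h1, h2⟩ := h
    rw [if_pos hv, if_pos hv]
    cases δ
    · have hw : (w.1 + w.2) % 2 ≠ 0 := by simp at h2; omega
      have h2' : (w.2 : ℝ) + 1 = v.2 := by exact_mod_cast h2
      rw [(q_odd hw s).1, (q_odd hw s).2, h1, ← h2']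
      cases s <;> simp <;> ring_nf <;> simp
    · have hw : (w.1 + w.2) % 2 ≠ 0 := by simp at h2; omega
      have h2' : (w.2 : ℝ) = v.2 + 1 := by exact_mod_cast h2
      rw [(q_odd hw s).1, (q_odd hw s).2, h1, h2']
      cases s <;> simp <;> ring_nf <;> simp
  · rw [if_neg hv] at h
    obtain ⟨h1, h2⟩ := h
    rw [if_neg hv, if_neg hv]
    cases δ
    · have hw : (w.1 + w.2) % 2 = 0 := by simp at h2; omega
      have h2' : (w.1 : ℝ) + 1 = v.1 := by exact_mod_cast h2
      rw [(q_even hw s).1, (q_even hw s).2, h1, ← h2']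
      cases s <;> simp <;> ring_nf <;> simp
    · have hw : (w.1 + w.2) % 2 = 0 := by simp at h2; omega
      have h2' : (w.1 : ℝ) = v.1 + 1 := by exact_mod_cast h2
      rw [(q_even hw s).1, (q_even hw s).2, h1, h2']
      cases s <;> simp <;> ring_nf <;> simp

theorem adj_cases {v w : ℕ × ℕ} (h : GridAdj v w) : (∃ τ, Perp v w τ) ∨ (∃ δ, Algn v w δ) := by
  unfold GridAdj at h
  by_cases hv : (v.1 + v.2) % 2 = 0
  · rcases h with ⟨h1, h2 | h2⟩ | ⟨h1, h2 | h2⟩
    · right; exact ⟨true, by unfold Algn; rw [if_pos hv]; simp; omega⟩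
    · right; exact ⟨false, by unfold Algn; rw [if_pos hv]; simp; omega⟩
    · left; exact ⟨true, by unfold Perp; rw [if_pos hv]; simp; omega⟩
    · left; exact ⟨false, by unfold Perp; rw [if_pos hv]; simp; omega⟩
  · rcases h with ⟨h1, h2 | h2⟩ | ⟨h1, h2 | h2⟩
    · left; exact ⟨true, by unfold Perp; rw [if_neg hv]; simp; omega⟩
    · left; exact ⟨false, by unfold Perp; rw [if_neg hv]; simp; omega⟩
    · right; exact ⟨true, by unfold Algn; rw [if_neg hv]; simp; omega⟩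
    · right; exact ⟨false, by unfold Algn; rw [if_neg hv]; simp; omega⟩

theorem Perp.swap {v w : ℕ × ℕ} {τ : Bool} (h : Perp v w τ) : Algn w v (!τ) := by
  unfold Perp at h
  unfold Algn
  by_cases hv : (v.1 + v.2) % 2 = 0
  · rw [if_pos hv] at h
    cases τ <;> simp at h ⊢ <;> rw [if_neg (by omega)] <;> omega
  · rw [if_neg hv] at h
    cases τ <;> simp at h ⊢ <;> rw [if_pos (by omega)] <;> omega

theorem Algn.swap {v w : ℕ × ℕ} {δ : Bool} (h : Algn v w δ) : Perp w v (!δ) := by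
  unfold Algn at h
  unfold Perp
  by_cases hv : (v.1 + v.2) % 2 = 0
  · rw [if_pos hv] at h
    cases δ <;> simp at h ⊢ <;> rw [if_neg (by omega)] <;> omega
  · rw [if_neg hv] at h
    cases δ <;> simp at h ⊢ <;> rw [if_pos (by omega)] <;> omega

theorem Perp.uniq {v w x : ℕ × ℕ} {τ : Bool} (h : Perp v w τ) (h' : Perp v x τ) : w = x := by
  unfold Perp at h h'
  by_cases hv : (v.1 + v.2) % 2 = 0
  · rw [if_pos hv] at h h'
    cases τ <;> simp at h h' <;> apply Prod.ext <;> omega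
  · rw [if_neg hv] at h h'
    cases τ <;> simp at h h' <;> apply Prod.ext <;> omega

theorem Algn.uniq {v w x : ℕ × ℕ} {δ : Bool} (h : Algn v w δ) (h' : Algn v x δ) : w = x := by
  unfold Algn at h h'
  by_cases hv : (v.1 + v.2) % 2 = 0
  · rw [if_pos hv] at h h'
    cases δ <;> simp at h h' <;> apply Prod.ext <;> omega
  · rw [if_neg hv] at h h'
    cases δ <;> simp at h h' <;> apply Prod.ext <;> omega

theorem isAff_x (k : ℝ) : IsAff fun p => k * p 0 := ⟨k, 0, 0, fun p => by ring⟩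
theorem isAff_y (k : ℝ) : IsAff fun p => k * p 1 := ⟨0, k, 0, fun p => by ring⟩

theorem q_bounds {M : ℕ} (v : ℕ × ℕ) (s : Bool) :
    (M : ℝ) * v.1 ≤ (q M v s) 0 ∧ (q M v s) 0 ≤ M * v.1 + 2 ∧
    (M : ℝ) * v.2 ≤ (q M v s) 1 ∧ (q M v s) 1 ≤ M * v.2 + 2 := by
  obtain ⟨a, b, ha, hb, h⟩ := pt_form M v s
  unfold q
  rw [h]
  have ha' : (a : ℝ) ≤ 2 := by exact_mod_cast ha
  have hb' : (b : ℝ) ≤ 2 := by exact_mod_cast hb
  have ha0 : (0 : ℝ) ≤ a := by positivity
  have hb0 : (0 : ℝ) ≤ b := by positivity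
  simp only [toPlane_zero, toPlane_one, Nat.cast_add, Nat.cast_mul]
  refine ⟨?_, ?_, ?_, ?_⟩ <;> linarith

/-- links with disjoint endpoints are separated -/
theorem far {M : ℕ} (hM : 3 ≤ M) {x y v w : ℕ × ℕ} (hxy : GridAdj x y) (hvw : GridAdj v w)
    (h1 : x ≠ v) (h2 : x ≠ w) (h3 : y ≠ v) (h4 : y ≠ w) :
    ∃ f, IsAff f ∧ ∃ c, (∀ s, f (q M x s) ≤ c ∧ f (q M y s) ≤ c) ∧
      (∀ s, c < f (q M v s) ∧ c < f (q M w s)) := by
  have hM' : (3 : ℝ) ≤ M := by exact_mod_cast hM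
  have key : ∀ a b : ℕ, a + 1 ≤ b → (M : ℝ) * a + 2 < M * b := by
    intro a b hab
    have : (a : ℝ) + 1 ≤ b := by exact_mod_cast hab
    nlinarith
  have hmono : ∀ a b : ℕ, a ≤ b → (M : ℝ) * a ≤ M * b := by
    intro a b hab
    exact mul_le_mul_of_nonneg_left (by exact_mod_cast hab) (by positivity)
  have hcases : (max x.1 y.1 + 1 ≤ min v.1 w.1) ∨ (max v.1 w.1 + 1 ≤ min x.1 y.1) ∨
      (max x.2 y.2 + 1 ≤ min v.2 w.2) ∨ (max v.2 w.2 + 1 ≤ min x.2 y.2) := by
    unfold GridAdj at hxy hvw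
    have e1 : x.1 ≠ v.1 ∨ x.2 ≠ v.2 := by
      by_contra hc; push Not at hc; exact h1 (Prod.ext hc.1 hc.2)
    have e2 : x.1 ≠ w.1 ∨ x.2 ≠ w.2 := by
      by_contra hc; push Not at hc; exact h2 (Prod.ext hc.1 hc.2)
    have e3 : y.1 ≠ v.1 ∨ y.2 ≠ v.2 := by
      by_contra hc; push Not at hc; exact h3 (Prod.ext hc.1 hc.2)
    have e4 : y.1 ≠ w.1 ∨ y.2 ≠ w.2 := by
      by_contra hc; push Not at hc; exact h4 (Prod.ext hc.1 hc.2)
    omega
  have qb := fun (u : ℕ × ℕ) (s : Bool) => q_bounds (M := M) u s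
  rcases hcases with h | h | h | h
  · refine ⟨_, isAff_x 1, M * ((max x.1 y.1 : ℕ) : ℝ) + 2, fun s => ?_, fun s => ?_⟩
    · have := hmono x.1 (max x.1 y.1) (le_max_left _ _)
      have := hmono y.1 (max x.1 y.1) (le_max_right _ _)
      constructor
      · linarith [(qb x s).2.1]
      · linarith [(qb y s).2.1]
    · have := key (max x.1 y.1) v.1 (by omega)
      have := key (max x.1 y.1) w.1 (by omega)
      constructor
      · linarith [(qb v s).1]
      · linarith [(qb w s).1]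
  · refine ⟨_, isAff_x (-1), -(M * ((min x.1 y.1 : ℕ) : ℝ)), fun s => ?_, fun s => ?_⟩
    · have := hmono (min x.1 y.1) x.1 (min_le_left _ _)
      have := hmono (min x.1 y.1) y.1 (min_le_right _ _)
      constructor
      · linarith [(qb x s).1]
      · linarith [(qb y s).1]
    · have := key v.1 (min x.1 y.1) (by omega)
      have := key w.1 (min x.1 y.1) (by omega)
      constructor
      · linarith [(qb v s).2.1]
      · linarith [(qb w s).2.1]
  · refine ⟨_, isAff_y 1, M * ((max x.2 y.2 : ℕ) : ℝ) + 2, fun s => ?_, fun s => ?_⟩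
    · have := hmono x.2 (max x.2 y.2) (le_max_left _ _)
      have := hmono y.2 (max x.2 y.2) (le_max_right _ _)
      constructor
      · linarith [(qb x s).2.2.2]
      · linarith [(qb y s).2.2.2]
    · have := key (max x.2 y.2) v.2 (by omega)
      have := key (max x.2 y.2) w.2 (by omega)
      constructor
      · linarith [(qb v s).2.2.1]
      · linarith [(qb w s).2.2.1]
  · refine ⟨_, isAff_y (-1), -(M * ((min x.2 y.2 : ℕ) : ℝ)), fun s => ?_, fun s => ?_⟩
    · have := hmono (min x.2 y.2) x.2 (min_le_left _ _)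
      have := hmono (min x.2 y.2) y.2 (min_le_right _ _)
      constructor
      · linarith [(qb x s).2.2.1]
      · linarith [(qb y s).2.2.1]
    · have := key v.2 (min x.2 y.2) (by omega)
      have := key w.2 (min x.2 y.2) (by omega)
      constructor
      · linarith [(qb v s).2.2.2]
      · linarith [(qb w s).2.2.2]

end Pool.Agent.Lib.MP_17cbde_lc
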