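import Mathlib
import Pool.Agent.Lib.MP_17cbde_lc.Flat
import Pool.Agent.Lib.MP_17cbde_lc.GeoTri

namespace Pool.Agent.Lib.MP_17cbde_lc

open Classical

/-- the edges of an open polygonal chain -/
noncomputable def chainE : List Plane → List (Sym2 Plane)
  | a :: b :: l => s(a, b) :: chainE (b :: l)
  | _ => []

theorem chainE_eq (l : List Plane) : chainE l = List.zipWith (fun a b => s(a, b)) l l.tail := by
  induction l with
  | nil => rfl
  | cons a l ih =>
    cases l with
    | nil => rfl
    | cons b l => simp [chainE] at ih ⊢; exact ih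

theorem chainE_append (l : List Plane) (a v : Plane) :
    chainE (l ++ [a, v]) = chainE (l ++ [a]) ++ [s(a, v)] := by
  induction l with
  | nil => rfl
  | cons b l ih =>
    cases l with
    | nil => rfl
    | cons c l =>
      simp only [List.cons_append, chainE] at ih ⊢
      rw [ih]

theorem zipWith_append_right (l : List Plane) (b x : Plane) :
    List.zipWith (fun a b => s(a, b)) (b :: l) (l ++ [x]) =
      chainE (b :: l) ++ [s((b :: l).getLast (by simp), x)] := by
  induction l generalizing b with
  | nil => simp [chainE]
  | cons c l ih =>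
    have := ih c
    simp only [List.cons_append, List.zipWith_cons_cons, this, chainE]
    simp

theorem polygonEdges_form (b a : Plane) (m : List Plane) :
    polygonEdges (b :: m ++ [a]) = chainE (b :: m ++ [a]) ++ [s(a, b)] := by
  unfold polygonEdges
  have h1 : (b :: m ++ [a]).rotate 1 = (m ++ [a]) ++ [b] := by
    simp [List.rotate_cons_succ]
  rw [h1]
  have := zipWith_append_right (m ++ [a]) b b
  simpa using this

theorem polygonEdges_append (b a v : Plane) (m : List Plane) :
    polygonEdges ((b :: m ++ [a]) ++ [v]) = chainE (b :: m ++ [a]) ++ [s(a, v), s(v, b)] := by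
  have h : (b :: m ++ [a]) ++ [v] = b :: (m ++ [a]) ++ [v] := by simp
  rw [h, polygonEdges_form]
  have h2 : b :: (m ++ [a]) ++ [v] = (b :: m) ++ [a, v] := by simp
  rw [h2, chainE_append]
  simp

/-- simple polygon with a triangulation and the right number of edges -/
structure Tri (l : List Plane) (T : Finset (Finset Plane)) : Prop where
  simple : IsSimplePolygon l
  triang : IsTriangulation l T
  card : (T.biUnion sides).card + 3 = 2 * l.length

theorem sides_triple {a b v : Plane} (hab : a ≠ b) (hav : a ≠ v) (hbv : b ≠ v) :
    sides ({a, b, v} : Finset Plane) = {s(a, b), s(a, v), s(b, v)} := by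
  ext e
  induction e using Sym2.ind with
  | _ x y =>
    rw [mem_sides]
    simp only [Finset.mem_insert, Finset.mem_singleton, Sym2.eq_iff]
    constructor
    · rintro ⟨rfl | rfl | rfl, rfl | rfl | rfl, h⟩ <;> simp_all
    · rintro ((⟨rfl, rfl⟩ | ⟨rfl, rfl⟩) | (⟨rfl, rfl⟩ | ⟨rfl, rfl⟩) | (⟨rfl, rfl⟩ | ⟨rfl, rfl⟩)) <;>
        simp_all [Ne.symm]

theorem mem_region_of_sides {t : Finset Plane} {e : Sym2 Plane} (h : e ∈ sides t) :
    seg e ⊆ region t := by
  induction e using Sym2.ind with
  | _ a b =>
    obtain ⟨h1, h2, -⟩ := mem_sides.1 h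
    rw [seg_mk]
    exact segment_subset_convexHull (by exact_mod_cast h1) (by exact_mod_cast h2)

theorem glue_core {b a v : Plane} {m : List Plane} {T : Finset (Finset Plane)}
    (h : Tri (b :: m ++ [a]) T) (hv : v ∉ b :: m ++ [a]) (hnd : area2 a b v ≠ 0)
    (hreg : ∀ t ∈ T, region t ∩ region {a, b, v} ⊆ segment ℝ a b) :
    Tri ((b :: m ++ [a]) ++ [v]) (insert {a, b, v} T) := by
  set l := b :: m ++ [a] with hl
  have hPl : polygonEdges l = chainE l ++ [s(a, b)] := polygonEdges_form b a m
  have hPl' : polygonEdges (l ++ [v]) = chainE l ++ [s(a, v), s(v, b)] :=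
    polygonEdges_append b a v m
  have hal : a ∈ l := by simp [hl]
  have hbl : b ∈ l := by simp [hl]
  have hlen := h.simple.three_le
  have hab : a ≠ b := by
    rintro rfl; apply hnd; unfold area2; ring
  have hav : a ≠ v := by rintro rfl; exact hv hal
  have hbv : b ≠ v := by rintro rfl; exact hv hbl
  have hsides := sides_triple hab hav hbv
  have hvT : ∀ t ∈ T, v ∉ t := fun t ht hvt => hv (List.mem_toFinset.1 ((h.triang.vertices t ht).1 hvt))
  have hTnot : ({a, b, v} : Finset Plane) ∉ T := fun hm => hvT _ hm (by simp)
  -- polygon edges lie in regions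
  have hedge : ∀ e ∈ polygonEdges l, ∃ t ∈ T, e ∈ sides t := by
    intro e he
    have h1 := h.triang.boundary e he
    obtain ⟨t, ht⟩ := Finset.card_pos.1 (by omega : 0 < (T.filter fun t => e ∈ sides t).card)
    exact ⟨t, (Finset.mem_filter.1 ht).1, (Finset.mem_filter.1 ht).2⟩
  have habE : s(a, b) ∈ polygonEdges l := by rw [hPl]; simp
  have hvE : ∀ e ∈ polygonEdges l, v ∉ e := by
    intro e he hve
    obtain ⟨x, y, hx, hy, -, rfl⟩ := polygonEdges_ne (by omega) h.simple.nodup he
    rw [Sym2.mem_iff] at hve
    rcases hve with rfl | rfl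
    · exact hv hx
    · exact hv hy
  have hnodup := h.simple.edges_nodup
  have hsimp := h.simple.simple
  rw [hPl] at hsimp hnodup
  rw [List.pairwise_append] at hsimp
  have hab_chain : s(a, b) ∉ chainE l := by
    rw [List.nodup_append] at hnodup
    intro hm
    exact hnodup.2.2 _ hm _ (by simp) rfl
  -- intersections with the new edges
  have hinter_a : ∀ e ∈ chainE l, ∀ x ∈ seg e ∩ seg s(a, v), x ∈ e ∧ x ∈ s(a, v) := by
    rintro e he x ⟨hx1, hx2⟩
    obtain ⟨t, ht, het⟩ := hedge e (by rw [hPl]; exact List.mem_append_left _ he)
    have hxr : x ∈ region t := mem_region_of_sides het hx1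
    have hxr2 : x ∈ region ({a, b, v} : Finset Plane) :=
      mem_region_of_sides (by rw [hsides]; simp) hx2
    have hxab := hreg t ht ⟨hxr, hxr2⟩
    rw [seg_mk] at hx2
    have hxa : x = a := seg_inter hnd hxab hx2
    subst hxa
    refine ⟨?_, by simp⟩
    exact (hsimp.2.2 e he s(x, b) (by simp) x ⟨hx1, by rw [seg_mk]; exact left_mem_segment ℝ _ _⟩).1
  have hinter_b : ∀ e ∈ chainE l, ∀ x ∈ seg e ∩ seg s(v, b), x ∈ e ∧ x ∈ s(v, b) := by
    rintro e he x ⟨hx1, hx2⟩
    obtain ⟨t, ht, het⟩ := hedge e (by rw [hPl]; exact List.mem_append_left _ he)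
    have hxr : x ∈ region t := mem_region_of_sides het hx1
    have hxr2 : x ∈ region ({a, b, v} : Finset Plane) :=
      mem_region_of_sides (by rw [hsides, Sym2.eq_swap]; simp) hx2
    have hxab := hreg t ht ⟨hxr, hxr2⟩
    rw [seg_mk, segment_symm] at hx2
    rw [segment_symm] at hxab
    have hxb : x = b := seg_inter (by rw [area2_swap]; exact neg_ne_zero.2 hnd) hxab hx2
    subst hxb
    refine ⟨?_, by simp⟩
    exact (hsimp.2.2 e he s(a, x) (by simp) x ⟨hx1, by rw [seg_mk]; exact right_mem_segment ℝ _ _⟩).1
  have hinter_v : ∀ x ∈ seg s(a, v) ∩ seg s(v, b), x ∈ s(a, v) ∧ x ∈ s(v, b) := by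
    rintro x ⟨hx1, hx2⟩
    rw [seg_mk] at hx1 hx2
    rw [segment_symm] at hx1
    have hxv : x = v := seg_inter (a := v) (b := a) (c := b)
      (by rw [← area2_rot] at hnd; rw [← area2_rot] at hnd; exact hnd) hx1 hx2
    subst hxv
    exact ⟨by simp, by simp⟩
  refine ⟨⟨by simp; omega, ?_, ?_⟩, ⟨?_, ?_, ?_, ?_, ?_⟩, ?_⟩
  · -- nodup
    rw [List.nodup_append]
    refine ⟨h.simple.nodup, by simp, ?_⟩
    intro x hx y hy
    simp only [List.mem_singleton] at hy
    rw [hy]
    rintro rfl
    exact hv hx
  · -- simple
    rw [hPl', List.pairwise_append]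
    refine ⟨hsimp.1, ?_, ?_⟩
    · simp only [List.pairwise_cons, List.mem_singleton, forall_eq, List.not_mem_nil,
        IsEmpty.forall_iff, implies_true, List.Pairwise.nil, and_true]
      exact hinter_v
    · intro e he f hf
      simp only [List.mem_cons, List.not_mem_nil, or_false] at hf
      rcases hf with rfl | rfl
      · exact hinter_a e he
      · exact hinter_b e he
  · -- vertices
    intro t ht
    rcases Finset.mem_insert.1 ht with rfl | ht
    · refine ⟨?_, ?_⟩
      · intro x hx
        simp only [Finset.mem_insert, Finset.mem_singleton] at hx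
        rw [List.mem_toFinset, List.mem_append]
        rcases hx with rfl | rfl | rfl
        · exact Or.inl hal
        · exact Or.inl hbl
        · exact Or.inr (by simp)
      · rw [Finset.card_insert_of_notMem (by simp [hab, hav]), Finset.card_pair hbv]
    · refine ⟨?_, (h.triang.vertices t ht).2⟩
      intro x hx
      have := (h.triang.vertices t ht).1 hx
      rw [List.mem_toFinset] at this ⊢
      exact List.mem_append_left _ this
  · -- nondegenerate
    intro t ht
    rcases Finset.mem_insert.1 ht with rfl | ht
    · rw [region_triple]; exact interior_hull_nonempty hnd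
    · exact h.triang.nondegenerate t ht
  · -- disjoint
    have key : ∀ t ∈ T, Disjoint (interior (region t)) (interior (region {a, b, v})) := by
      intro t ht
      rw [Set.disjoint_iff_inter_eq_empty, ← interior_inter]
      apply Set.eq_empty_of_subset_empty
      calc interior (region t ∩ region {a, b, v}) ⊆ interior (segment ℝ a b) :=
            interior_mono (hreg t ht)
        _ = ∅ := interior_segment_empty a b
    intro t ht t' ht' hne
    rcases Finset.mem_insert.1 ht with rfl | ht <;> rcases Finset.mem_insert.1 ht' with rfl | ht'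
    · exact absurd rfl hne
    · exact (key t' ht').symm
    · exact key t ht
    · exact h.triang.disjoint t ht t' ht' hne
  · -- boundary
    intro e he
    rw [hPl'] at he
    rcases List.mem_append.1 he with he | he
    · have hne : e ∉ sides ({a, b, v} : Finset Plane) := by
        rw [hsides]
        simp only [Finset.mem_insert, Finset.mem_singleton, not_or]
        have hve := hvE e (by rw [hPl]; exact List.mem_append_left _ he)
        refine ⟨?_, ?_, ?_⟩
        · rintro rfl; exact hab_chain he
        · rintro rfl; exact hve (by simp)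
        · rintro rfl; exact hve (by simp)
      rw [Finset.filter_insert, if_neg hne]
      exact h.triang.boundary e (by rw [hPl]; exact List.mem_append_left _ he)
    · have hin : e ∈ sides ({a, b, v} : Finset Plane) ∧ v ∈ e := by
        simp only [List.mem_cons, List.not_mem_nil, or_false] at he
        rcases he with rfl | rfl
        · rw [hsides]; simp
        · rw [hsides, Sym2.eq_swap]; simp
      rw [Finset.filter_insert, if_pos hin.1]
      have : T.filter (fun t => e ∈ sides t) = ∅ := by
        rw [Finset.filter_eq_empty_iff]
        intro t ht het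
        obtain ⟨-, hve⟩ := hin
        induction e using Sym2.ind with
        | _ x y =>
          obtain ⟨h1, h2, -⟩ := mem_sides.1 het
          rw [Sym2.mem_iff] at hve
          rcases hve with rfl | rfl
          · exact hvT t ht h1
          · exact hvT t ht h2
      rw [this]
      simp
  · -- inner
    intro e he
    rw [hPl'] at he
    simp only [List.mem_append, List.mem_cons, List.not_mem_nil, or_false, not_or] at he
    obtain ⟨he1, he2, he3⟩ := he
    by_cases heab : e = s(a, b)
    · subst heab
      right
      rw [Finset.filter_insert, if_pos (by rw [hsides]; simp), Finset.card_insert_of_notMem,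
        h.triang.boundary _ habE]
      intro hm
      exact hTnot (Finset.mem_filter.1 hm).1
    · have hne : e ∉ sides ({a, b, v} : Finset Plane) := by
        rw [hsides]
        simp only [Finset.mem_insert, Finset.mem_singleton, not_or]
        exact ⟨heab, he2, by rw [Sym2.eq_swap]; exact he3⟩
      rw [Finset.filter_insert, if_neg hne]
      apply h.triang.inner
      rw [hPl]
      simp only [List.mem_append, List.mem_singleton, not_or]
      exact ⟨he1, heab⟩
  · -- card
    rw [Finset.biUnion_insert, hsides]
    obtain ⟨t, ht, het⟩ := hedge _ habE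
    have hunion : ({s(a, b), s(a, v), s(b, v)} : Finset (Sym2 Plane)) ∪ T.biUnion sides =
        insert s(a, v) (insert s(b, v) (T.biUnion sides)) := by
      ext e
      simp only [Finset.mem_union, Finset.mem_insert, Finset.mem_singleton]
      constructor
      · rintro ((rfl | rfl | rfl) | h)
        · right; right; exact Finset.mem_biUnion.2 ⟨t, ht, het⟩
        · left; rfl
        · right; left; rfl
        · right; right; exact h
      · rintro (rfl | rfl | h)
        · left; right; left; rfl
        · left; right; right; rfl
        · right; exact h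
    have hnot : ∀ x, s(x, v) ∉ T.biUnion sides := by
      intro x hm
      obtain ⟨t, ht, het⟩ := Finset.mem_biUnion.1 hm
      exact hvT t ht (mem_sides.1 het).2.1
    rw [hunion, Finset.card_insert_of_notMem, Finset.card_insert_of_notMem (hnot b)]
    · have := h.card
      simp only [List.length_append, List.length_singleton] at *
      omega
    · simp only [Finset.mem_insert, not_or]
      refine ⟨?_, hnot a⟩
      rw [Sym2.eq_iff]
      rintro (⟨rfl, -⟩ | ⟨rfl, -⟩)
      · exact hab rfl
      · exact hav rfl

end Pool.Agent.Lib.MP_17cbde_lc
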