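import Mathlib
import Pool.Agent.Lib.MP_17cbde_lc.Glue

namespace Pool.Agent.Lib.MP_17cbde_lc

open Classical

theorem polygonEdges_rotate (l : List Plane) (k : ℕ) :
    polygonEdges (l.rotate k) = (polygonEdges l).rotate k := by
  unfold polygonEdges
  rw [List.zipWith_rotate_distrib _ _ _ _ (by simp), List.rotate_rotate, List.rotate_rotate,
    add_comm]

theorem Tri.rotate {l : List Plane} {T : Finset (Finset Plane)} (h : Tri l T) (k : ℕ) :
    Tri (l.rotate k) T := by
  have hmem : ∀ e, e ∈ polygonEdges (l.rotate k) ↔ e ∈ polygonEdges l := by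
    intro e
    rw [polygonEdges_rotate, List.mem_rotate]
  refine ⟨⟨by simpa using h.simple.three_le, List.nodup_rotate.2 h.simple.nodup, ?_⟩,
    ⟨?_, h.triang.nondegenerate, h.triang.disjoint, ?_, ?_⟩, by simpa using h.card⟩
  · rw [polygonEdges_rotate]
    refine (List.Perm.pairwise_iff ?_ (List.rotate_perm _ _)).2 h.simple.simple
    intro e f hef x hx
    exact (hef x ⟨hx.2, hx.1⟩).symm
  · intro t ht
    refine ⟨?_, (h.triang.vertices t ht).2⟩
    intro x hx
    have := (h.triang.vertices t ht).1 hx
    rw [List.mem_toFinset] at this ⊢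
    exact List.mem_rotate.2 this
  · intro e he
    exact h.triang.boundary e ((hmem e).1 he)
  · intro e he
    exact h.triang.inner e (fun h' => he ((hmem e).2 h'))

theorem list_form {L : List Plane} (h : 2 ≤ L.length) :
    ∃ m, L = L[0] :: m ++ [L[L.length - 1]] := by
  rcases L with _ | ⟨b, L⟩
  · simp at h
  · rcases L.eq_nil_or_concat with rfl | ⟨m, a, rfl⟩
    · simp at h
    · refine ⟨m, ?_⟩
      simp

theorem glue {l : List Plane} {T : Finset (Finset Plane)} (h : Tri l T) {a b v : Plane}
    (he : s(a, b) ∈ polygonEdges l) (hv : v ∉ l) (hnd : area2 a b v ≠ 0)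
    (hreg : ∀ t ∈ T, region t ∩ region {a, b, v} ⊆ segment ℝ a b) :
    ∃ l', Tri l' (insert {a, b, v} T) ∧ (∀ x, x ∈ l' ↔ x ∈ l ∨ x = v) ∧
      s(a, v) ∈ polygonEdges l' ∧ s(b, v) ∈ polygonEdges l' ∧
      ∀ e ∈ polygonEdges l, e ≠ s(a, b) → e ∈ polygonEdges l' := by
  obtain ⟨i, hi, hab⟩ := mem_polygonEdges.1 he
  have hlen := h.simple.three_le
  obtain ⟨m, hm⟩ := list_form (L := l.rotate (i + 1)) (by simp; omega)
  have h0 : (l.rotate (i + 1))[0]'(by simp; omega) = l[(i + 1) % l.length]'(Nat.mod_lt _ (by omega)) := by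
    rw [List.getElem_rotate]
    simp
  have h1 : (l.rotate (i + 1))[(l.rotate (i + 1)).length - 1]'(by simp; omega) = l[i] := by
    rw [List.getElem_rotate]
    congr 1
    simp only [List.length_rotate]
    rw [show l.length - 1 + (i + 1) = i + l.length by omega, Nat.add_mod_right,
      Nat.mod_eq_of_lt hi]
  rw [h0, h1] at hm
  set b' := l[(i + 1) % l.length]'(Nat.mod_lt _ (by omega)) with hb'
  set a' := l[i] with ha'
  have hT := h.rotate (i + 1)
  rw [hm] at hT
  have hmemrot : ∀ x, x ∈ b' :: m ++ [a'] ↔ x ∈ l := by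
    intro x
    rw [← hm, List.mem_rotate]
  have main : ∀ (hnd' : area2 a' b' v ≠ 0)
      (hreg' : ∀ t ∈ T, region t ∩ region {a', b', v} ⊆ segment ℝ a' b'),
      ∃ l', Tri l' (insert {a', b', v} T) ∧ (∀ x, x ∈ l' ↔ x ∈ l ∨ x = v) ∧
      s(a', v) ∈ polygonEdges l' ∧ s(b', v) ∈ polygonEdges l' ∧
      ∀ e ∈ polygonEdges l, e ≠ s(a', b') → e ∈ polygonEdges l' := by
    intro hnd' hreg'
    refine ⟨(b' :: m ++ [a']) ++ [v], glue_core hT ?_ hnd' hreg', ?_, ?_, ?_, ?_⟩
    · rw [hmemrot]; exact hv
    · intro x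
      rw [List.mem_append, hmemrot, List.mem_singleton]
    · rw [polygonEdges_append]; simp
    · rw [polygonEdges_append, Sym2.eq_swap]; simp
    · intro e he1 he2
      have he3 : e ∈ polygonEdges (b' :: m ++ [a']) := by
        rw [← hm, polygonEdges_rotate, List.mem_rotate]; exact he1
      rw [polygonEdges_form] at he3
      rw [polygonEdges_append]
      rcases List.mem_append.1 he3 with he3 | he3
      · exact List.mem_append_left _ he3
      · exact absurd (List.mem_singleton.1 he3) he2
  rw [Sym2.eq_iff] at hab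
  rcases hab with ⟨h2, h3⟩ | ⟨h2, h3⟩
  · obtain ⟨l', k1, k2, k3, k4, k5⟩ := main (by rw [← h2, ← h3]; exact hnd)
      (by rw [← h2, ← h3]; exact hreg)
    rw [← h2, ← h3] at k1 k5
    rw [← h2] at k3
    rw [← h3] at k4
    exact ⟨l', k1, k2, k3, k4, k5⟩
  · have hset : ({a, b, v} : Finset Plane) = {b, a, v} := Finset.insert_comm _ _ _
    obtain ⟨l', k1, k2, k3, k4, k5⟩ := main (by
        rw [← h2, ← h3, area2_swap]; exact neg_ne_zero.2 hnd) (by
        intro t ht
        rw [← h2, ← h3, ← hset, segment_symm]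
        exact hreg t ht)
    rw [← h2, ← h3, ← hset] at k1
    rw [← h2, ← h3] at k5
    rw [← h3] at k3
    rw [← h2] at k4
    exact ⟨l', k1, k2, k4, k3, fun e h1 h2 => k5 e h1 (by rw [Sym2.eq_swap]; exact h2)⟩

/-- a single non-degenerate triangle -/
theorem Tri.base {a b c : Plane} (h : area2 a b c ≠ 0) : Tri [a, b, c] {{a, b, c}} := by
  have hab : a ≠ b := by rintro rfl; apply h; unfold area2; ring
  have hac : a ≠ c := by rintro rfl; apply h; unfold area2; ring
  have hbc : b ≠ c := by rintro rfl; apply h; unfold area2; ring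
  have hsides := sides_triple hab hac hbc
  have hP : polygonEdges [a, b, c] = [s(a, b), s(b, c), s(c, a)] := rfl
  have hcb : area2 b c a ≠ 0 := by rw [area2_rot]; exact h
  have hca : area2 c a b ≠ 0 := by rw [area2_rot, area2_rot]; exact h
  refine ⟨⟨by simp, ?_, ?_⟩, ⟨?_, ?_, ?_, ?_, ?_⟩, ?_⟩
  · simp [hab, hac, hbc]
  · rw [hP]
    simp only [List.pairwise_cons, List.mem_cons, List.not_mem_nil, or_false, forall_eq_or_imp,
      forall_eq, IsEmpty.forall_iff, implies_true, List.Pairwise.nil, and_true, seg_mk]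
    refine ⟨⟨?_, ?_⟩, ?_⟩
    · rintro x ⟨h1, h2⟩
      rw [segment_symm] at h1
      have : x = b := seg_inter (by
        intro h0
        apply h
        unfold area2 at *
        linarith) h1 h2
      subst this
      simp
    · rintro x ⟨h1, h2⟩
      rw [segment_symm ℝ c a] at h2
      have : x = a := seg_inter h h1 h2
      subst this
      simp
    · rintro x ⟨h1, h2⟩
      rw [segment_symm] at h1
      have : x = c := seg_inter (by
        intro h0
        apply h
        unfold area2 at *
        linarith) h1 h2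
      subst this
      simp
  · intro t ht
    rw [Finset.mem_singleton] at ht
    subst ht
    refine ⟨?_, ?_⟩
    · intro x hx
      simpa using hx
    · rw [Finset.card_insert_of_notMem (by simp [hab, hac]), Finset.card_pair hbc]
  · intro t ht
    rw [Finset.mem_singleton] at ht
    subst ht
    rw [region_triple]
    exact interior_hull_nonempty h
  · intro t ht t' ht' hne
    rw [Finset.mem_singleton] at ht ht'
    exact absurd (ht.trans ht'.symm) hne
  · intro e he
    rw [hP] at he
    simp only [List.mem_cons, List.not_mem_nil, or_false] at he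
    rw [Finset.filter_singleton, if_pos, Finset.card_singleton]
    rw [hsides]
    rcases he with rfl | rfl | rfl
    · simp
    · simp
    · rw [Sym2.eq_swap]; simp
  · intro e he
    left
    rw [hP] at he
    simp only [List.mem_cons, List.not_mem_nil, or_false, not_or] at he
    rw [Finset.filter_singleton, if_neg, Finset.card_empty]
    rw [hsides]
    simp only [Finset.mem_insert, Finset.mem_singleton, not_or]
    exact ⟨he.1, fun h => he.2.2 (by rw [h, Sym2.eq_swap]), he.2.1⟩
  · rw [Finset.singleton_biUnion, hsides, Finset.card_insert_of_notMem, Finset.card_pair]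
    · rfl
    · rw [Ne, Sym2.eq_iff]; rintro (⟨h1, -⟩ | ⟨h1, -⟩)
      · exact hab h1
      · exact hac h1
    · simp only [Finset.mem_insert, Finset.mem_singleton, not_or, Sym2.eq_iff]
      refine ⟨⟨fun h1 => hbc h1.2, fun h1 => hac h1.1⟩, ⟨fun h1 => hab h1.1, fun h1 => hac h1.1⟩⟩

end Pool.Agent.Lib.MP_17cbde_lc
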