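import Mathlib
import Pool.Agent.Lib.MP_17cbde_lc.Glue2
import Pool.Agent.Lib.MP_17cbde_lc.Frame
import Pool.Agent.Lib.MP_17cbde_lc.WeightStruct

namespace Pool.Agent.Lib.MP_17cbde_lc

open Classical

/-- Adding two triangles `{a,b,y₁}` and `{z,y₁,y₂}` with `z ∈ {a,b}`. -/
theorem add2 {l : List Plane} {T : Finset (Finset Plane)} (h : Tri l T) {a b z y1 y2 : Plane}
    (hz : z = a ∨ z = b) (he : s(a, b) ∈ polygonEdges l) (hy1 : y1 ∉ l) (hy2 : y2 ∉ l)
    (hy : y2 ≠ y1) (ha1 : area2 a b y1 ≠ 0) (ha2 : area2 z y1 y2 ≠ 0)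
    (hr1 : ∀ t ∈ T, region t ∩ region {a, b, y1} ⊆ segment ℝ a b)
    (hr2 : ∀ t ∈ T, region t ∩ region {z, y1, y2} ⊆ segment ℝ z y1)
    (hr3 : region {a, b, y1} ∩ region {z, y1, y2} ⊆ segment ℝ z y1) :
    ∃ l', Tri l' (insert {z, y1, y2} (insert {a, b, y1} T)) ∧
      (∀ x, x ∈ l' ↔ x ∈ l ∨ x = y1 ∨ x = y2) ∧ s(y1, y2) ∈ polygonEdges l' := by
  obtain ⟨l1, k1, k2, k3, k4, k5⟩ := glue h he hy1 ha1 hr1
  have he2 : s(z, y1) ∈ polygonEdges l1 := by
    rcases hz with rfl | rfl
    · exact k3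
    · exact k4
  obtain ⟨l2, m1, m2, m3, m4, m5⟩ := glue k1 he2 (by rw [k2]; rintro (h | h); exacts [hy2 h, hy h])
    ha2 (by
      intro t ht
      rcases Finset.mem_insert.1 ht with rfl | ht
      · exact hr3
      · exact hr2 t ht)
  refine ⟨l2, m1, ?_, m4⟩
  intro x
  rw [m2, k2]
  tauto

/-- membership in the quadrilateral of the link `(v,x)`, with side `c` at `v` -/
def InQ (M : ℕ) (v x : ℕ × ℕ) (c : Bool) (t : Finset Plane) : Prop :=
  (∃ δ, Algn v x δ ∧ (t = {q M v false, q M v true, q M x c} ∨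
    t = {q M x false, q M x true, q M v δ})) ∨
  (∃ τ, Perp v x τ ∧ (t = {q M v false, q M v true, q M x (!τ)} ∨
    ∃ c', t = {q M x false, q M x true, q M v c'}))

section sepLemmas

variable {M : ℕ}

/-- link perpendicular to the pair of `v` -/
theorem perp_new (hM : 3 ≤ M) {v w : ℕ × ℕ} {τ : Bool} (h : Perp v w τ) (s : Bool) :
    0 < sg τ * cB M v (q M w s) := by
  have hM' : (3 : ℝ) ≤ M := by exact_mod_cast hM
  rw [(h.coords s).2]
  rcases sg_cases τ with e | e <;> rcases sg_cases s with e' | e' <;> rw [e, e'] <;> linarith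

theorem sepI (hM : 3 ≤ M) {v w x : ℕ × ℕ} {τ c : Bool} (hw : Perp v w τ) (hxw : x ≠ w)
    (hc : ∀ δ, Algn v x δ → c = !τ) {t : Finset Plane} (ht : InQ M v x c t) :
    ∃ f, IsAff f ∧ ∃ C, (∀ p ∈ t, f p ≤ C) ∧ (∀ s, C ≤ f (q M v s)) ∧ (∀ s, C < f (q M w s)) := by
  have hM' : (3 : ℝ) ≤ M := by exact_mod_cast hM
  rcases ht with ⟨δ, hδ, rfl | rfl⟩ | ⟨τ', hτ', ht⟩
  · refine ⟨_, (isAff_cB M v).smul (sg τ), 0, ?_, ?_, fun s => perp_new hM hw s⟩
    · intro p hp
      simp only [Finset.mem_insert, Finset.mem_singleton] at hp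
      rcases hp with rfl | rfl | rfl
      · rw [cB_self]; simp
      · rw [cB_self]; simp
      · rw [(hδ.coords c).2, hc δ hδ, sg_not]
        have := sg_sq τ
        nlinarith
    · intro s; rw [cB_self]; simp
  · refine ⟨_, (isAff_cA M v).smul (-sg δ), -1, ?_, ?_, ?_⟩
    · intro p hp
      simp only [Finset.mem_insert, Finset.mem_singleton] at hp
      have := sg_sq δ
      rcases hp with rfl | rfl | rfl
      · rw [(hδ.coords false).1]; nlinarith
      · rw [(hδ.coords true).1]; nlinarith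
      · rw [cA_self]; nlinarith
    · intro s; rw [cA_self]
      rcases sg_cases δ with e | e <;> rcases sg_cases s with e' | e' <;> rw [e, e'] <;> norm_num
    · intro s; rw [(hw.coords s).1]; simp
  · have hττ' : τ' = !τ := by
      by_contra hne
      have : τ' = τ := by cases τ <;> cases τ' <;> simp_all
      subst this
      exact hxw (hτ'.uniq hw)
    subst hττ'
    refine ⟨_, (isAff_cB M v).smul (sg τ), 0, ?_, ?_, fun s => perp_new hM hw s⟩
    · have key : ∀ s, sg τ * cB M v (q M x s) ≤ 0 := by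
        intro s
        rw [(hτ'.coords s).2, sg_not]
        rcases sg_cases τ with e | e <;> rcases sg_cases s with e' | e' <;> rw [e, e'] <;> linarith
      intro p hp
      rcases ht with rfl | ⟨c', rfl⟩
      · simp only [Finset.mem_insert, Finset.mem_singleton] at hp
        rcases hp with rfl | rfl | rfl
        · rw [cB_self]; simp
        · rw [cB_self]; simp
        · exact key _
      · simp only [Finset.mem_insert, Finset.mem_singleton] at hp
        rcases hp with rfl | rfl | rfl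
        · exact key _
        · exact key _
        · rw [cB_self]; simp
    · intro s; rw [cB_self]; simp

theorem sepII1 (hM : 3 ≤ M) {v w x : ℕ × ℕ} {δ σ c : Bool} (hw : Algn v w δ) (hxw : x ≠ w)
    (hc1 : ∀ τ, Perp v x τ → σ = !τ) (hc2 : ∀ δ', Algn v x δ' → c = !σ)
    {t : Finset Plane} (ht : InQ M v x c t) :
    ∃ f, IsAff f ∧ ∃ C, (∀ p ∈ t, f p ≤ C) ∧ (∀ s, C ≤ f (q M v s)) ∧ C < f (q M w σ) := by
  have hM' : (3 : ℝ) ≤ M := by exact_mod_cast hM
  have new1 : 0 < sg σ * cB M v (q M w σ) := by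
    rw [(hw.coords σ).2, sg_sq]; norm_num
  rcases ht with ⟨δ', hδ', rfl | rfl⟩ | ⟨τ, hτ, ht⟩
  · refine ⟨_, (isAff_cB M v).smul (sg σ), 0, ?_, ?_, new1⟩
    · intro p hp
      simp only [Finset.mem_insert, Finset.mem_singleton] at hp
      rcases hp with rfl | rfl | rfl
      · rw [cB_self]; simp
      · rw [cB_self]; simp
      · rw [(hδ'.coords c).2, hc2 δ' hδ', sg_not]
        have := sg_sq σ
        nlinarith
    · intro s; rw [cB_self]; simp
  · have hδδ' : δ' = !δ := by
      by_contra hne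
      have : δ' = δ := by cases δ <;> cases δ' <;> simp_all
      subst this
      exact hxw (hδ'.uniq hw)
    subst hδδ'
    refine ⟨_, (isAff_cA M v).smul (sg δ), -1, ?_, ?_, ?_⟩
    · intro p hp
      simp only [Finset.mem_insert, Finset.mem_singleton] at hp
      have := sg_sq δ
      rcases hp with rfl | rfl | rfl
      · rw [(hδ'.coords false).1, sg_not]; nlinarith
      · rw [(hδ'.coords true).1, sg_not]; nlinarith
      · rw [cA_self, sg_not]; nlinarith
    · intro s; rw [cA_self]
      rcases sg_cases δ with e | e <;> rcases sg_cases s with e' | e' <;> rw [e, e'] <;> norm_num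
    · rw [(hw.coords σ).1]
      have := sg_sq δ
      nlinarith
  · refine ⟨_, (isAff_cB M v).smul (sg σ), 0, ?_, ?_, new1⟩
    · have key : ∀ s, sg σ * cB M v (q M x s) ≤ 0 := by
        intro s
        rw [(hτ.coords s).2, hc1 τ hτ, sg_not]
        rcases sg_cases τ with e | e <;> rcases sg_cases s with e' | e' <;> rw [e, e'] <;> linarith
      intro p hp
      rcases ht with rfl | ⟨c', rfl⟩
      · simp only [Finset.mem_insert, Finset.mem_singleton] at hp
        rcases hp with rfl | rfl | rfl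
        · rw [cB_self]; simp
        · rw [cB_self]; simp
        · exact key _
      · simp only [Finset.mem_insert, Finset.mem_singleton] at hp
        rcases hp with rfl | rfl | rfl
        · exact key _
        · exact key _
        · rw [cB_self]; simp
    · intro s; rw [cB_self]; simp

theorem sepII2 (hM : 3 ≤ M) {v w x : ℕ × ℕ} {δ c : Bool} (hw : Algn v w δ) (hxw : x ≠ w)
    {t : Finset Plane} (ht : InQ M v x c t) :
    ∃ f, IsAff f ∧ ∃ C, (∀ p ∈ t, f p ≤ C) ∧ C ≤ f (q M v δ) ∧ (∀ s, C < f (q M w s)) := by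
  have hM' : (3 : ℝ) ≤ M := by exact_mod_cast hM
  have hself : ∀ s, sg δ * cA M v (q M v s) ≤ 1 := by
    intro s; rw [cA_self]
    rcases sg_cases δ with e | e <;> rcases sg_cases s with e' | e' <;> rw [e, e'] <;> norm_num
  have hx : ∀ s, sg δ * cA M v (q M x s) ≤ 1 := by
    intro s
    rcases ht with ⟨δ', hδ', -⟩ | ⟨τ, hτ, -⟩
    · have hδδ' : δ' = !δ := by
        by_contra hne
        have : δ' = δ := by cases δ <;> cases δ' <;> simp_all
        subst this
        exact hxw (hδ'.uniq hw)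
      subst hδδ'
      rw [(hδ'.coords s).1, sg_not]
      have := sg_sq δ
      nlinarith
    · rw [(hτ.coords s).1]; simp
  refine ⟨_, (isAff_cA M v).smul (sg δ), 1, ?_, ?_, ?_⟩
  · intro p hp
    rcases ht with ⟨δ', -, rfl | rfl⟩ | ⟨τ, -, rfl | ⟨c', rfl⟩⟩ <;>
      simp only [Finset.mem_insert, Finset.mem_singleton] at hp
    · rcases hp with rfl | rfl | rfl
      · exact hself false
      · exact hself true
      · exact hx c
    · rcases hp with rfl | rfl | rfl
      · exact hx false
      · exact hx true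
      · exact hself δ'
    · rcases hp with rfl | rfl | rfl
      · exact hself false
      · exact hself true
      · exact hx (!τ)
    · rcases hp with rfl | rfl | rfl
      · exact hx false
      · exact hx true
      · exact hself c'
  · rw [cA_self, sg_sq]
  · intro s
    rw [(hw.coords s).1]
    have := sg_sq δ
    nlinarith

theorem q_ne_q (hM : 3 ≤ M) {v w : ℕ × ℕ} (h : v ≠ w) (s s' : Bool) : q M v s ≠ q M w s' :=
  fun h' => h (q_inj hM h').1

theorem q_self_ne (hM : 3 ≤ M) (v : ℕ × ℕ) {s s' : Bool} (h : s ≠ s') : q M v s ≠ q M v s' :=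
  fun h' => h (q_inj hM h').2

theorem Perp.ne {v w : ℕ × ℕ} {τ : Bool} (h : Perp v w τ) : v ≠ w := by
  rintro rfl
  unfold Perp at h
  split_ifs at h <;> cases τ <;> simp at h

theorem Algn.ne {v w : ℕ × ℕ} {τ : Bool} (h : Algn v w τ) : v ≠ w := by
  rintro rfl
  unfold Algn at h
  split_ifs at h <;> cases τ <;> simp at h

theorem geomI (hM : 3 ≤ M) {v w : ℕ × ℕ} {τ : Bool} (hw : Perp v w τ) (z : Bool) :
    area2 (q M v false) (q M v true) (q M w (!τ)) ≠ 0 ∧
    area2 (q M v z) (q M w (!τ)) (q M w τ) ≠ 0 ∧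
    region {q M v false, q M v true, q M w (!τ)} ∩ region {q M v z, q M w (!τ), q M w τ} ⊆
      segment ℝ (q M v z) (q M w (!τ)) := by
  have hM' : (3 : ℝ) ≤ M := by exact_mod_cast hM
  have hvw := hw.ne
  refine ⟨?_, ?_, ?_⟩
  · apply area2_ne (isAff_cB M v) (q_self_ne hM v (by simp))
    · rw [cB_self, cB_self]
    · rw [cB_self, (hw.coords (!τ)).2, sg_not]
      rcases sg_cases τ with e | e <;> rw [e] <;> intro h <;> linarith
  · have hg : IsAff fun p => (sg z * (M - 1)) * cA M v p + sg τ * cB M v p :=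
      (isAff_cA M v).comb (isAff_cB M v) _ _
    apply area2_ne hg (q_ne_q hM hvw _ _)
    · rw [cA_self, cB_self, (hw.coords (!τ)).1, (hw.coords (!τ)).2, sg_not]
      rcases sg_cases τ with e | e <;> rcases sg_cases z with e' | e' <;> rw [e, e'] <;> ring
    · rw [cA_self, cB_self, (hw.coords τ).1, (hw.coords τ).2]
      rcases sg_cases τ with e | e <;> rcases sg_cases z with e' | e' <;> rw [e, e'] <;>
        intro h <;> linarith
  · have hg : IsAff fun p => (sg z * (M - 1)) * cA M v p + sg τ * cB M v p :=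
      (isAff_cA M v).comb (isAff_cB M v) _ _
    refine sep (c := (M : ℝ) - 1) hg ?_ ?_ ?_ ?_
    · intro p hp
      simp only [Finset.mem_insert, Finset.mem_singleton] at hp
      rcases hp with rfl | rfl | rfl
      · rw [cA_self, cB_self]
        rcases sg_cases z with e' | e' <;> rw [e'] <;> simp <;> linarith
      · rw [cA_self, cB_self]
        rcases sg_cases z with e' | e' <;> rw [e'] <;> simp <;> linarith
      · rw [(hw.coords (!τ)).1, (hw.coords (!τ)).2, sg_not]
        rcases sg_cases τ with e | e <;> rw [e] <;> linarith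
    · rw [cA_self, cB_self]
      rcases sg_cases z with e' | e' <;> rw [e'] <;> linarith
    · rw [(hw.coords (!τ)).1, (hw.coords (!τ)).2, sg_not]
      rcases sg_cases τ with e | e <;> rw [e] <;> linarith
    · rw [(hw.coords τ).1, (hw.coords τ).2]
      rcases sg_cases τ with e | e <;> rw [e] <;> linarith

theorem geomII (hM : 3 ≤ M) {v w : ℕ × ℕ} {δ : Bool} (hw : Algn v w δ) (σ : Bool) :
    area2 (q M v false) (q M v true) (q M w σ) ≠ 0 ∧
    area2 (q M v δ) (q M w σ) (q M w (!σ)) ≠ 0 ∧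
    region {q M v false, q M v true, q M w σ} ∩ region {q M v δ, q M w σ, q M w (!σ)} ⊆
      segment ℝ (q M v δ) (q M w σ) := by
  have hM' : (3 : ℝ) ≤ M := by exact_mod_cast hM
  have hvw := hw.ne
  have hg : IsAff fun p => sg δ * cA M v p + (-(sg σ * (M - 1))) * cB M v p :=
      (isAff_cA M v).comb (isAff_cB M v) _ _
  refine ⟨?_, ?_, ?_⟩
  · apply area2_ne (isAff_cB M v) (q_self_ne hM v (by simp))
    · rw [cB_self, cB_self]
    · rw [cB_self, (hw.coords σ).2]
      rcases sg_cases σ with e | e <;> rw [e] <;> norm_num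
  · apply area2_ne hg (q_ne_q hM hvw _ _)
    · rw [cA_self, cB_self, (hw.coords σ).1, (hw.coords σ).2]
      rcases sg_cases δ with e | e <;> rcases sg_cases σ with e' | e' <;> rw [e, e'] <;> ring
    · rw [cA_self, cB_self, (hw.coords (!σ)).1, (hw.coords (!σ)).2, sg_not]
      rcases sg_cases δ with e | e <;> rcases sg_cases σ with e' | e' <;> rw [e, e'] <;>
        intro h <;> linarith
  · refine sep (c := 1) hg ?_ ?_ ?_ ?_
    · intro p hp
      simp only [Finset.mem_insert, Finset.mem_singleton] at hp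
      rcases hp with rfl | rfl | rfl
      · rw [cA_self, cB_self]
        rcases sg_cases δ with e' | e' <;> rw [e'] <;> simp
      · rw [cA_self, cB_self]
        rcases sg_cases δ with e' | e' <;> rw [e'] <;> simp
      · rw [(hw.coords σ).1, (hw.coords σ).2]
        rcases sg_cases δ with e | e <;> rcases sg_cases σ with e' | e' <;> rw [e, e'] <;> linarith
    · rw [cA_self, cB_self]
      rcases sg_cases δ with e' | e' <;> rw [e'] <;> simp
    · rw [(hw.coords σ).1, (hw.coords σ).2]
      rcases sg_cases δ with e | e <;> rcases sg_cases σ with e' | e' <;> rw [e, e'] <;> linarith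
    · rw [(hw.coords (!σ)).1, (hw.coords (!σ)).2, sg_not]
      rcases sg_cases δ with e | e <;> rcases sg_cases σ with e' | e' <;> rw [e, e'] <;> linarith

end sepLemmas

/-- the partially built thick path -/
structure Built (M : ℕ) (L : List (ℕ × ℕ)) (v x : ℕ × ℕ) (c : Bool) (l : List Plane)
    (T : Finset (Finset Plane)) : Prop where
  tri : Tri l T
  mem : ∀ p, p ∈ l ↔ ∃ u ∈ L, ∃ s, p = q M u s
  head : pairEdge M v ∈ polygonEdges l
  tris : ∀ t ∈ T, InQ M v x c t ∨ ∃ x' ∈ L.tail, ∃ y' ∈ L.tail, GridAdj x' y' ∧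
    ∀ p ∈ t, ∃ s, p = q M x' s ∨ p = q M y' s
  pairs : ∀ u ∈ L, pairEdge M u ∈ T.biUnion sides

theorem InQ.form {M : ℕ} {v x : ℕ × ℕ} {c : Bool} {t : Finset Plane} (h : InQ M v x c t) :
    ∀ p ∈ t, ∃ s, p = q M v s ∨ p = q M x s := by
  rcases h with ⟨δ, -, rfl | rfl⟩ | ⟨τ, -, rfl | ⟨c', rfl⟩⟩
  · intro p hp
    simp only [Finset.mem_insert, Finset.mem_singleton] at hp
    rcases hp with rfl | rfl | rfl
    · exact ⟨false, Or.inl rfl⟩
    · exact ⟨true, Or.inl rfl⟩
    · exact ⟨c, Or.inr rfl⟩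
  · intro p hp
    simp only [Finset.mem_insert, Finset.mem_singleton] at hp
    rcases hp with rfl | rfl | rfl
    · exact ⟨false, Or.inr rfl⟩
    · exact ⟨true, Or.inr rfl⟩
    · exact ⟨δ, Or.inl rfl⟩
  · intro p hp
    simp only [Finset.mem_insert, Finset.mem_singleton] at hp
    rcases hp with rfl | rfl | rfl
    · exact ⟨false, Or.inl rfl⟩
    · exact ⟨true, Or.inl rfl⟩
    · exact ⟨!τ, Or.inr rfl⟩
  · intro p hp
    simp only [Finset.mem_insert, Finset.mem_singleton] at hp
    rcases hp with rfl | rfl | rfl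
    · exact ⟨false, Or.inr rfl⟩
    · exact ⟨true, Or.inr rfl⟩
    · exact ⟨c', Or.inl rfl⟩

theorem set_form {M : ℕ} (z : Plane) (w : ℕ × ℕ) (τ : Bool) :
    ({z, q M w (!τ), q M w τ} : Finset Plane) = {q M w false, q M w true, z} := by
  cases τ
  · ext p; simp; tauto
  · ext p; simp; tauto

theorem set_form' {M : ℕ} (z : Plane) (w : ℕ × ℕ) (σ : Bool) :
    ({z, q M w σ, q M w (!σ)} : Finset Plane) = {q M w false, q M w true, z} := by
  cases σ
  · ext p; simp; tauto
  · ext p; simp; tauto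

theorem pairEdge_side {M : ℕ} (hM : 3 ≤ M) (w : ℕ × ℕ) (z : Plane) :
    pairEdge M w ∈ sides ({q M w false, q M w true, z} : Finset Plane) :=
  mem_sides.2 ⟨by simp, by simp, q_self_ne hM w (by simp)⟩

theorem step {M : ℕ} (hM : 3 ≤ M) {rest : List (ℕ × ℕ)} {w v x : ℕ × ℕ}
    (hnd : (w :: v :: x :: rest).Nodup) (hch : (w :: v :: x :: rest).IsChain GridAdj)
    (ih : ∀ c, ∃ l T, Built M (v :: x :: rest) v x c l T) (c' : Bool) :
    ∃ l T, Built M (w :: v :: x :: rest) w v c' l T := by
  rw [List.isChain_cons_cons] at hch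
  obtain ⟨hwv, hch2⟩ := hch
  rw [List.isChain_cons_cons] at hch2
  obtain ⟨hvx, -⟩ := hch2
  have hw : w ∉ v :: x :: rest := (List.nodup_cons.1 hnd).1
  have hv : v ∉ x :: rest := (List.nodup_cons.1 (List.nodup_cons.1 hnd).2).1
  have hxw : x ≠ w := by rintro rfl; exact hw (by simp)
  have hvw : v ≠ w := hwv.ne.symm
  -- common facts about a stage
  have hnew : ∀ {c : Bool} {l : List Plane} {T : Finset (Finset Plane)},
      Built M (v :: x :: rest) v x c l T → ∀ s, q M w s ∉ l := by
    intro c l T hB s hmem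
    obtain ⟨u, hu, s', h⟩ := (hB.mem _).1 hmem
    exact hw ((q_inj hM h).1 ▸ hu)
  have hfar : ∀ (t : Finset Plane), (∃ x' ∈ (v :: x :: rest).tail, ∃ y' ∈ (v :: x :: rest).tail,
      GridAdj x' y' ∧ ∀ p ∈ t, ∃ s, p = q M x' s ∨ p = q M y' s) →
      ∃ f, IsAff f ∧ ∃ C, (∀ p ∈ t, f p ≤ C) ∧ (∀ s, C ≤ f (q M v s)) ∧
        (∀ s, C < f (q M w s)) := by
    rintro t ⟨x', hx', y', hy', hadj, hform⟩
    simp only [List.tail_cons] at hx' hy'
    obtain ⟨f, hf, C, h1, h2⟩ := far hM hadj hwv.symm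
      (by rintro rfl; exact hv hx') (by rintro rfl; exact hw (List.mem_cons_of_mem _ hx'))
      (by rintro rfl; exact hv hy') (by rintro rfl; exact hw (List.mem_cons_of_mem _ hy'))
    refine ⟨f, hf, C, ?_, fun s => (h2 s).1.le, fun s => (h2 s).2⟩
    intro p hp
    obtain ⟨s, rfl | rfl⟩ := hform p hp
    · exact (h1 s).1
    · exact (h1 s).2
  have htail : ∀ {c : Bool} {l : List Plane} {T : Finset (Finset Plane)},
      Built M (v :: x :: rest) v x c l T → ∀ t ∈ T,
      ∃ x' ∈ (w :: v :: x :: rest).tail, ∃ y' ∈ (w :: v :: x :: rest).tail, GridAdj x' y' ∧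
        ∀ p ∈ t, ∃ s, p = q M x' s ∨ p = q M y' s := by
    intro c l T hB t ht
    rcases hB.tris t ht with h | ⟨x', hx', y', hy', h1, h2⟩
    · exact ⟨v, by simp, x, by simp, hvx, h.form⟩
    · exact ⟨x', List.mem_of_mem_tail hx', y', List.mem_of_mem_tail hy', h1, h2⟩
  rcases adj_cases hwv.symm with ⟨τ, hτ⟩ | ⟨δ, hδ⟩
  · -- Case I
    obtain ⟨l, T, hB⟩ := ih (!τ)
    have hsep : ∀ t ∈ T, ∃ f, IsAff f ∧ ∃ C, (∀ p ∈ t, f p ≤ C) ∧ (∀ s, C ≤ f (q M v s)) ∧
        (∀ s, C < f (q M w s)) := by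
      intro t ht
      rcases hB.tris t ht with h | h
      · exact sepI hM hτ hxw (fun _ _ => rfl) h
      · exact hfar t h
    obtain ⟨g1, g2, g3⟩ := geomI hM hτ c'
    obtain ⟨l', k1, k2, k3⟩ := add2 (z := q M v c') (y1 := q M w (!τ)) (y2 := q M w τ) hB.tri
      (by cases c' <;> simp) hB.head (hnew hB _) (hnew hB _)
      (q_self_ne hM w (by cases τ <;> simp)) g1 g2
      (by
        intro t ht
        obtain ⟨f, hf, C, h1, h2, h3⟩ := hsep t ht
        exact sep hf h1 (h2 _) (h2 _) (h3 _))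
      (by
        intro t ht
        obtain ⟨f, hf, C, h1, h2, h3⟩ := hsep t ht
        exact sep hf h1 (h2 _) (h3 _).le (h3 _)) g3
    refine ⟨l', _, k1, ?_, ?_, ?_, ?_⟩
    · intro p
      rw [k2, hB.mem]
      constructor
      · rintro (⟨u, hu, s, rfl⟩ | rfl | rfl)
        · exact ⟨u, List.mem_cons_of_mem _ hu, s, rfl⟩
        · exact ⟨w, by simp, _, rfl⟩
        · exact ⟨w, by simp, _, rfl⟩
      · rintro ⟨u, hu, s, rfl⟩
        rcases List.mem_cons.1 hu with rfl | hu
        · right
          cases s <;> cases τ <;> simp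
        · left; exact ⟨u, hu, s, rfl⟩
    · unfold pairEdge
      cases τ
      · rw [Sym2.eq_swap]; exact k3
      · exact k3
    · intro t ht
      rcases Finset.mem_insert.1 ht with rfl | ht
      · left; left
        exact ⟨!τ, hτ.swap, Or.inl (set_form _ _ _)⟩
      rcases Finset.mem_insert.1 ht with rfl | ht
      · left; left
        exact ⟨!τ, hτ.swap, Or.inr rfl⟩
      · right; exact htail hB t ht
    · intro u hu
      rcases List.mem_cons.1 hu with rfl | hu
      · refine Finset.mem_biUnion.2 ⟨_, Finset.mem_insert_self _ _, ?_⟩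
        rw [set_form]
        exact pairEdge_side hM _ _
      · obtain ⟨t, ht, h⟩ := Finset.mem_biUnion.1 (hB.pairs u hu)
        exact Finset.mem_biUnion.2 ⟨t, Finset.mem_insert_of_mem (Finset.mem_insert_of_mem ht), h⟩
  · -- Case II
    obtain ⟨σ, c, hc1, hc2⟩ : ∃ σ c : Bool, (∀ τ, Perp v x τ → σ = !τ) ∧
        (∀ δ', Algn v x δ' → c = !σ) := by
      rcases adj_cases hvx with ⟨τ, hτ⟩ | ⟨δ', hδ'⟩
      · refine ⟨!τ, τ, ?_, ?_⟩
        · intro τ' hτ'
          have := (hτ.coords (M := 3) true).2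
          have h2 := (hτ'.coords (M := 3) true).2
          rw [this] at h2
          cases τ <;> cases τ' <;> simp at h2 ⊢
          · norm_num at h2
          · norm_num at h2
        · intro δ' _; simp
      · refine ⟨true, false, ?_, ?_⟩
        · intro τ hτ
          have h1 := (hτ.coords (M := 3) true).1
          have h2 := (hδ'.coords (M := 3) true).1
          rw [h1] at h2
          cases δ' <;> simp at h2
        · intro _ _; rfl
    obtain ⟨l, T, hB⟩ := ih c
    obtain ⟨g1, g2, g3⟩ := geomII hM hδ σ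
    obtain ⟨l', k1, k2, k3⟩ := add2 (z := q M v δ) (y1 := q M w σ) (y2 := q M w (!σ)) hB.tri
      (by cases δ <;> simp) hB.head (hnew hB _) (hnew hB _)
      (q_self_ne hM w (by cases σ <;> simp)) g1 g2
      (by
        intro t ht
        rcases hB.tris t ht with h | h
        · obtain ⟨f, hf, C, h1, h2, h3⟩ := sepII1 hM hδ hxw hc1 hc2 h
          exact sep hf h1 (h2 _) (h2 _) h3
        · obtain ⟨f, hf, C, h1, h2, h3⟩ := hfar t h
          exact sep hf h1 (h2 _) (h2 _) (h3 _))
      (by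
        intro t ht
        rcases hB.tris t ht with h | h
        · obtain ⟨f, hf, C, h1, h2, h3⟩ := sepII2 hM hδ hxw h
          exact sep hf h1 h2 (h3 _).le (h3 _)
        · obtain ⟨f, hf, C, h1, h2, h3⟩ := hfar t h
          exact sep hf h1 (h2 _) (h3 _).le (h3 _)) g3
    refine ⟨l', _, k1, ?_, ?_, ?_, ?_⟩
    · intro p
      rw [k2, hB.mem]
      constructor
      · rintro (⟨u, hu, s, rfl⟩ | rfl | rfl)
        · exact ⟨u, List.mem_cons_of_mem _ hu, s, rfl⟩
        · exact ⟨w, by simp, _, rfl⟩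
        · exact ⟨w, by simp, _, rfl⟩
      · rintro ⟨u, hu, s, rfl⟩
        rcases List.mem_cons.1 hu with rfl | hu
        · right
          cases s <;> cases σ <;> simp
        · left; exact ⟨u, hu, s, rfl⟩
    · unfold pairEdge
      cases σ
      · exact k3
      · rw [Sym2.eq_swap]; exact k3
    · intro t ht
      rcases Finset.mem_insert.1 ht with rfl | ht
      · left; right
        refine ⟨!δ, hδ.swap, Or.inl ?_⟩
        rw [Bool.not_not]
        exact set_form' _ _ _
      rcases Finset.mem_insert.1 ht with rfl | ht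
      · left; right
        exact ⟨!δ, hδ.swap, Or.inr ⟨σ, rfl⟩⟩
      · right; exact htail hB t ht
    · intro u hu
      rcases List.mem_cons.1 hu with rfl | hu
      · refine Finset.mem_biUnion.2 ⟨_, Finset.mem_insert_self _ _, ?_⟩
        rw [set_form']
        exact pairEdge_side hM _ _
      · obtain ⟨t, ht, h⟩ := Finset.mem_biUnion.1 (hB.pairs u hu)
        exact Finset.mem_biUnion.2 ⟨t, Finset.mem_insert_of_mem (Finset.mem_insert_of_mem ht), h⟩

end Pool.Agent.Lib.MP_17cbde_lc
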