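import Mathlib
import Pool.Agent.Lib.MP_17cbde_lc.Build
import Pool.Agent.Lib.MP_17cbde_lc.Backward

namespace Pool.Agent.Lib.MP_17cbde_lc

open Classical

theorem base_built {M : ℕ} (hM : 3 ≤ M) {v x : ℕ × ℕ} (hadj : GridAdj v x) (c : Bool) :
    ∃ l T, Built M [v, x] v x c l T := by
  have hvx : v ≠ x := hadj.ne
  have main : ∀ (z y1 y2 : Plane), (z = q M v false ∨ z = q M v true) →
      y1 ∉ ({q M v false, q M v true} : Finset Plane) →
      y2 ∉ ({q M v false, q M v true, y1} : Finset Plane) →
      area2 (q M v false) (q M v true) y1 ≠ 0 → area2 z y1 y2 ≠ 0 →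
      region {q M v false, q M v true, y1} ∩ region {z, y1, y2} ⊆ segment ℝ z y1 →
      ∃ l, Tri l {{z, y1, y2}, {q M v false, q M v true, y1}} ∧
        (∀ p, p ∈ l ↔ p = q M v false ∨ p = q M v true ∨ p = y1 ∨ p = y2) ∧
        pairEdge M v ∈ polygonEdges l := by
    intro z y1 y2 hz hy1 hy2 ha1 ha2 hr
    simp only [Finset.mem_insert, Finset.mem_singleton, not_or] at hy1 hy2
    have hT := Tri.base ha1
    have hP : polygonEdges [q M v false, q M v true, y1] =
        [s(q M v false, q M v true), s(q M v true, y1), s(y1, q M v false)] := rfl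
    obtain ⟨l, k1, k2, -, -, k5⟩ := glue hT (a := z) (b := y1) (v := y2)
      (by
        rw [hP]
        rcases hz with rfl | rfl
        · rw [Sym2.eq_swap]; simp
        · simp)
      (by simp [hy2]) ha2
      (by
        intro t ht
        rw [Finset.mem_singleton] at ht
        subst ht
        exact hr)
    refine ⟨l, k1, ?_, ?_⟩
    · intro p
      rw [k2]
      simp only [List.mem_cons, List.not_mem_nil, or_false]
      tauto
    · apply k5
      · rw [hP]; simp [pairEdge]
      · unfold pairEdge
        rw [Ne, Sym2.eq_iff]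
        rintro (⟨-, h⟩ | ⟨h, -⟩)
        · exact hy1.2 h.symm
        · exact hy1.1 h.symm
  have hne : ∀ s s', q M x s ≠ q M v s' := fun s s' => q_ne_q hM hvx.symm s s'
  have fin : ∀ (z : Plane) (σ : Bool), (z = q M v false ∨ z = q M v true) →
      area2 (q M v false) (q M v true) (q M x σ) ≠ 0 → area2 z (q M x σ) (q M x (!σ)) ≠ 0 →
      region {q M v false, q M v true, q M x σ} ∩ region {z, q M x σ, q M x (!σ)} ⊆
        segment ℝ z (q M x σ) →
      (InQ M v x c {q M v false, q M v true, q M x σ}) →
      (InQ M v x c {q M x false, q M x true, z}) → ∃ l T, Built M [v, x] v x c l T := by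
    intro z σ hz h1 h2 h3 h4 h5
    obtain ⟨l, k1, k2, k3⟩ := main z (q M x σ) (q M x (!σ)) hz (by simp [hne]) (by
      simp only [Finset.mem_insert, Finset.mem_singleton, not_or]
      exact ⟨hne _ _, hne _ _, q_self_ne hM x (by cases σ <;> simp)⟩) h1 h2 h3
    refine ⟨l, _, k1, ?_, k3, ?_, ?_⟩
    · intro p
      rw [k2]
      constructor
      · rintro (rfl | rfl | rfl | rfl)
        · exact ⟨v, by simp, false, rfl⟩
        · exact ⟨v, by simp, true, rfl⟩
        · exact ⟨x, by simp, σ, rfl⟩
        · exact ⟨x, by simp, !σ, rfl⟩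
      · rintro ⟨u, hu, s, rfl⟩
        simp only [List.mem_cons, List.not_mem_nil, or_false] at hu
        rcases hu with rfl | rfl
        · cases s
          · left; rfl
          · right; left; rfl
        · right; right
          cases s <;> cases σ <;> simp
    · intro t ht
      left
      simp only [Finset.mem_insert, Finset.mem_singleton] at ht
      rcases ht with rfl | rfl
      · rw [set_form']; exact h5
      · exact h4
    · intro u hu
      simp only [List.mem_cons, List.not_mem_nil, or_false] at hu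
      rcases hu with rfl | rfl
      · exact Finset.mem_biUnion.2 ⟨_, by simp, pairEdge_side hM u (q M x σ)⟩
      · refine Finset.mem_biUnion.2 ⟨_, Finset.mem_insert_self _ _, ?_⟩
        rw [set_form']
        exact pairEdge_side hM _ _
  rcases adj_cases hadj with ⟨τ, hτ⟩ | ⟨δ, hδ⟩
  · obtain ⟨g1, g2, g3⟩ := geomI hM hτ false
    refine fin (q M v false) (!τ) (Or.inl rfl) g1 (by rw [Bool.not_not]; exact g2)
      (by rw [Bool.not_not]; exact g3) ?_ ?_
    · right; exact ⟨τ, hτ, Or.inl rfl⟩
    · right; exact ⟨τ, hτ, Or.inr ⟨false, rfl⟩⟩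
  · obtain ⟨g1, g2, g3⟩ := geomII hM hδ c
    refine fin (q M v δ) c (by cases δ <;> simp) g1 g2 g3 ?_ ?_
    · left; exact ⟨δ, hδ, Or.inl rfl⟩
    · left; exact ⟨δ, hδ, Or.inr rfl⟩

theorem build {M : ℕ} (hM : 3 ≤ M) (rest : List (ℕ × ℕ)) : ∀ (v x : ℕ × ℕ) (c : Bool),
    (v :: x :: rest).Nodup → (v :: x :: rest).IsChain GridAdj →
    ∃ l T, Built M (v :: x :: rest) v x c l T := by
  induction rest with
  | nil =>
    intro v x c _ hch
    rw [List.isChain_cons_cons] at hch
    exact base_built hM hch.1 c
  | cons y rest ih =>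
    intro w v c hnd hch
    refine step hM hnd hch ?_ c
    intro c'
    exact ih v y c' (List.nodup_cons.1 hnd).2 (by
      rw [List.isChain_cons_cons] at hch
      exact hch.2)

theorem dist_frame (M : ℕ) (v : ℕ × ℕ) (p p' : Plane) :
    dist p p' ^ 2 = (cA M v p - cA M v p') ^ 2 + (cB M v p - cB M v p') ^ 2 := by
  rw [dist_sq]
  unfold cA cB
  split_ifs <;> ring

theorem dist_adj_le {M : ℕ} (hM : 3 ≤ M) {v w : ℕ × ℕ} (h : GridAdj v w) (s s' : Bool) :
    dist (q M v s) (q M w s') ≤ M + 2 := by
  have hM' : (3 : ℝ) ≤ M := by exact_mod_cast hM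
  apply le_of_sq_le_sq _ (by linarith)
  rw [dist_frame M v, cA_self, cB_self]
  rcases adj_cases h with ⟨τ, hτ⟩ | ⟨δ, hδ⟩
  · rw [(hτ.coords s').1, (hτ.coords s').2]
    rcases sg_cases τ with e | e <;> rcases sg_cases s with e1 | e1 <;>
      rcases sg_cases s' with e2 | e2 <;> rw [e, e1, e2] <;> nlinarith
  · rw [(hδ.coords s').1, (hδ.coords s').2]
    rcases sg_cases δ with e | e <;> rcases sg_cases s with e1 | e1 <;>
      rcases sg_cases s' with e2 | e2 <;> rw [e, e1, e2] <;> nlinarith

theorem len_pairEdge (M : ℕ) (v : ℕ × ℕ) : len (pairEdge M v) = 2 := by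
  unfold pairEdge
  rw [len_mk]
  have h : dist (q M v false) (q M v true) ^ 2 = 2 ^ 2 := by
    rw [dist_frame M v, cA_self, cA_self, cB_self, cB_self]
    simp; norm_num
  exact (sq_eq_sq₀ dist_nonneg (by norm_num)).1 h

theorem forward {M : ℕ} (V : List (ℕ × ℕ)) (hV : V.Nodup) (h2 : 2 ≤ V.length) (hM : 3 ≤ M)
    (P : List (ℕ × ℕ)) (hP : P.Perm V) (hch : P.IsChain GridAdj) (W : ℕ)
    (hW : 3 * ((V.length : ℝ) - 1) * (M + 2) + 2 * V.length ≤ W) : MWOL (blow M V) W := by
  have hPlen : P.length = V.length := hP.length_eq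
  have hPnd : P.Nodup := hP.nodup_iff.2 hV
  obtain ⟨v, x, rest, rfl⟩ : ∃ v x rest, P = v :: x :: rest := by
    rcases P with _ | ⟨v, _ | ⟨x, rest⟩⟩
    · simp at hPlen; omega
    · simp at hPlen; omega
    · exact ⟨v, x, rest, rfl⟩
  obtain ⟨l, T, hB⟩ := build hM rest v x false hPnd hch
  have hmemV : ∀ u, u ∈ v :: x :: rest ↔ u ∈ V := fun u => hP.mem_iff
  have hlS : l.toFinset = (blow M V).toFinset.image toPlane := by
    ext p
    rw [mem_image_blow, List.mem_toFinset, hB.mem]
    constructor
    · rintro ⟨u, hu, s, rfl⟩; exact ⟨u, (hmemV u).1 hu, s, rfl⟩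
    · rintro ⟨u, hu, s, rfl⟩; exact ⟨u, (hmemV u).2 hu, s, rfl⟩
  have hScard := card_image_blow hM hV
  have hllen : l.length = 2 * V.length := by
    rw [← List.toFinset_card_of_nodup hB.tri.simple.nodup, hlS, hScard]
  have hEcard := hB.tri.card
  refine ⟨?_, T.biUnion sides, ⟨?_, l, T, hlS, hB.tri.simple, hB.tri.triang, rfl⟩, ?_⟩
  · -- nodup
    unfold blow
    rw [List.nodup_flatMap]
    refine ⟨?_, ?_⟩
    · intro u hu
      simp only [List.nodup_cons, List.mem_singleton, List.not_mem_nil, not_false_eq_true,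
        List.nodup_nil, and_true]
      intro h
      exact q_self_ne hM u (s := false) (s' := true) (by simp) (by unfold q; rw [h])
    · refine List.Pairwise.imp ?_ hV
      intro a b hab
      rw [Function.onFun, List.disjoint_left]
      intro p hp hp'
      simp only [List.mem_cons, List.not_mem_nil, or_false] at hp hp'
      rcases hp with rfl | rfl <;> rcases hp' with h | h <;>
        exact hab ((q_inj hM (show q M a _ = q M b _ by unfold q; rw [h])).1)
  · rw [hScard]; omega
  · -- weight
    have hVcard : V.toFinset.card = V.length := List.toFinset_card_of_nodup hV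
    have hpairs : V.toFinset.image (pairEdge M) ⊆ T.biUnion sides := by
      intro e he
      obtain ⟨u, hu, rfl⟩ := Finset.mem_image.1 he
      exact hB.pairs u ((hmemV u).2 (List.mem_toFinset.1 hu))
    have hpc : (V.toFinset.image (pairEdge M)).card = V.length := by
      rw [← hVcard]
      apply Finset.card_image_of_injOn
      intro a _ b _ h
      unfold pairEdge at h
      simp only [Sym2.eq_iff] at h
      rcases h with ⟨h, -⟩ | ⟨h, -⟩
      · exact (q_inj hM h).1
      · exact (q_inj hM h).1
    have hlong : ∀ e ∈ T.biUnion sides \ V.toFinset.image (pairEdge M), len e ≤ M + 2 := by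
      intro e he
      obtain ⟨he1, he2⟩ := Finset.mem_sdiff.1 he
      obtain ⟨t, ht, het⟩ := Finset.mem_biUnion.1 he1
      have hform : ∃ x' y', x' ∈ V ∧ y' ∈ V ∧ GridAdj x' y' ∧
          ∀ p ∈ t, ∃ s, p = q M x' s ∨ p = q M y' s := by
        rcases hB.tris t ht with h | ⟨x', hx', y', hy', h1, h2⟩
        · rw [List.isChain_cons_cons] at hch
          exact ⟨v, x, (hmemV v).1 (by simp), (hmemV x).1 (by simp), hch.1, h.form⟩
        · exact ⟨x', y', (hmemV _).1 (List.mem_of_mem_tail hx'),
            (hmemV _).1 (List.mem_of_mem_tail hy'), h1, h2⟩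
      obtain ⟨x', y', hx', hy', hadj, hf⟩ := hform
      induction e using Sym2.ind with
      | _ a b =>
        obtain ⟨ha, hb, hab⟩ := mem_sides.1 het
        rw [len_mk]
        have hpe : ∀ u ∈ V, ∀ s s', a = q M u s → b = q M u s' → False := by
          rintro u hu s s' rfl rfl
          apply he2
          refine Finset.mem_image.2 ⟨u, List.mem_toFinset.2 hu, ?_⟩
          unfold pairEdge
          cases s <;> cases s' <;> simp_all [Sym2.eq_swap]
        obtain ⟨s, ha' | ha'⟩ := hf a ha <;> obtain ⟨s', hb' | hb'⟩ := hf b hb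
        · exact (hpe x' hx' s s' ha' hb').elim
        · rw [ha', hb']; exact dist_adj_le hM hadj _ _
        · rw [ha', hb']; exact dist_adj_le hM hadj.symm _ _
        · exact (hpe y' hy' s s' ha' hb').elim
    have hsum : weight (T.biUnion sides) =
        ∑ e ∈ T.biUnion sides \ V.toFinset.image (pairEdge M), len e +
        ∑ e ∈ V.toFinset.image (pairEdge M), len e := by
      unfold weight
      rw [Finset.sum_sdiff hpairs]
    have hs1 : ∑ e ∈ V.toFinset.image (pairEdge M), len e = 2 * V.length := by
      rw [Finset.sum_congr rfl (g := fun _ => (2 : ℝ))]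
      · rw [Finset.sum_const, hpc]; simp [mul_comm]
      · intro e he
        obtain ⟨u, -, rfl⟩ := Finset.mem_image.1 he
        exact len_pairEdge M u
    have hs2 : ∑ e ∈ T.biUnion sides \ V.toFinset.image (pairEdge M), len e ≤
        (3 * ((V.length : ℝ) - 1)) * (M + 2) := by
      have := Finset.sum_le_card_nsmul _ _ _ hlong
      refine this.trans (le_of_eq ?_)
      rw [Finset.card_sdiff_of_subset hpairs, hpc, nsmul_eq_mul]
      congr 1
      have h4 : (T.biUnion sides).card - V.length + 3 = 3 * V.length := by omega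
      have h5 : (((T.biUnion sides).card - V.length : ℕ) : ℝ) + 3 = 3 * V.length := by
        exact_mod_cast h4
      linarith
    rw [hsum, hs1]
    linarith

end Pool.Agent.Lib.MP_17cbde_lc
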