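import Mathlib
import Pool.Agent.Lib.MP_17cbde_lc.Backward
import Pool.Agent.Lib.MP_17cbde_lc.Forward

/-!
The reduction: for suitable numbers `M` and `W` (depending on the number of grid points only) the
grid graph on `V` has a Hamiltonian path iff the point set `blow M V` has an outerplane Laman graph
of weight at most `W`.
-/

namespace Pool.Agent.Lib.MP_17cbde_lc

open Classical

theorem pt_injective {M : ℕ} (hM : 3 ≤ M) {v w : ℕ × ℕ} {s s' : Bool}
    (h : pt M v s = pt M w s') : v = w ∧ s = s' := by
  apply q_inj hM
  unfold q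
  rw [h]

theorem nodup_of_blow {M : ℕ} {V : List (ℕ × ℕ)} (h : (blow M V).Nodup) : V.Nodup := by
  unfold blow at h
  induction V with
  | nil => exact List.nodup_nil
  | cons v V ih =>
    rw [List.flatMap_cons, List.nodup_append] at h
    obtain ⟨-, h2, h3⟩ := h
    rw [List.nodup_cons]
    refine ⟨fun hv => ?_, ih h2⟩
    exact h3 (pt M v false) (by simp) (pt M v false)
      (List.mem_flatMap.2 ⟨v, hv, by simp⟩) rfl

theorem three_le_card_of_laman {S : Finset Plane} {E : Finset (Sym2 Plane)}
    (h : IsOuterplaneLaman S E) : 3 ≤ S.card := by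
  obtain ⟨-, l, T, hl, hs, -, -⟩ := h
  rw [← hl, List.toFinset_card_of_nodup hs.nodup]
  exact hs.three_le

theorem reduction_correct (V : List (ℕ × ℕ)) (M W : ℕ) (h3 : 3 ≤ M) (hM : 64 * V.length ≤ M)
    (h1 : 3 * (V.length - 1) * (M + 2) + 2 * V.length ≤ W)
    (h2 : 4 * W ≤ 12 * (V.length - 1) * M + M) :
    GridHamPath V ↔ MWOL (blow M V) W := by
  constructor
  · rintro ⟨hlen, hnd, P, hP, hch⟩
    refine forward V hnd hlen h3 P hP hch W ?_
    have h4 : ((3 * (V.length - 1) * (M + 2) + 2 * V.length : ℕ) : ℝ) ≤ W := by exact_mod_cast h1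
    push_cast [Nat.cast_sub (show 1 ≤ V.length by omega)] at h4
    exact h4
  · intro h
    have hnd : V.Nodup := nodup_of_blow h.1
    obtain ⟨E, hE, -⟩ := h.2
    have hcard := three_le_card_of_laman hE
    rw [card_image_blow h3 hnd] at hcard
    have hlen : 2 ≤ V.length := by omega
    refine ⟨hlen, hnd, ?_⟩
    refine backward V hnd (by omega) hM W ?_ h
    have h4 : ((4 * W : ℕ) : ℝ) ≤ (12 * (V.length - 1) * M + M : ℕ) := by exact_mod_cast h2
    push_cast [Nat.cast_sub (show 1 ≤ V.length by omega)] at h4
    linarith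

/-- the scaling factor used for `n` grid points -/
def scaleOf (n : ℕ) : ℕ := 64 * (n + 1)

/-- the weight bound used for `n` grid points -/
def boundOf (n : ℕ) : ℕ := (12 * (n - 1) + 1) * (16 * (n + 1))

theorem reduction_correct' (V : List (ℕ × ℕ)) :
    GridHamPath V ↔ MWOL (blow (scaleOf V.length) V) (boundOf V.length) := by
  apply reduction_correct
  · unfold scaleOf; omega
  · unfold scaleOf; omega
  · unfold scaleOf boundOf
    generalize V.length = n
    cases n with
    | zero => simp
    | succ k =>
      simp only [Nat.add_sub_cancel]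
      nlinarith
  · unfold scaleOf boundOf
    generalize V.length = n
    cases n with
    | zero => simp
    | succ k =>
      simp only [Nat.add_sub_cancel]
      nlinarith

end Pool.Agent.Lib.MP_17cbde_lc
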