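import Pool.Agent.Lib.MP_17cbde_lc.Lang
import Pool.Agent.Lib.MP_17cbde_lc.Reduction
import Pool.Agent.Lib.GridHam.Formula
import Pool.Agent.Lib.PolyTime.Quote

/-!
NP-hardness of the minimum-weight outerplane Laman graph problem.
-/

namespace Pool.Agent.Lib.MP_17cbde_lc

open N68a2faeb N487b59b3 N793a5b8e Pool.Agent.Lib.PolyTime Pool.Agent.Lib.GridHam
  Pool.Agent.Lib.CookLevin

theorem pt_point {α : Type} [N487b59b3 α] {M : α → ℕ} {v : α → ℕ × ℕ} (s : Bool)
    (hM : IsPolyTime M) (hv : IsPolyTime v) : IsPolyTime (fun a => pt (M a) (v a) s) := by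
  have h : IsPolyTime (fun a => if ((v a).1 + (v a).2) % 2 = 1 then
      (M a * (v a).1 + cond s 2 0, M a * (v a).2 + 1) else
      (M a * (v a).1 + 1, M a * (v a).2 + cond s 2 0)) := by
    refine pt_ite (pt_odd (by fun_prop)) (by fun_prop) (by fun_prop)
  refine pt_congr h (fun a => ?_)
  unfold pt
  rcases Nat.mod_two_eq_zero_or_one ((v a).1 + (v a).2) with h0 | h0
  · rw [if_pos h0, if_neg (by omega)]
  · rw [if_pos h0, if_neg (by omega)]

theorem pt_blow {α : Type} [N487b59b3 α] {M : α → ℕ} {V : α → List (ℕ × ℕ)}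
    (hM : IsPolyTime M) (hV : IsPolyTime V) : IsPolyTime (fun a => blow (M a) (V a)) := by
  unfold blow
  refine pt_flatMap hV ?_
  exact pt_cons (pt_point false (pt_comp hM pt_fst') pt_snd')
    (pt_cons (pt_point true (pt_comp hM pt_fst') pt_snd') (pt_const []))

/-- the instance made from a formula -/
def inst (φ : CNF) : List (ℕ × ℕ) × ℕ :=
  (blow (scaleOf (gridOf φ).length) (gridOf φ), boundOf (gridOf φ).length)

theorem pt_inst : IsPolyTime inst := by
  unfold inst
  have h1 : IsPolyTime (fun φ => scaleOf (gridOf φ).length) := by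
    unfold scaleOf
    exact pt_mul (pt_const 64) (pt_succ (pt_length pt_gridOf))
  have h2 : IsPolyTime (fun φ => boundOf (gridOf φ).length) := by
    unfold boundOf
    exact pt_mul (pt_succ (pt_mul (pt_const 12) (pt_sub (pt_length pt_gridOf) (pt_const 1))))
      (pt_mul (pt_const 16) (pt_succ (pt_length pt_gridOf)))
  exact pt_pair (pt_blow h1 pt_gridOf) h2

theorem inst_correct (φ : CNF) :
    (∃ β : ℕ → Bool, Sat β φ) ↔ MWOL (inst φ).1 (inst φ).2 :=
  (sat_iff_grid φ).trans (reduction_correct' (gridOf φ))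

/-! ### Size of the numbers -/

theorem length_le_flatMap {α β : Type*} (l : List α) (f : α → List β) (c : ℕ)
    (h : ∀ a ∈ l, c ≤ (f a).length) : l.length * c ≤ (l.flatMap f).length := by
  induction l with
  | nil => simp
  | cons a l ih =>
    rw [List.flatMap_cons, List.length_append, List.length_cons]
    have h1 := h a List.mem_cons_self
    have h2 := ih (fun b hb => h b (List.mem_cons_of_mem _ hb))
    nlinarith

theorem tile_pos (N m : ℕ) (pos neg : ℕ → ℕ → Bool) (I J : ℕ) (hI : I ≤ N + 1) (hJ : J ≤ m) :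
    1 ≤ (cellsR (rowsT N m pos neg I J)).length := by
  rw [cellsR_rowsT]
  unfold tileCells
  have e1 : 1 ≤ (cellsR [0, 0, 0, 0, 0, 0, 0, 0, 0, 0, 0, 0, 8]).length := by decide
  have e2 : 1 ≤ (cellsR [0, 0, 0, 0, 0, 0, 0, 0, 0, 0, 0, 0, 30]).length := by decide
  have e3 : ∀ b, 1 ≤ (cellsR (rowsL b)).length := by decide
  have e4 : ∀ b c, 1 ≤ (cellsR (rowsI b c)).length := by decide
  have e5 : 1 ≤ (cellsR [8]).length := by decide
  have e6 : 1 ≤ (cellsR [30]).length := by decide
  split_ifs with h1 h2 h3 h4 h5 h6 h7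
  all_goals first
    | exact e1
    | exact e2
    | exact e3 _
    | exact e5
    | exact e6
    | omega
    | (cases pos I J <;> cases neg I J <;> exact e4 _ _)

theorem board_length (N m : ℕ) (pos neg : ℕ → ℕ → Bool) :
    (N + 2) * (m + 1) ≤ (board N m pos neg).length := by
  unfold board
  have h := length_le_flatMap (List.range (N + 2)) (fun I => (List.range (m + 2)).flatMap fun J =>
    (cellsR (rowsT N m pos neg I J)).map (shift I J)) (m + 1) (by
      intro I hI
      rw [List.mem_range] at hI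
      rw [List.range_succ, List.flatMap_append, List.length_append]
      have h2 := length_le_flatMap (List.range (m + 1)) (fun J =>
        (cellsR (rowsT N m pos neg I J)).map (shift I J)) 1 (by
          intro J hJ
          rw [List.mem_range] at hJ
          rw [List.length_map]
          exact tile_pos _ _ _ _ _ _ (by omega) (by omega))
      rw [List.length_range] at h2
      omega)
  rw [List.length_range] at h
  exact h

theorem board_bound {N m : ℕ} {pos neg : ℕ → ℕ → Bool} {p : ℕ × ℕ}
    (hp : p ∈ board N m pos neg) : p.1 < 6 * (m + 2) ∧ p.2 < 13 * (N + 2) := by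
  unfold board at hp
  simp only [List.mem_flatMap, List.mem_range, List.mem_map] at hp
  obtain ⟨I, hI, J, hJ, ⟨c, r⟩, hcr, rfl⟩ := hp
  rw [mem_cellsR] at hcr
  unfold shift
  constructor
  · simp only; omega
  · simp only; omega

theorem length_blow (M : ℕ) (V : List (ℕ × ℕ)) : (blow M V).length = 2 * V.length := by
  unfold blow
  induction V with
  | nil => rfl
  | cons a V ih =>
    rw [List.flatMap_cons, List.length_append, ih]
    simp only [List.length_cons, List.length_nil]
    ring

theorem inst_small (φ : CNF) : (inst φ).2 ≤ 1000 * (inst φ).1.length ^ 2 ∧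
    ∀ p ∈ (inst φ).1, p.1 ≤ 1000 * (inst φ).1.length ^ 2 ∧
      p.2 ≤ 1000 * (inst φ).1.length ^ 2 := by
  unfold inst
  simp only [length_blow]
  have hlen := length_pairRows (vars φ)
  have h1 : ((pairRows (vars φ)).length + 2) * (φ.length + 1) ≤ (gridOf φ).length :=
    board_length _ _ _ _
  set n := (gridOf φ).length with hn
  have hN : 2 ≤ (pairRows (vars φ)).length := by omega
  generalize hNN : (pairRows (vars φ)).length = N at *
  have hb : ∀ p ∈ gridOf φ, p.1 < 6 * (φ.length + 2) ∧ p.2 < 13 * (N + 2) := by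
    intro p hp
    rw [← hNN]
    exact board_bound hp
  generalize φ.length = m at *
  have hNn : N + 2 ≤ n := by nlinarith
  have hmn : m + 2 ≤ n := by nlinarith
  constructor
  · unfold boundOf
    obtain ⟨k, hk⟩ : ∃ k, n = k + 1 := ⟨n - 1, by omega⟩
    rw [hk]
    simp only [Nat.add_sub_cancel]
    nlinarith
  · intro p hp
    rw [mem_blow] at hp
    obtain ⟨v, hv, s, rfl⟩ := hp
    obtain ⟨hv1, hv2⟩ := hb v hv
    have h3 : scaleOf n * v.1 + 2 ≤ 1000 * (2 * n) ^ 2 := by
      unfold scaleOf
      have : v.1 ≤ 6 * n := by omega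
      have : 64 * (n + 1) * v.1 ≤ 64 * (n + 1) * (6 * n) := Nat.mul_le_mul_left _ this
      nlinarith
    have h4 : scaleOf n * v.2 + 2 ≤ 1000 * (2 * n) ^ 2 := by
      unfold scaleOf
      have : v.2 ≤ 13 * n := by omega
      have : 64 * (n + 1) * v.2 ≤ 64 * (n + 1) * (13 * n) := Nat.mul_le_mul_left _ this
      nlinarith
    unfold pt
    split_ifs <;> cases s <;> simp only [cond_true, cond_false] <;> constructor <;> omega

/-! ### Hardness -/

theorem lang_iff (x : List Bool) : OUTERPLANELAMAN x = true ↔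
    ∃ (S : List (ℕ × ℕ)) (W : ℕ), x = bitEncode (S, W) ∧ MWOL S W := by
  classical
  unfold OUTERPLANELAMAN
  rw [decide_eq_true_iff]

theorem langSmall_iff (x : List Bool) : OUTERPLANELAMANSMALL x = true ↔
    ∃ (S : List (ℕ × ℕ)) (W : ℕ), x = bitEncode (S, W) ∧ MWOL S W ∧
      W ≤ 1000 * S.length ^ 2 ∧
      ∀ p ∈ S, p.1 ≤ 1000 * S.length ^ 2 ∧ p.2 ≤ 1000 * S.length ^ 2 := by
  classical
  unfold OUTERPLANELAMANSMALL
  rw [decide_eq_true_iff]

/-- **NP-hardness** of the minimum-weight outerplane Laman graph problem. -/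
theorem hard (L : DecisionProblem) (hL : L ∈ NP) :
    ManyOneReducible L OUTERPLANELAMAN ∧ ManyOneReducible L OUTERPLANELAMANSMALL := by
  obtain ⟨f, hf, h⟩ := cookLevin hL
  have hpt : IsPolyTime (fun x => (bitEncode (inst (f x)) : List Bool)) :=
    pt_quote (pt_comp pt_inst hf)
  constructor
  · refine ⟨fun x => bitEncode (inst (f x)), hpt, fun x => ?_⟩
    rw [Bool.eq_iff_iff, h x, lang_iff]
    refine (inst_correct (f x)).trans ?_
    constructor
    · intro h1
      exact ⟨_, _, rfl, h1⟩
    · rintro ⟨S, W, h1, h2⟩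
      have h3 : inst (f x) = (S, W) := bitEncode_injective h1
      rw [h3]
      exact h2
  · refine ⟨fun x => bitEncode (inst (f x)), hpt, fun x => ?_⟩
    rw [Bool.eq_iff_iff, h x, langSmall_iff]
    refine (inst_correct (f x)).trans ?_
    constructor
    · intro h1
      exact ⟨_, _, rfl, h1, inst_small _⟩
    · rintro ⟨S, W, h1, h2, -⟩
      have h3 : inst (f x) = (S, W) := bitEncode_injective h1
      rw [h3]
      exact h2

/-- The same as a statement about functions on words with values in the instances. -/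
theorem hard_typed (L : DecisionProblem) (hL : L ∈ NP) :
    ∃ f : List Bool → List (ℕ × ℕ) × ℕ, IsPolyTime f ∧
      ∀ x, (L x = true ↔ MWOL (f x).1 (f x).2) ∧
        (f x).2 ≤ 1000 * (f x).1.length ^ 2 ∧
        ∀ p ∈ (f x).1, p.1 ≤ 1000 * (f x).1.length ^ 2 ∧ p.2 ≤ 1000 * (f x).1.length ^ 2 := by
  obtain ⟨f, hf, h⟩ := cookLevin hL
  exact ⟨fun x => inst (f x), pt_comp pt_inst hf, fun x =>
    ⟨(h x).trans (inst_correct (f x)), inst_small (f x)⟩⟩

end Pool.Agent.Lib.MP_17cbde_lc
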