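import Pool.Agent.Lib.MP_17cbde_lc.Hard

/-!
NP-hardness of the minimum-weight outerplane Laman graph problem: the points of the instances made by the
reduction are distinct (also for the words outside the language).
-/

namespace Pool.Agent.Lib.MP_17cbde_lc

open N68a2faeb N487b59b3 N793a5b8e Pool.Agent.Lib.PolyTime Pool.Agent.Lib.GridHam
  Pool.Agent.Lib.CookLevin

theorem nodup_blow {M : ℕ} (hM : 3 ≤ M) {V : List (ℕ × ℕ)} (hV : V.Nodup) : (blow M V).Nodup := by
  unfold blow
  rw [List.nodup_flatMap]
  refine ⟨?_, ?_⟩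
  · intro u hu
    simp only [List.nodup_cons, List.mem_singleton, List.not_mem_nil, not_false_eq_true,
      List.nodup_nil, and_true]
    intro h
    exact q_self_ne hM u (s := false) (s' := true) (by simp) (by unfold q; rw [h])
  · refine List.Pairwise.imp ?_ hV
    intro a b hab
    rw [Function.onFun, List.disjoint_left]
    intro p hp hp'
    simp only [List.mem_cons, List.not_mem_nil, or_false] at hp hp'
    rcases hp with rfl | rfl <;> rcases hp' with h | h <;>
      exact hab ((q_inj hM (show q M a _ = q M b _ by unfold q; rw [h])).1)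

theorem inst_nodup (φ : CNF) : (inst φ).1.Nodup := by
  refine nodup_blow ?_ nodup_board
  unfold scaleOf
  omega

/-- `hard_typed` with distinct points in all instances. -/
theorem hard_nodup (L : DecisionProblem) (hL : L ∈ NP) :
    ∃ f : List Bool → List (ℕ × ℕ) × ℕ, IsPolyTime f ∧
      ∀ x, (L x = true ↔ MWOL (f x).1 (f x).2) ∧ (f x).1.Nodup ∧
        (f x).2 ≤ 1000 * (f x).1.length ^ 2 ∧
        ∀ p ∈ (f x).1, p.1 ≤ 1000 * (f x).1.length ^ 2 ∧ p.2 ≤ 1000 * (f x).1.length ^ 2 := by
  obtain ⟨f, hf, h⟩ := cookLevin hL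
  exact ⟨fun x => inst (f x), pt_comp pt_inst hf, fun x =>
    ⟨(h x).trans (inst_correct (f x)), inst_nodup (f x), inst_small (f x)⟩⟩

end Pool.Agent.Lib.MP_17cbde_lc
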