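import Pool.Agent.Lib.MP_17cbde_lc.Defs
import Pool.Prelude.Def_F_458e953d

/-!
The minimum-weight outerplane Laman graph problem as a language of binary words.
-/

namespace Pool.Agent.Lib.MP_17cbde_lc

open Classical N68a2faeb N487b59b3

/-- The words encoding a pair `(S, W)` with `MWOL S W`. -/
noncomputable def OUTERPLANELAMAN : DecisionProblem := fun x =>
  decide (∃ (S : List (ℕ × ℕ)) (W : ℕ), x = bitEncode (S, W) ∧ MWOL S W)

/-- The same with small numbers: the words encoding a pair `(S, W)` with `MWOL S W`, in which `W`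
and all coordinates of the `n` points of `S` are at most `1000 n ^ 2`. -/
noncomputable def OUTERPLANELAMANSMALL : DecisionProblem := fun x =>
  decide (∃ (S : List (ℕ × ℕ)) (W : ℕ), x = bitEncode (S, W) ∧ MWOL S W ∧
    W ≤ 1000 * S.length ^ 2 ∧
    ∀ p ∈ S, p.1 ≤ 1000 * S.length ^ 2 ∧ p.2 ≤ 1000 * S.length ^ 2)

end Pool.Agent.Lib.MP_17cbde_lc
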